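import Pool.Agent.EXP.CutWalk
import Pool.Agent.PHW.ViaE
import Pool.Agent.W47.K1

/-!
EXP: cut levels and irreducible bridges under the hypothesis that the bridge weights are of the order T^(-1/4).
-/

set_option autoImplicit false

namespace HexObs

open Complex Finset ENNReal K1

lemma RS_uu : CutR.RS uu kk :=
  ⟨uu_zero, uu_pos, uu_anti, kk_nonneg, kk_zero, renewal_real⟩

/-- irreducible bridges of height at least n -/
def IrrGe (n : ℕ) : Set (List Bool) := {t | ∃ r, n ≤ r ∧ t ∈ Irr r}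

theorem gf_IrrGe (n : ℕ) : gf (IrrGe n) = ENNReal.ofReal (KK' n) := by
  have h1 : IrrGe n = ⋃ r : ℕ, Irr (r + n) := by
    ext t
    rw [Set.mem_iUnion]
    constructor
    · rintro ⟨r, h1, h2⟩
      refine ⟨r - n, ?_⟩
      rwa [Nat.sub_add_cancel h1]
    · rintro ⟨r, h1⟩
      exact ⟨r + n, Nat.le_add_left n r, h1⟩
  have h2 : ∀ i j, ∀ t, t ∈ Irr (i + n) → t ∈ Irr (j + n) → i = j := by
    intro i j t hi hj
    have := Brd_height hi.1 hj.1
    omega
  rw [h1, gf_iUnion _ h2]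
  have h3 : ∀ r, gf (Irr (r + n)) = ENNReal.ofReal (kk (r + n)) := fun r => kap'_eq (r + n)
  simp_rw [h3]
  have hs : Summable fun r => kk (r + n) := (summable_nat_add_iff n).2 summable_kk
  rw [← ENNReal.ofReal_tsum_of_nonneg (fun r => kk_nonneg _) hs]
  congr 1
  have h4 := summable_kk.sum_add_tsum_nat_add n
  rw [tsum_kk] at h4
  unfold KK'
  linarith

/-- number of pieces, summed with the weights -/
theorem sum_ncut (T : ℕ) : ∑' t : List Bool, (Brd T).indicator (fun t => (ncut T t : ℝ≥0∞) * wE t) t =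
    ENNReal.ofReal (∑ c ∈ Finset.Icc 1 T, uu c * uu (T - c)) := by
  classical
  have h1 : ∀ t, (Brd T).indicator (fun t => (ncut T t : ℝ≥0∞) * wE t) t =
      ∑ c ∈ Finset.Icc 1 T, ({t | t ∈ Brd T ∧ Cut t c}).indicator wE t := by
    intro t
    by_cases ht : t ∈ Brd T
    · rw [Set.indicator_of_mem ht]
      unfold ncut
      rw [Finset.card_filter]
      push_cast
      rw [Finset.sum_mul]
      apply Finset.sum_congr rfl
      intro c _
      by_cases hc : Cut t c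
      · rw [if_pos hc, Set.indicator_of_mem (show t ∈ {t | t ∈ Brd T ∧ Cut t c} from ⟨ht, hc⟩)]
        simp
      · rw [if_neg hc, Set.indicator_of_notMem (show t ∉ {t | t ∈ Brd T ∧ Cut t c} from fun h => hc h.2)]
        simp
    · rw [Set.indicator_of_notMem ht]
      symm
      apply Finset.sum_eq_zero
      intro c _
      rw [Set.indicator_of_notMem (show t ∉ {t | t ∈ Brd T ∧ Cut t c} from fun h => ht h.1)]
  simp_rw [h1]
  rw [Summable.tsum_finsetSum (fun c _ => ENNReal.summable), ENNReal.ofReal_sum_of_nonneg]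
  · apply Finset.sum_congr rfl
    intro c hc
    rw [Finset.mem_Icc] at hc
    rw [← gf_indicator, CutW.gf_cut hc.2, CutW.BT_ofReal, CutW.BT_ofReal, ENNReal.ofReal_mul (uu_pos c).le]
  · intro c _
    exact mul_nonneg (uu_pos c).le (uu_pos _).le

lemma PB_uu {C : ℝ} (h : ∀ T : ℕ, 1 ≤ T →
    (T : ℝ) ^ (-(1 / 4 : ℝ)) / C ≤ bT T ∧ bT T ≤ C * (T : ℝ) ^ (-(1 / 4 : ℝ))) : CutR.PB uu (3 / 4) C := by
  intro T hT
  have h1 := h T hT
  rw [← uu_eq hT] at h1
  have e : (3 / 4 : ℝ) - 1 = -(1 / 4 : ℝ) := by norm_num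
  rw [e]
  exact h1

/-- the weight of the bridges with m irreducible pieces and height at most x -/
theorem gf_sum_pieces (m x : ℕ) : gf {t | ∃ T, T ≤ x ∧ t ∈ Brd T ∧ ncut T t = m} = ENNReal.ofReal (CutR.dw kk m x) := by
  have h1 : {t | ∃ T, T ≤ x ∧ t ∈ Brd T ∧ ncut T t = m} = ⋃ T ∈ Finset.range (x + 1), CutW.PN m T := by
    ext t
    simp only [Set.mem_iUnion, Finset.mem_range]
    constructor
    · rintro ⟨T, h1, h2⟩
      exact ⟨T, by omega, h2⟩
    · rintro ⟨T, h1, h2⟩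
      exact ⟨T, by omega, h2⟩
  rw [h1, gf_biUnion]
  · unfold CutR.dw
    rw [ENNReal.ofReal_sum_of_nonneg]
    · exact Finset.sum_congr rfl fun T _ => CutW.gf_PN m T
    · intro T _
      exact CutR.pw_nonneg kk_nonneg m T
  · intro i _ j _ hij
    rw [Set.disjoint_left]
    rintro t ⟨h1, _⟩ ⟨h2, _⟩
    exact hij (Brd_height h1 h2)

/-- **Cut levels of the critical bridges and irreducible bridges**, from the order of the bridge weights.
(1) the irreducible bridges of height at least n have the weight of order n^(-3/4); (2) their truncated mean height is of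
order R^(1/4); (3) the probability that the bridge of height T is cut at the height j is of order (j (T - j) / T)^(-1/4);
(4) the mean number of irreducible pieces is of order T^(3/4); (5), (6) tails of the number of pieces; (7), (8) the height
of a chain of m independent irreducible bridges is of order m^(4/3). -/
theorem cut_levels_of (hB : ∃ C : ℝ, 0 < C ∧ ∀ T : ℕ, 1 ≤ T →
      (T : ℝ) ^ (-(1 / 4 : ℝ)) / C ≤ bT T ∧ bT T ≤ C * (T : ℝ) ^ (-(1 / 4 : ℝ))) :
    ∃ C : ℝ, 1 ≤ C ∧ ∃ c : ℝ, 0 < c ∧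
      (∀ n : ℕ, 1 ≤ n → (n : ℝ) ^ (-(3 / 4 : ℝ)) / C ≤ KK' n ∧ KK' n ≤ C * (n : ℝ) ^ (-(3 / 4 : ℝ))) ∧
      (∀ R : ℕ, 1 ≤ R → (R : ℝ) ^ (1 / 4 : ℝ) / C ≤ ∑ r ∈ Finset.range (R + 1), r * kk r ∧
        ∑ r ∈ Finset.range (R + 1), r * kk r ≤ C * (R : ℝ) ^ (1 / 4 : ℝ)) ∧
      (∀ j i : ℕ, 1 ≤ j → 1 ≤ i →
        ((j : ℝ) * i / (j + i)) ^ (-(1 / 4 : ℝ)) / C * uu (j + i) ≤ uu j * uu i ∧
        uu j * uu i ≤ C * ((j : ℝ) * i / (j + i)) ^ (-(1 / 4 : ℝ)) * uu (j + i)) ∧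
      (∀ T : ℕ, 1 ≤ T → (T : ℝ) ^ (3 / 4 : ℝ) / C * uu T ≤ ∑ j ∈ Finset.Icc 1 T, uu j * uu (T - j) ∧
        ∑ j ∈ Finset.Icc 1 T, uu j * uu (T - j) ≤ C * (T : ℝ) ^ (3 / 4 : ℝ) * uu T) ∧
      (∀ m T : ℕ, 1 ≤ T → CutR.aw kk m T ≤ C * (((m : ℝ) + 1) / (T : ℝ) ^ (3 / 4 : ℝ)) ^ (2 / 3 : ℝ) * uu T) ∧
      (∀ m T : ℕ, 1 ≤ T →
        uu T - CutR.aw kk m T ≤ 2 * Real.exp (-(c * (((m : ℝ) + 1) / (T : ℝ) ^ (3 / 4 : ℝ))) ^ (4 : ℕ)) * uu T) ∧
      (∀ m x : ℕ, 1 ≤ x → 1 - C * (m / (x : ℝ) ^ (3 / 4 : ℝ)) ≤ CutR.dw kk m x) ∧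
      (∀ m x : ℕ, 1 ≤ x → CutR.dw kk m x ≤ Real.exp (-(c * (m / (x : ℝ) ^ (3 / 4 : ℝ))))) := by
  obtain ⟨C0, hC0, h0⟩ := hB
  obtain ⟨C, hC⟩ : ∃ C, C = max C0 1 := ⟨_, rfl⟩
  have hC1 : 1 ≤ C := by rw [hC]; exact le_max_right _ _
  have hCC : C0 ≤ C := by rw [hC]; exact le_max_left _ _
  have hCp : 0 < C := by linarith
  have h1 : ∀ T : ℕ, 1 ≤ T →
      (T : ℝ) ^ (-(1 / 4 : ℝ)) / C ≤ bT T ∧ bT T ≤ C * (T : ℝ) ^ (-(1 / 4 : ℝ)) := by
    intro T hT
    obtain ⟨h2, h3⟩ := h0 T hT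
    constructor
    · exact (div_le_div_of_nonneg_left (by positivity) hC0 hCC).trans h2
    · exact h3.trans (mul_le_mul_of_nonneg_right hCC (by positivity))
  have hb : CutR.PB uu (3 / 4) C := PB_uu h1
  have hg0 : (0 : ℝ) < 3 / 4 := by norm_num
  have hg2 : (1 / 2 : ℝ) < 3 / 4 := by norm_num
  have hg1 : (3 / 4 : ℝ) < 1 := by norm_num
  have e1 : (1 : ℝ) - 3 / 4 = 1 / 4 := by norm_num
  obtain ⟨c1, hc1, hK⟩ := CutR.KS_lower RS_uu hg0 hg1 hC1 hb
  obtain ⟨c2, hc2, hM⟩ := CutR.mean_lower RS_uu hg0 hg1 hC1 hb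
  obtain ⟨D1, hD1, hN⟩ := CutR.mean_pieces RS_uu hg0 hg1 hC1 hb
  obtain ⟨D2, hD2, hU⟩ := CutR.aw_upper RS_uu hg2 hg1 hC1 hb
  obtain ⟨c3, hc3, hL⟩ := CutR.aw_lower RS_uu hg0 hg1 hC1 hb
  rw [e1] at hM
  have e2 : (2 * (3 / 4) - 1 : ℝ) / (3 / 4) = 2 / 3 := by norm_num
  rw [e2] at hU
  have e3 : (1 : ℝ) / (1 - 3 / 4) = (4 : ℕ) := by norm_num
  rw [e3] at hL
  obtain ⟨E, hE⟩ : ∃ E : ℝ, E = 4 * C ^ 3 + 1 / c1 + 1 / c2 + D1 + D2 := ⟨_, rfl⟩
  have hC2 : C ≤ C ^ 3 := by nlinarith [mul_self_nonneg C, mul_pos hCp hCp]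
  have hC3 : 1 ≤ C ^ 3 := by linarith
  have i1 : 0 < 1 / c1 := by positivity
  have i2 : 0 < 1 / c2 := by positivity
  have hE1 : 1 ≤ E := by rw [hE]; linarith
  have hE0 : 0 < E := by linarith
  have hc1' : 0 < c1 / 2 := by positivity
  refine ⟨E, hE1, min c3 (c1 / 2), lt_min hc3 hc1', ?_, ?_, ?_, ?_, ?_, ?_, ?_, ?_⟩
  · intro n hn
    have hn' : (0 : ℝ) < n := by exact_mod_cast hn
    constructor
    · refine le_trans ?_ (hK n hn)
      rw [div_le_iff₀ hE0]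
      have h2 : 1 ≤ c1 * E := by
        calc (1 : ℝ) = c1 * (1 / c1) := by field_simp
          _ ≤ c1 * E := by
              apply mul_le_mul_of_nonneg_left _ hc1.le
              rw [hE]
              linarith
      have h3 : 0 < (n : ℝ) ^ (-(3 / 4 : ℝ)) := by positivity
      nlinarith
    · refine (CutR.KS_upper RS_uu hC1 hb hn).trans ?_
      apply mul_le_mul_of_nonneg_right _ (by positivity)
      rw [hE]
      linarith
  · intro R hR
    have hR' : (0 : ℝ) < R := by exact_mod_cast hR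
    constructor
    · refine le_trans ?_ (hM R hR)
      rw [div_le_iff₀ hE0]
      have h2 : 1 ≤ c2 * E := by
        calc (1 : ℝ) = c2 * (1 / c2) := by field_simp
          _ ≤ c2 * E := by
              apply mul_le_mul_of_nonneg_left _ hc2.le
              rw [hE]
              linarith
      have h3 : 0 < (R : ℝ) ^ (1 / 4 : ℝ) := by positivity
      nlinarith
    · have h2 := CutR.mean_upper RS_uu hC1 hb hR
      rw [e1] at h2
      refine h2.trans ?_
      apply mul_le_mul_of_nonneg_right _ (by positivity)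
      rw [hE]
      linarith
  · intro j i hj hi
    have hj' : (0 : ℝ) < j := by exact_mod_cast hj
    have hi' : (0 : ℝ) < i := by exact_mod_cast hi
    obtain ⟨j1, j2⟩ := h1 j hj
    obtain ⟨i1', i2'⟩ := h1 i hi
    obtain ⟨s1, s2⟩ := h1 (j + i) (by omega)
    rw [← uu_eq hj] at j1 j2
    rw [← uu_eq hi] at i1' i2'
    rw [← uu_eq (show 1 ≤ j + i by omega)] at s1 s2
    push_cast at s1 s2
    have hji : (0 : ℝ) < (j : ℝ) + i := by positivity
    have e4 : ((j : ℝ) * i / (j + i)) ^ (-(1 / 4 : ℝ)) * ((j : ℝ) + i) ^ (-(1 / 4 : ℝ)) =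
        (j : ℝ) ^ (-(1 / 4 : ℝ)) * (i : ℝ) ^ (-(1 / 4 : ℝ)) := by
      rw [← Real.mul_rpow (by positivity) hji.le, div_mul_cancel₀ _ hji.ne', Real.mul_rpow hj'.le hi'.le]
    obtain ⟨P, hP⟩ : ∃ P : ℝ, P = ((j : ℝ) * i / (j + i)) ^ (-(1 / 4 : ℝ)) := ⟨_, rfl⟩
    have hP0 : 0 < P := by rw [hP]; positivity
    rw [← hP] at e4 ⊢
    have hEC : C ^ 3 ≤ E := by rw [hE]; linarith
    constructor
    · have h2 : (j : ℝ) ^ (-(1 / 4 : ℝ)) / C * ((i : ℝ) ^ (-(1 / 4 : ℝ)) / C) ≤ uu j * uu i :=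
        mul_le_mul j1 i1' (by positivity) (uu_pos j).le
      refine le_trans ?_ h2
      calc P / E * uu (j + i) ≤ P / C ^ 3 * (C * ((j : ℝ) + i) ^ (-(1 / 4 : ℝ))) := by
            apply mul_le_mul _ s2 (uu_pos _).le (by positivity)
            exact div_le_div_of_nonneg_left hP0.le (by positivity) hEC
        _ = (P * ((j : ℝ) + i) ^ (-(1 / 4 : ℝ))) / C ^ 2 := by
            field_simp
        _ = _ := by
            rw [e4]
            field_simp
    · have h2 : uu j * uu i ≤ (C * (j : ℝ) ^ (-(1 / 4 : ℝ))) * (C * (i : ℝ) ^ (-(1 / 4 : ℝ))) :=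
        mul_le_mul j2 i2' (uu_pos i).le (by positivity)
      refine h2.trans ?_
      rw [div_le_iff₀ hCp] at s1
      calc (C * (j : ℝ) ^ (-(1 / 4 : ℝ))) * (C * (i : ℝ) ^ (-(1 / 4 : ℝ))) =
          C ^ 2 * (P * ((j : ℝ) + i) ^ (-(1 / 4 : ℝ))) := by rw [e4]; ring
        _ ≤ C ^ 2 * (P * (uu (j + i) * C)) := by
            apply mul_le_mul_of_nonneg_left _ (by positivity)
            exact mul_le_mul_of_nonneg_left s1 hP0.le
        _ = C ^ 3 * (P * uu (j + i)) := by ring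
        _ ≤ E * (P * uu (j + i)) := by
            apply mul_le_mul_of_nonneg_right hEC
            have := (uu_pos (j + i)).le
            positivity
        _ = _ := by ring
  · intro T hT
    obtain ⟨n1, n2⟩ := hN T hT
    have hu := (uu_pos T).le
    have hDE : D1 ≤ E := by rw [hE]; linarith
    constructor
    · refine le_trans ?_ n1
      apply mul_le_mul_of_nonneg_right _ hu
      exact div_le_div_of_nonneg_left (by positivity) (by linarith) hDE
    · refine n2.trans ?_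
      apply mul_le_mul_of_nonneg_right _ hu
      exact mul_le_mul_of_nonneg_right hDE (by positivity)
  · intro m T hT
    refine (hU m T hT).trans ?_
    apply mul_le_mul_of_nonneg_right _ (uu_pos T).le
    apply mul_le_mul_of_nonneg_right _ (by positivity)
    rw [hE]
    linarith
  · intro m T hT
    refine (hL m T hT).trans ?_
    apply mul_le_mul_of_nonneg_right _ (uu_pos T).le
    apply mul_le_mul_of_nonneg_left _ (by norm_num)
    apply Real.exp_le_exp.2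
    rw [neg_le_neg_iff, Real.rpow_natCast]
    apply pow_le_pow_left₀ (by have := lt_min hc3 hc1'; positivity)
    exact mul_le_mul_of_nonneg_right (min_le_left _ _) (by positivity)
  · intro m x hx
    have hx' : (0 : ℝ) < x := by exact_mod_cast hx
    have h2 := CutR.dw_lower RS_uu hx m
    have h3 := CutR.US_lower RS_uu hC1 hb hx
    refine le_trans ?_ h2
    have h4 : 4 * (m : ℝ) / CutR.US uu x ≤ 4 * m / ((x : ℝ) ^ (3 / 4 : ℝ) / C) :=
      div_le_div_of_nonneg_left (by positivity) (by positivity) h3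
    have h5 : 4 * (m : ℝ) / ((x : ℝ) ^ (3 / 4 : ℝ) / C) = 4 * C * (m / (x : ℝ) ^ (3 / 4 : ℝ)) := by
      field_simp
    have h6 : 4 * C * (m / (x : ℝ) ^ (3 / 4 : ℝ)) ≤ E * (m / (x : ℝ) ^ (3 / 4 : ℝ)) := by
      apply mul_le_mul_of_nonneg_right _ (by positivity)
      rw [hE]
      linarith
    linarith
  · intro m x hx
    have hx' : (0 : ℝ) < x := by exact_mod_cast hx
    have h2 := CutR.dw_upper RS_uu x m
    refine h2.trans ?_
    have h3 := hK (x + 1) (by omega)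
    have h4 : 0 ≤ 1 - CutR.KS kk (x + 1) := by linarith [RS_uu.KS_le_one (x + 1)]
    have h5 : 1 - CutR.KS kk (x + 1) ≤ Real.exp (-CutR.KS kk (x + 1)) := by
      have := Real.add_one_le_exp (-CutR.KS kk (x + 1))
      linarith
    have h6 := pow_le_pow_left₀ h4 h5 m
    rw [← Real.exp_nat_mul] at h6
    refine h6.trans ?_
    apply Real.exp_le_exp.2
    have h7 : (x : ℝ) ^ (-(3 / 4 : ℝ)) / 2 ≤ ((x + 1 : ℕ) : ℝ) ^ (-(3 / 4 : ℝ)) := by
      have h8 : ((x + 1 : ℕ) : ℝ) ≤ 2 * x := by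
        have : (1 : ℝ) ≤ x := by exact_mod_cast hx
        push_cast
        linarith
      have h9 : (2 * (x : ℝ)) ^ (-(3 / 4 : ℝ)) ≤ ((x + 1 : ℕ) : ℝ) ^ (-(3 / 4 : ℝ)) :=
        Real.rpow_le_rpow_of_nonpos (by positivity) h8 (by norm_num)
      refine le_trans ?_ h9
      rw [Real.mul_rpow (by norm_num) hx'.le, div_eq_mul_inv, mul_comm]
      apply mul_le_mul_of_nonneg_right _ (by positivity)
      rw [← Real.rpow_neg_one 2]
      exact Real.rpow_le_rpow_of_exponent_le (by norm_num) (by norm_num)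
    have h10 : min c3 (c1 / 2) * (x : ℝ) ^ (-(3 / 4 : ℝ)) ≤ CutR.KS kk (x + 1) := by
      calc min c3 (c1 / 2) * (x : ℝ) ^ (-(3 / 4 : ℝ)) ≤ c1 / 2 * (x : ℝ) ^ (-(3 / 4 : ℝ)) :=
            mul_le_mul_of_nonneg_right (min_le_right _ _) (by positivity)
        _ = c1 * ((x : ℝ) ^ (-(3 / 4 : ℝ)) / 2) := by ring
        _ ≤ c1 * ((x + 1 : ℕ) : ℝ) ^ (-(3 / 4 : ℝ)) := mul_le_mul_of_nonneg_left h7 hc1.le
        _ ≤ _ := h3
    have h11 : min c3 (c1 / 2) * (m / (x : ℝ) ^ (3 / 4 : ℝ)) = m * (min c3 (c1 / 2) * (x : ℝ) ^ (-(3 / 4 : ℝ))) := by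
      rw [Real.rpow_neg hx'.le]
      ring
    rw [h11]
    have h12 := mul_le_mul_of_nonneg_left h10 (Nat.cast_nonneg (α := ℝ) m)
    linarith

end HexObs
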