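import Pool.Agent.EXP.IntW

open Real MeasureTheory Set

namespace P2W

/-- Laplace transform of the second weight -/
noncomputable def Et (z : ℝ) : ℝ := (2 * √2 / 3) / cos (4 * z / 3)

noncomputable def NN (x y : ℝ) : ℝ := E (x + y) - E (x - y)

noncomputable def Nt (x y : ℝ) : ℝ := Et (x + y) - Et (x - y)

/-- an even weight with Laplace transform e on |z| < 3 pi/8 -/
structure IsW (w : ℝ → ℝ) (e : ℝ → ℝ) : Prop where
  cont : Continuous w
  pos : ∀ k, 0 < w k
  even : ∀ k, w (-k) = w k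
  int : ∀ z, |z| < 3 * π / 8 → ∫ k : ℝ, exp (2 * k * z) * w k = e z
  integrable : ∀ z, |z| < 3 * π / 8 → Integrable (fun k : ℝ => exp (2 * k * z) * w k)

lemma isW_w : IsW w E := ⟨w_continuous, w_pos, w_even, fun _ h => w_int h, fun _ h => w_integrable h⟩

lemma wt_continuous : Continuous wt := by
  unfold wt
  apply Continuous.div continuous_const (continuous_cosh.comp (by fun_prop))
  intro k
  exact (cosh_pos _).ne'

lemma isW_wt : IsW wt Et :=
  ⟨wt_continuous, wt_pos, wt_even, fun _ h => wt_int h, fun _ h => wt_integrable h⟩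

section
variable {w e : ℝ → ℝ} (h : IsW w e)
include h

lemma IsW.sinh_integrable {x y : ℝ} (hxy : |x| + |y| < 3 * π / 8) :
    Integrable (fun k : ℝ => sinh (2 * k * x) * sinh (2 * k * y) * w k) := by
  have b : ∀ u v : ℝ, |u| = |x| → |v| = |y| → |u + v| < 3 * π / 8 := fun u v hu hv =>
    lt_of_le_of_lt (abs_add_le u v) (by rw [hu, hv]; exact hxy)
  have e1 := h.integrable (x + y) (b x y rfl rfl)
  have e2 := h.integrable (x + -y) (b x (-y) rfl (abs_neg y))
  have e3 := h.integrable (-x + y) (b (-x) y (abs_neg x) rfl)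
  have e4 := h.integrable (-x + -y) (b (-x) (-y) (abs_neg x) (abs_neg y))
  refine ((((e1.sub e2).sub e3).add e4).const_mul (1 / 4)).congr
    (Filter.Eventually.of_forall fun k => ?_)
  simp only [Pi.add_apply, Pi.sub_apply]
  rw [sinh_eq, sinh_eq]
  have f1 : exp (2 * k * (x + y)) = exp (2 * k * x) * exp (2 * k * y) := by
    rw [← exp_add]; ring_nf
  have f2 : exp (2 * k * (x + -y)) = exp (2 * k * x) * exp (-(2 * k * y)) := by
    rw [← exp_add]; ring_nf
  have f3 : exp (2 * k * (-x + y)) = exp (-(2 * k * x)) * exp (2 * k * y) := by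
    rw [← exp_add]; ring_nf
  have f4 : exp (2 * k * (-x + -y)) = exp (-(2 * k * x)) * exp (-(2 * k * y)) := by
    rw [← exp_add]; ring_nf
  rw [f1, f2, f3, f4]
  ring

lemma IsW.sinh_int {x y : ℝ} (hxy : |x| + |y| < 3 * π / 8) :
    ∫ k : ℝ, sinh (2 * k * x) * sinh (2 * k * y) * (2 * w k) = e (x + y) - e (x - y) := by
  have b : ∀ u v : ℝ, |u| = |x| → |v| = |y| → |u + v| < 3 * π / 8 := fun u v hu hv =>
    lt_of_le_of_lt (abs_add_le u v) (by rw [hu, hv]; exact hxy)
  have ev : ∀ z, |z| < 3 * π / 8 → e (-z) = e z := by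
    intro z hz
    rw [← h.int z hz, ← h.int (-z) (by rwa [abs_neg]), ← integral_neg_eq_self]
    congr 1
    ext k
    rw [h.even]
    congr 2
    ring
  have e1 := h.integrable (x + y) (b x y rfl rfl)
  have e2 := h.integrable (x + -y) (b x (-y) rfl (abs_neg y))
  have e3 := h.integrable (-x + y) (b (-x) y (abs_neg x) rfl)
  have e4 := h.integrable (-x + -y) (b (-x) (-y) (abs_neg x) (abs_neg y))
  have g : (fun k : ℝ => sinh (2 * k * x) * sinh (2 * k * y) * (2 * w k)) = fun k : ℝ =>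
      (1 / 2) * (exp (2 * k * (x + y)) * w k - exp (2 * k * (x + -y)) * w k
        - exp (2 * k * (-x + y)) * w k + exp (2 * k * (-x + -y)) * w k) := by
    ext k
    rw [sinh_eq, sinh_eq]
    have f1 : exp (2 * k * (x + y)) = exp (2 * k * x) * exp (2 * k * y) := by
      rw [← exp_add]; ring_nf
    have f2 : exp (2 * k * (x + -y)) = exp (2 * k * x) * exp (-(2 * k * y)) := by
      rw [← exp_add]; ring_nf
    have f3 : exp (2 * k * (-x + y)) = exp (-(2 * k * x)) * exp (2 * k * y) := by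
      rw [← exp_add]; ring_nf
    have f4 : exp (2 * k * (-x + -y)) = exp (-(2 * k * x)) * exp (-(2 * k * y)) := by
      rw [← exp_add]; ring_nf
    rw [f1, f2, f3, f4]
    ring
  rw [g, integral_const_mul, integral_add (f := fun k => exp (2 * k * (x + y)) * w k
    - exp (2 * k * (x + -y)) * w k - exp (2 * k * (-x + y)) * w k) ((e1.sub e2).sub e3) e4,
    integral_sub (f := fun k => exp (2 * k * (x + y)) * w k
    - exp (2 * k * (x + -y)) * w k) (e1.sub e2) e3, integral_sub e1 e2,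
    h.int _ (b x y rfl rfl), h.int _ (b x (-y) rfl (abs_neg y)),
    h.int _ (b (-x) y (abs_neg x) rfl), h.int _ (b (-x) (-y) (abs_neg x) (abs_neg y))]
  have g1 : e (-x + y) = e (x - y) := by
    rw [show -x + y = -(x - y) by ring]
    exact ev _ (by have := b x (-y) rfl (abs_neg y); rwa [← sub_eq_add_neg] at this)
  have g2 : e (-x + -y) = e (x + y) := by
    rw [show -x + -y = -(x + y) by ring]
    exact ev _ (b x y rfl rfl)
  rw [g1, g2, ← sub_eq_add_neg]
  ring

lemma IsW.form {ι : Type*} (s : Finset ι) (a x : ι → ℝ) (hx : ∀ i ∈ s, |x i| < 3 * π / 16) :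
    ∑ i ∈ s, ∑ j ∈ s, a i * a j * (e (x i + x j) - e (x i - x j)) =
      ∫ k : ℝ, (∑ i ∈ s, a i * sinh (2 * k * x i)) ^ 2 * (2 * w k) := by
  have g : (fun k : ℝ => (∑ i ∈ s, a i * sinh (2 * k * x i)) ^ 2 * (2 * w k)) = fun k : ℝ =>
      ∑ i ∈ s, ∑ j ∈ s, a i * a j * (sinh (2 * k * x i) * sinh (2 * k * x j) * (2 * w k)) := by
    ext k
    rw [sq, Finset.sum_mul_sum, Finset.sum_mul]
    refine Finset.sum_congr rfl fun i _ => ?_
    rw [Finset.sum_mul]
    refine Finset.sum_congr rfl fun j _ => ?_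
    ring
  have hI : ∀ i ∈ s, ∀ j ∈ s, Integrable
      (fun k : ℝ => a i * a j * (sinh (2 * k * x i) * sinh (2 * k * x j) * (2 * w k))) := by
    intro i hi j hj
    have := (h.sinh_integrable (x := x i) (y := x j) (by linarith [hx i hi, hx j hj])).const_mul
      (a i * a j * 2)
    refine this.congr (Filter.Eventually.of_forall fun k => ?_)
    simp only
    ring
  rw [g, integral_finsetSum _ (fun i hi => integrable_finsetSum _ (fun j hj => hI i hi j hj))]
  refine Finset.sum_congr rfl fun i hi => ?_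
  rw [integral_finsetSum _ (fun j hj => hI i hi j hj)]
  refine Finset.sum_congr rfl fun j hj => ?_
  rw [integral_const_mul, h.sinh_int (by linarith [hx i hi, hx j hj])]

lemma IsW.sq_integrable {ι : Type*} (s : Finset ι) (a x : ι → ℝ)
    (hx : ∀ i ∈ s, |x i| < 3 * π / 16) :
    Integrable (fun k : ℝ => (∑ i ∈ s, a i * sinh (2 * k * x i)) ^ 2 * (2 * w k)) := by
  have g : (fun k : ℝ => (∑ i ∈ s, a i * sinh (2 * k * x i)) ^ 2 * (2 * w k)) = fun k : ℝ =>
      ∑ i ∈ s, ∑ j ∈ s, a i * a j * (sinh (2 * k * x i) * sinh (2 * k * x j) * (2 * w k)) := by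
    ext k
    rw [sq, Finset.sum_mul_sum, Finset.sum_mul]
    refine Finset.sum_congr rfl fun i _ => ?_
    rw [Finset.sum_mul]
    refine Finset.sum_congr rfl fun j _ => ?_
    ring
  rw [g]
  refine integrable_finsetSum _ (fun i hi => integrable_finsetSum _ (fun j hj => ?_))
  have := (h.sinh_integrable (x := x i) (y := x j) (by linarith [hx i hi, hx j hj])).const_mul
      (a i * a j * 2)
  refine this.congr (Filter.Eventually.of_forall fun k => ?_)
  simp only
  ring

end

theorem NN_form {ι : Type*} (s : Finset ι) (a x : ι → ℝ) (hx : ∀ i ∈ s, |x i| < 3 * π / 16) :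
    ∑ i ∈ s, ∑ j ∈ s, a i * a j * NN (x i) (x j) =
      ∫ k : ℝ, (∑ i ∈ s, a i * sinh (2 * k * x i)) ^ 2 * (2 * w k) :=
  isW_w.form s a x hx

theorem Nt_form {ι : Type*} (s : Finset ι) (a x : ι → ℝ) (hx : ∀ i ∈ s, |x i| < 3 * π / 16) :
    ∑ i ∈ s, ∑ j ∈ s, a i * a j * Nt (x i) (x j) =
      ∫ k : ℝ, (∑ i ∈ s, a i * sinh (2 * k * x i)) ^ 2 * (2 * wt k) :=
  isW_wt.form s a x hx

theorem NN_nonneg {ι : Type*} (s : Finset ι) (a x : ι → ℝ) (hx : ∀ i ∈ s, |x i| < 3 * π / 16) :
    0 ≤ ∑ i ∈ s, ∑ j ∈ s, a i * a j * NN (x i) (x j) := by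
  rw [NN_form s a x hx]
  exact integral_nonneg fun k => mul_nonneg (sq_nonneg _) (mul_nonneg zero_le_two (w_pos k).le)

theorem NN_le_Nt {ι : Type*} (s : Finset ι) (a x : ι → ℝ) (hx : ∀ i ∈ s, |x i| < 3 * π / 16) :
    ∑ i ∈ s, ∑ j ∈ s, a i * a j * NN (x i) (x j) ≤ ∑ i ∈ s, ∑ j ∈ s, a i * a j * Nt (x i) (x j) := by
  rw [NN_form s a x hx, Nt_form s a x hx]
  refine integral_mono (isW_w.sq_integrable s a x hx) (isW_wt.sq_integrable s a x hx) fun k => ?_
  exact mul_le_mul_of_nonneg_left (by linarith [w_le_wt k]) (sq_nonneg _)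

theorem Nt_le {ι : Type*} (s : Finset ι) (a x : ι → ℝ) (hx : ∀ i ∈ s, |x i| < 3 * π / 16) :
    ∑ i ∈ s, ∑ j ∈ s, a i * a j * Nt (x i) (x j) ≤
      2 * ∑ i ∈ s, ∑ j ∈ s, a i * a j * NN (x i) (x j) := by
  rw [NN_form s a x hx, Nt_form s a x hx, ← integral_const_mul]
  refine integral_mono (isW_wt.sq_integrable s a x hx)
    ((isW_w.sq_integrable s a x hx).const_mul 2) fun k => ?_
  have := wt_le k
  have := sq_nonneg (∑ i ∈ s, a i * sinh (2 * k * x i))
  simp only
  nlinarith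


/-- the feature function of the kernel N -/
noncomputable def fN (x : ℝ) (k : ℝ) : ℝ := sinh (2 * k * x) * √(2 * w k)

lemma fN_memLp {x : ℝ} (hx : |x| < 3 * π / 16) : MemLp (fN x) 2 (volume : Measure ℝ) := by
  have hc : Continuous (fN x) := by
    unfold fN
    exact (continuous_sinh.comp (by fun_prop)).mul
      ((continuous_const.mul w_continuous).sqrt)
  rw [memLp_two_iff_integrable_sq hc.aestronglyMeasurable]
  refine (isW_w.sinh_integrable (x := x) (y := x) (by linarith)).const_mul 2 |>.congr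
    (Filter.Eventually.of_forall fun k => ?_)
  simp only
  unfold fN
  rw [mul_pow, sq_sqrt (by linarith [w_pos k])]
  ring

/-- the feature vector of the kernel N in L2 -/
noncomputable def vN (x : ℝ) : Lp ℝ 2 (volume : Measure ℝ) :=
  open Classical in if hx : |x| < 3 * π / 16 then (fN_memLp hx).toLp (fN x) else 0

theorem inner_vN {x y : ℝ} (hx : |x| < 3 * π / 16) (hy : |y| < 3 * π / 16) :
    inner ℝ (vN x) (vN y) = NN x y := by
  unfold vN NN
  rw [dif_pos hx, dif_pos hy, L2.inner_def, ← isW_w.sinh_int (x := x) (y := y) (by linarith)]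
  refine integral_congr_ae ?_
  filter_upwards [(fN_memLp hx).coeFn_toLp, (fN_memLp hy).coeFn_toLp] with k h1 h2
  rw [h1, h2]
  unfold fN
  have : √(2 * w k) * √(2 * w k) = 2 * w k := mul_self_sqrt (by linarith [w_pos k])
  simp only [RCLike.inner_apply, conj_trivial]
  linear_combination (sinh (2 * k * x) * sinh (2 * k * y)) * this

/-- norm form: everything the Hilbert space argument needs -/
theorem norm_vN {ι : Type*} (s : Finset ι) (a x : ι → ℝ) (hx : ∀ i ∈ s, |x i| < 3 * π / 16) :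
    ‖∑ i ∈ s, a i • vN (x i)‖ ^ 2 ≤ ∑ i ∈ s, ∑ j ∈ s, a i * a j * Nt (x i) (x j) ∧
    (1 / 2) * ∑ i ∈ s, ∑ j ∈ s, a i * a j * Nt (x i) (x j) ≤ ‖∑ i ∈ s, a i • vN (x i)‖ ^ 2 := by
  have h : ‖∑ i ∈ s, a i • vN (x i)‖ ^ 2 = ∑ i ∈ s, ∑ j ∈ s, a i * a j * NN (x i) (x j) := by
    rw [← real_inner_self_eq_norm_sq, sum_inner]
    refine Finset.sum_congr rfl fun i hi => ?_
    rw [inner_sum]
    refine Finset.sum_congr rfl fun j hj => ?_
    rw [real_inner_smul_left, real_inner_smul_right, inner_vN (hx i hi) (hx j hj)]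
    ring
  have h1 := NN_le_Nt s a x hx
  have h2 := Nt_le s a x hx
  rw [h]
  exact ⟨h1, by linarith⟩

end P2W
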