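import Mathlib

open Real MeasureTheory Set

namespace P2W

/-- logistic function -/
noncomputable def lgs (y : ℝ) : ℝ := exp y / (1 + exp y)

lemma lgs_pos (y : ℝ) : 0 < lgs y := by unfold lgs; positivity

lemma one_sub_lgs (y : ℝ) : 1 - lgs y = 1 / (1 + exp y) := by
  unfold lgs
  have : (0 : ℝ) < 1 + exp y := by positivity
  field_simp
  ring

lemma lgs_lt_one (y : ℝ) : lgs y < 1 := by
  have h : 0 < 1 - lgs y := by rw [one_sub_lgs]; positivity
  linarith

lemma hasDerivAt_lgs (y : ℝ) : HasDerivAt lgs (lgs y * (1 - lgs y)) y := by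
  have h1 : HasDerivAt lgs
      ((exp y * (1 + exp y) - exp y * (exp y)) / (1 + exp y) ^ 2) y :=
    (Real.hasDerivAt_exp y).fun_div ((Real.hasDerivAt_exp y).const_add 1) (by positivity)
  have h2 : lgs y * (1 - lgs y) = (exp y * (1 + exp y) - exp y * (exp y)) / (1 + exp y) ^ 2 := by
    rw [one_sub_lgs]; unfold lgs
    have : (0 : ℝ) < 1 + exp y := by positivity
    field_simp
    ring
  rw [h2]
  exact h1

lemma lgs_strictMono : StrictMono lgs := by
  apply strictMono_of_deriv_pos
  intro y
  rw [(hasDerivAt_lgs y).deriv]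
  have := lgs_pos y
  have := lgs_lt_one y
  nlinarith

lemma lgs_image : lgs '' univ = Ioo 0 1 := by
  ext x
  constructor
  · rintro ⟨y, -, rfl⟩
    exact ⟨lgs_pos y, lgs_lt_one y⟩
  · rintro ⟨h0, h1⟩
    refine ⟨log (x / (1 - x)), trivial, ?_⟩
    unfold lgs
    have h2 : 0 < 1 - x := by linarith
    rw [exp_log (by positivity)]
    field_simp
    ring

/-- real Beta integral with parameters s, 1 - s -/
lemma beta_real {s : ℝ} (h0 : 0 < s) (h1 : s < 1) :
    ∫ x in Ioo (0:ℝ) 1, x ^ (s - 1) * (1 - x) ^ (-s) = π / sin (π * s) := by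
  have hb : ProbabilityTheory.beta s (1 - s) = π / sin (π * s) := by
    unfold ProbabilityTheory.beta
    rw [Real.Gamma_mul_Gamma_one_sub]
    simp
  rw [← hb, ProbabilityTheory.beta_eq_betaIntegralReal s (1 - s) h0 (by linarith),
      Complex.betaIntegral, intervalIntegral.integral_of_le (by norm_num),
      ← integral_Ioc_eq_integral_Ioo, ← RCLike.re_to_complex, ← integral_re]
  · refine setIntegral_congr_fun measurableSet_Ioc fun x ⟨hx1, hx₂⟩ ↦ ?_
    norm_cast
    rw [← Complex.ofReal_cpow, ← Complex.ofReal_cpow, RCLike.re_to_complex,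
        Complex.re_mul_ofReal, Complex.ofReal_re]
    · congr 2
      ring
    all_goals linarith
  · convert! Complex.betaIntegral_convergent (u := s) (v := ((1 - s : ℝ) : ℂ)) (by simpa) (by simpa)
    rw [intervalIntegrable_iff_integrableOn_Ioc_of_le (by simp), IntegrableOn]

lemma integrand_lgs (s y : ℝ) :
    |lgs y * (1 - lgs y)| • (lgs y ^ (s - 1) * (1 - lgs y) ^ (-s)) = exp (s * y) / (1 + exp y) := by
  have hp := lgs_pos y
  have hq : 0 < 1 - lgs y := by have := lgs_lt_one y; linarith
  have hE : (0 : ℝ) < 1 + exp y := by positivity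
  rw [abs_of_pos (by positivity), smul_eq_mul]
  have e1 : lgs y * lgs y ^ (s - 1) = lgs y ^ s := by
    rw [rpow_sub_one hp.ne']; field_simp
  have e3 : lgs y ^ s * (1 - lgs y) ^ (-s) = exp (s * y) := by
    rw [rpow_neg hq.le, ← div_eq_mul_inv, ← div_rpow hp.le hq.le, one_sub_lgs]
    unfold lgs
    have : exp y / (1 + exp y) / (1 / (1 + exp y)) = exp y := by field_simp
    rw [this, ← exp_mul]
    ring_nf
  calc lgs y * (1 - lgs y) * (lgs y ^ (s - 1) * (1 - lgs y) ^ (-s))
      = (lgs y * lgs y ^ (s - 1)) * (1 - lgs y) ^ (-s) * (1 - lgs y) := by ring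
    _ = exp (s * y) * (1 - lgs y) := by rw [e1, e3]
    _ = exp (s * y) / (1 + exp y) := by rw [one_sub_lgs]; ring

/-- the base integral -/
lemma base_int {s : ℝ} (h0 : 0 < s) (h1 : s < 1) :
    ∫ y : ℝ, exp (s * y) / (1 + exp y) = π / sin (π * s) := by
  rw [← beta_real h0 h1, ← lgs_image,
    integral_image_eq_integral_abs_deriv_smul MeasurableSet.univ
      (fun y _ => (hasDerivAt_lgs y).hasDerivWithinAt) lgs_strictMono.injective.injOn]
  rw [setIntegral_univ]
  congr 1
  ext y
  rw [integrand_lgs]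

lemma base_integrable {s : ℝ} (h0 : 0 < s) (h1 : s < 1) :
    Integrable (fun y : ℝ => exp (s * y) / (1 + exp y)) := by
  by_contra h
  have := base_int h0 h1
  rw [integral_undef h] at this
  have hs : 0 < sin (π * s) := sin_pos_of_pos_of_lt_pi (by positivity) (by nlinarith [pi_pos])
  have : 0 < π / sin (π * s) := by positivity
  linarith


lemma base_scaled {a s : ℝ} (ha : 0 < a) (h0 : 0 < s) (h1 : s < a) :
    ∫ k : ℝ, exp (s * k) / (1 + exp (a * k)) = π / (a * sin (π * s / a)) := by
  have h := Measure.integral_comp_mul_left (fun y : ℝ => exp ((s / a) * y) / (1 + exp y)) a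
  have e : (fun k : ℝ => exp (s * k) / (1 + exp (a * k))) =
      fun x : ℝ => (fun y : ℝ => exp ((s / a) * y) / (1 + exp y)) (a * x) := by
    ext k
    have : s / a * (a * k) = s * k := by field_simp
    simp only [this]
  rw [e, h, base_int (by positivity) ((div_lt_one ha).2 h1), abs_of_pos (by positivity), smul_eq_mul]
  have : π * (s / a) = π * s / a := by ring
  rw [this]
  have hs : 0 < sin (π * s / a) := by
    apply sin_pos_of_pos_of_lt_pi (by positivity)
    rw [div_lt_iff₀ ha]
    nlinarith [pi_pos]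
  field_simp

lemma base_scaled_integrable {a s : ℝ} (ha : 0 < a) (h0 : 0 < s) (h1 : s < a) :
    Integrable (fun k : ℝ => exp (s * k) / (1 + exp (a * k))) := by
  have h := (base_integrable (s := s / a) (by positivity) ((div_lt_one ha).2 h1)).comp_mul_left' ha.ne'
  refine h.congr (Filter.Eventually.of_forall fun k => ?_)
  have : s / a * (a * k) = s * k := by field_simp
  simp only [this]

lemma exp_div_cosh (a z k : ℝ) :
    exp (2 * k * z) / cosh (a * k) = 2 * (exp ((2 * z + a) * k) / (1 + exp (2 * a * k))) := by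
  rw [cosh_eq]
  have e1 : exp ((2 * z + a) * k) = exp (2 * k * z) * exp (a * k) := by rw [← exp_add]; ring_nf
  have e2 : exp (2 * a * k) = exp (a * k) * exp (a * k) := by rw [← exp_add]; ring_nf
  have e3 : exp (-(a * k)) = (exp (a * k))⁻¹ := exp_neg _
  rw [e1, e2, e3]
  have := exp_pos (a * k)
  field_simp
  ring

lemma cosh_int {a z : ℝ} (ha : 0 < a) (hz : |2 * z| < a) :
    ∫ k : ℝ, exp (2 * k * z) / cosh (a * k) = (π / a) / cos (π * z / a) := by
  simp_rw [exp_div_cosh a z]
  rw [integral_const_mul, base_scaled (by positivity) (by linarith [(abs_lt.1 hz).1])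
    (by linarith [(abs_lt.1 hz).2])]
  have e : π * (2 * z + a) / (2 * a) = π * z / a + π / 2 := by field_simp
  rw [e, sin_add_pi_div_two]
  field_simp

lemma cosh_integrable {a z : ℝ} (ha : 0 < a) (hz : |2 * z| < a) :
    Integrable (fun k : ℝ => exp (2 * k * z) / cosh (a * k)) := by
  simp_rw [exp_div_cosh a z]
  exact (base_scaled_integrable (by positivity) (by linarith [(abs_lt.1 hz).1])
    (by linarith [(abs_lt.1 hz).2])).const_mul 2

/-- the two weights -/
noncomputable def wt (k : ℝ) : ℝ := (√2 / 2) / cosh (3 * π * k / 4)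
noncomputable def w (k : ℝ) : ℝ := (√2 / 2) / (cosh (3 * π * k / 4) + cosh (π * k / 4))

lemma wt_pos (k : ℝ) : 0 < wt k := by
  unfold wt; have := cosh_pos (3 * π * k / 4); positivity

lemma w_pos (k : ℝ) : 0 < w k := by
  unfold w
  have := cosh_pos (3 * π * k / 4)
  have := cosh_pos (π * k / 4)
  positivity

lemma w_le_wt (k : ℝ) : w k ≤ wt k := by
  unfold w wt
  have := cosh_pos (3 * π * k / 4)
  have := cosh_pos (π * k / 4)
  gcongr
  linarith

lemma wt_le (k : ℝ) : wt k ≤ 2 * w k := by
  unfold w wt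
  have h1 := cosh_pos (3 * π * k / 4)
  have h2 := cosh_pos (π * k / 4)
  have h3 : cosh (π * k / 4) ≤ cosh (3 * π * k / 4) := by
    rw [cosh_le_cosh]
    have : |3 * π * k / 4| = 3 * |π * k / 4| := by
      rw [show 3 * π * k / 4 = 3 * (π * k / 4) by ring, abs_mul]; norm_num
    rw [this]
    linarith [abs_nonneg (π * k / 4)]
  rw [← mul_div_assoc, div_le_div_iff₀ h1 (by positivity)]
  have : 0 < √2 := by positivity
  nlinarith

lemma wt_int {z : ℝ} (hz : |z| < 3 * π / 8) :
    ∫ k : ℝ, exp (2 * k * z) * wt k = (2 * √2 / 3) / cos (4 * z / 3) := by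
  have e : (fun k : ℝ => exp (2 * k * z) * wt k) =
      fun k : ℝ => (√2 / 2) * (exp (2 * k * z) / cosh (3 * π / 4 * k)) := by
    ext k
    unfold wt
    have : 3 * π * k / 4 = 3 * π / 4 * k := by ring
    rw [this]
    ring
  rw [e, integral_const_mul, cosh_int (by positivity)
    (by rw [abs_mul]; norm_num; linarith)]
  have : π * z / (3 * π / 4) = 4 * z / 3 := by field_simp
  rw [this]
  field_simp
  norm_num

lemma wt_integrable {z : ℝ} (hz : |z| < 3 * π / 8) :
    Integrable (fun k : ℝ => exp (2 * k * z) * wt k) := by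
  have e : (fun k : ℝ => exp (2 * k * z) * wt k) =
      fun k : ℝ => (√2 / 2) * (exp (2 * k * z) / cosh (3 * π / 4 * k)) := by
    ext k
    unfold wt
    have : 3 * π * k / 4 = 3 * π / 4 * k := by ring
    rw [this]
    ring
  rw [e]
  exact (cosh_integrable (by positivity) (by rw [abs_mul]; norm_num; linarith)).const_mul _

lemma w_continuous : Continuous w := by
  unfold w
  apply Continuous.div continuous_const
  · exact (continuous_cosh.comp (by fun_prop)).add (continuous_cosh.comp (by fun_prop))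
  · intro k
    have := cosh_pos (3 * π * k / 4)
    have := cosh_pos (π * k / 4)
    positivity

lemma w_integrable {z : ℝ} (hz : |z| < 3 * π / 8) :
    Integrable (fun k : ℝ => exp (2 * k * z) * w k) := by
  refine (wt_integrable hz).mono' (Continuous.aestronglyMeasurable ?_)
    (Filter.Eventually.of_forall fun k => ?_)
  · exact (continuous_exp.comp (by fun_prop)).mul w_continuous
  · rw [norm_of_nonneg (mul_nonneg (exp_pos _).le (w_pos k).le)]
    exact mul_le_mul_of_nonneg_left (w_le_wt k) (exp_pos _).le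

/-- the function E -/
noncomputable def E (z : ℝ) : ℝ := 1 / (cos (2 * z) + cos (π / 4))


lemma w_split (k : ℝ) : w k = (√2 / 2) * (exp (π / 4 * k) / (1 + exp (π * k))
    + exp (3 * π / 4 * k) / (1 + exp (π * k)) - exp (π / 4 * k) / (1 + exp (π / 2 * k))) := by
  unfold w
  rw [cosh_eq, cosh_eq]
  have hq := exp_pos (π / 4 * k)
  set q := exp (π / 4 * k) with hqd
  have e1 : exp (3 * π * k / 4) = q ^ 3 := by rw [hqd, ← exp_nat_mul]; congr 1; push_cast; ring
  have e2 : exp (-(3 * π * k / 4)) = (q ^ 3)⁻¹ := by rw [exp_neg, e1]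
  have e3 : exp (π * k / 4) = q := by rw [hqd]; congr 1; ring
  have e4 : exp (-(π * k / 4)) = q⁻¹ := by rw [exp_neg, e3]
  have e5 : exp (π * k) = q ^ 4 := by rw [hqd, ← exp_nat_mul]; congr 1; push_cast; ring
  have e6 : exp (3 * π / 4 * k) = q ^ 3 := by rw [hqd, ← exp_nat_mul]; congr 1; push_cast; ring
  have e7 : exp (π / 2 * k) = q ^ 2 := by rw [hqd, ← exp_nat_mul]; congr 1; push_cast; ring
  rw [e1, e2, e3, e4, e5, e6, e7]
  field_simp
  ring

lemma w_int_small {z : ℝ} (hz : |z| < π / 8) :
    ∫ k : ℝ, exp (2 * k * z) * w k = E z := by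
  have hz1 := (abs_lt.1 hz).1
  have hz2 := (abs_lt.1 hz).2
  have hpi := pi_pos
  have e : (fun k : ℝ => exp (2 * k * z) * w k) =
      fun k : ℝ => (√2 / 2) * (exp ((2 * z + π / 4) * k) / (1 + exp (π * k))
    + exp ((2 * z + 3 * π / 4) * k) / (1 + exp (π * k))
    - exp ((2 * z + π / 4) * k) / (1 + exp (π / 2 * k))) := by
    ext k
    rw [w_split]
    have e1 : exp ((2 * z + π / 4) * k) = exp (2 * k * z) * exp (π / 4 * k) := by
      rw [← exp_add]; ring_nf
    have e2 : exp ((2 * z + 3 * π / 4) * k) = exp (2 * k * z) * exp (3 * π / 4 * k) := by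
      rw [← exp_add]; ring_nf
    rw [e1, e2]
    ring
  have i1 := base_scaled_integrable (a := π) (s := 2 * z + π / 4) (by positivity) (by linarith) (by linarith)
  have i2 := base_scaled_integrable (a := π) (s := 2 * z + 3 * π / 4) (by positivity) (by linarith) (by linarith)
  have i3 := base_scaled_integrable (a := π / 2) (s := 2 * z + π / 4) (by positivity) (by linarith) (by linarith)
  rw [e, integral_const_mul, integral_sub (f := fun k => exp ((2 * z + π / 4) * k) / (1 + exp (π * k)) + exp ((2 * z + 3 * π / 4) * k) / (1 + exp (π * k))) (i1.add i2) i3, integral_add i1 i2,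
    base_scaled (by positivity) (by linarith) (by linarith),
    base_scaled (by positivity) (by linarith) (by linarith),
    base_scaled (by positivity) (by linarith) (by linarith)]
  have a1 : π * (2 * z + π / 4) / π = π / 2 - (π / 4 - 2 * z) := by field_simp; ring
  have a2 : π * (2 * z + 3 * π / 4) / π = (π / 4 + 2 * z) + π / 2 := by field_simp; ring
  have a3 : π * (2 * z + π / 4) / (π / 2) = 4 * z + π / 2 := by field_simp; ring
  rw [a1, a2, a3, sin_pi_div_two_sub, sin_add_pi_div_two, sin_add_pi_div_two]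
  unfold E
  have hs2 : √2 * √2 = 2 := mul_self_sqrt (by norm_num)
  have c1 : 0 < cos (π / 4 - 2 * z) := cos_pos_of_mem_Ioo ⟨by linarith, by linarith⟩
  have c2 : 0 < cos (π / 4 + 2 * z) := cos_pos_of_mem_Ioo ⟨by linarith, by linarith⟩
  have c3 : 0 < cos (4 * z) := cos_pos_of_mem_Ioo ⟨by linarith, by linarith⟩
  have c4 : 0 < cos (2 * z) := cos_pos_of_mem_Ioo ⟨by linarith, by linarith⟩
  have p1 : cos (π / 4 - 2 * z) * cos (π / 4 + 2 * z) = cos (4 * z) / 2 := by
    rw [cos_sub, cos_add, cos_pi_div_four, sin_pi_div_four]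
    have : cos (4 * z) = cos (2 * z) ^ 2 - sin (2 * z) ^ 2 := by
      rw [show 4 * z = 2 * (2 * z) by ring, cos_two_mul']
    rw [this]
    linear_combination ((cos (2 * z) ^ 2 - sin (2 * z) ^ 2) / 4) * hs2
  have p2 : cos (π / 4 - 2 * z) + cos (π / 4 + 2 * z) = √2 * cos (2 * z) := by
    rw [cos_sub, cos_add, cos_pi_div_four]; ring
  have p3 : cos (4 * z) = 2 * cos (2 * z) ^ 2 - 1 := by
    rw [show 4 * z = 2 * (2 * z) by ring, cos_two_mul]
  have key : π / (π * cos (π / 4 - 2 * z)) + π / (π * cos (π / 4 + 2 * z))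
      - π / (π / 2 * cos (4 * z)) = (2 * √2 * cos (2 * z) - 2) / cos (4 * z) := by
    have q1 : π / (π * cos (π / 4 - 2 * z)) + π / (π * cos (π / 4 + 2 * z)) =
        (cos (π / 4 - 2 * z) + cos (π / 4 + 2 * z)) / (cos (π / 4 - 2 * z) * cos (π / 4 + 2 * z)) := by
      have r1 := c1.ne'
      have r2 := c2.ne'
      generalize cos (π / 4 - 2 * z) = A at r1
      generalize cos (π / 4 + 2 * z) = B at r2
      have r3 := hpi.ne'
      field_simp
      ring
    rw [q1, p1, p2]
    field_simp
  rw [key, cos_pi_div_four]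
  have d1 : 0 < cos (2 * z) + √2 / 2 := by positivity
  rw [mul_div_assoc', div_eq_div_iff c3.ne' d1.ne', p3]
  linear_combination (cos (2 * z) ^ 2 + cos (2*z) * √2 / 2 - 1 / 2) * hs2


/-- the integral of the weight w -/
noncomputable def Iw (z : ℝ) : ℝ := ∫ k : ℝ, exp (2 * k * z) * w k

lemma w_even (k : ℝ) : w (-k) = w k := by
  unfold w
  rw [show 3 * π * -k / 4 = -(3 * π * k / 4) by ring, show π * -k / 4 = -(π * k / 4) by ring,
    cosh_neg, cosh_neg]

lemma wt_even (k : ℝ) : wt (-k) = wt k := by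
  unfold wt
  rw [show 3 * π * -k / 4 = -(3 * π * k / 4) by ring, cosh_neg]

lemma Iw_even (z : ℝ) : Iw (-z) = Iw z := by
  unfold Iw
  rw [← integral_neg_eq_self]
  congr 1
  ext k
  rw [w_even]
  congr 2
  ring

lemma E_even (z : ℝ) : E (-z) = E z := by
  unfold E; rw [show 2 * -z = -(2 * z) by ring, cos_neg]

lemma cosh_mul_w (k : ℝ) : 2 * cosh (π * k / 4) * w k = (√2 / 2) / cosh (π / 2 * k) := by
  unfold w
  have h : cosh (3 * π * k / 4) + cosh (π * k / 4) = 2 * cosh (π / 2 * k) * cosh (π * k / 4) := by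
    rw [show 3 * π * k / 4 = π / 2 * k + π * k / 4 by ring, cosh_add]
    have : cosh (π * k / 4) = cosh (π / 2 * k - π * k / 4) := by congr 1; ring
    nth_rewrite 2 [this]
    rw [cosh_sub]
    ring
  rw [h]
  have h1 := cosh_pos (π / 2 * k)
  have h2 := cosh_pos (π * k / 4)
  field_simp

lemma Iw_shift {z : ℝ} (hz : |z| < π / 4) :
    Iw (z + π / 8) + Iw (z - π / 8) = √2 / cos (2 * z) := by
  have hz1 := (abs_lt.1 hz).1
  have hz2 := (abs_lt.1 hz).2
  have hpi := pi_pos
  unfold Iw
  rw [← integral_add (w_integrable (abs_lt.2 ⟨by linarith, by linarith⟩))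
    (w_integrable (abs_lt.2 ⟨by linarith, by linarith⟩))]
  have e : (fun k : ℝ => exp (2 * k * (z + π / 8)) * w k + exp (2 * k * (z - π / 8)) * w k) =
      fun k : ℝ => (√2 / 2) * (exp (2 * k * z) / cosh (π / 2 * k)) := by
    ext k
    have h := cosh_mul_w k
    have e1 : exp (2 * k * (z + π / 8)) = exp (2 * k * z) * exp (π * k / 4) := by
      rw [← exp_add]; ring_nf
    have e2 : exp (2 * k * (z - π / 8)) = exp (2 * k * z) * exp (-(π * k / 4)) := by
      rw [← exp_add]; ring_nf
    have e3 : 2 * cosh (π * k / 4) = exp (π * k / 4) + exp (-(π * k / 4)) := by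
      rw [cosh_eq]; ring
    rw [e1, e2]
    calc _ = exp (2 * k * z) * ((exp (π * k / 4) + exp (-(π * k / 4))) * w k) := by ring
      _ = exp (2 * k * z) * (2 * cosh (π * k / 4) * w k) := by rw [e3]
      _ = _ := by rw [h]; ring
  rw [e, integral_const_mul, cosh_int (by positivity) (by rw [abs_mul]; norm_num; linarith)]
  have a1 : π * z / (π / 2) = 2 * z := by field_simp
  rw [a1]
  have c4 : 0 < cos (2 * z) := cos_pos_of_mem_Ioo ⟨by linarith, by linarith⟩
  field_simp

lemma E_shift {z : ℝ} (hz : |z| < π / 4) :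
    E (z + π / 8) + E (z - π / 8) = √2 / cos (2 * z) := by
  have hz1 := (abs_lt.1 hz).1
  have hz2 := (abs_lt.1 hz).2
  have hpi := pi_pos
  have c0 : 0 < cos z := cos_pos_of_mem_Ioo ⟨by linarith, by linarith⟩
  have c1 : 0 < cos (z + π / 4) := cos_pos_of_mem_Ioo ⟨by linarith, by linarith⟩
  have c2 : 0 < cos (z - π / 4) := cos_pos_of_mem_Ioo ⟨by linarith, by linarith⟩
  have c4 : 0 < cos (2 * z) := cos_pos_of_mem_Ioo ⟨by linarith, by linarith⟩
  unfold E
  have f1 : cos (2 * (z + π / 8)) + cos (π / 4) = 2 * (cos z * cos (z + π / 4)) := by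
    rw [show 2 * (z + π / 8) = z + (z + π / 4) by ring, cos_add z (z + π / 4)]
    have : cos (π / 4) = cos ((z + π / 4) - z) := by congr 1; ring
    rw [this, cos_sub]
    ring
  have f2 : cos (2 * (z - π / 8)) + cos (π / 4) = 2 * (cos z * cos (z - π / 4)) := by
    rw [show 2 * (z - π / 8) = z + (z - π / 4) by ring, cos_add z (z - π / 4)]
    have : cos (π / 4) = cos (z - (z - π / 4)) := by congr 1; ring
    rw [this, cos_sub z (z - π / 4)]
    ring
  rw [f1, f2]
  have p1 : cos (z + π / 4) * cos (z - π / 4) = cos (2 * z) / 2 := by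
    have : cos (2 * z) = cos (2 * z) + cos (π / 2) := by rw [cos_pi_div_two, add_zero]
    rw [this, show 2 * z = (z + π / 4) + (z - π / 4) by ring, cos_add (z + π / 4) (z - π / 4)]
    have h2 : cos (π / 2) = cos ((z + π / 4) - (z - π / 4)) := by congr 1; ring
    rw [h2, cos_sub (z + π / 4) (z - π / 4)]
    ring
  have p2 : cos (z + π / 4) + cos (z - π / 4) = √2 * cos z := by
    rw [cos_add, cos_sub, cos_pi_div_four]; ring
  have : 1 / (2 * (cos z * cos (z + π / 4))) + 1 / (2 * (cos z * cos (z - π / 4))) =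
      (cos (z + π / 4) + cos (z - π / 4)) / (2 * cos z * (cos (z + π / 4) * cos (z - π / 4))) := by
    have r1 := c1.ne'
    have r2 := c2.ne'
    have r0 := c0.ne'
    generalize cos (z + π / 4) = A at r1
    generalize cos (z - π / 4) = B at r2
    field_simp
    ring
  rw [this, p1, p2]
  field_simp

/-- the Fourier-Laplace transform of w -/
theorem w_int {z : ℝ} (hz : |z| < 3 * π / 8) : ∫ k : ℝ, exp (2 * k * z) * w k = E z := by
  have hpi := pi_pos
  have small : ∀ y : ℝ, |y| < π / 8 → Iw y = E y := fun y hy => w_int_small hy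
  have pos : ∀ y : ℝ, 0 ≤ y → y < 3 * π / 8 → Iw y = E y := by
    intro y h0 h1
    rcases lt_or_ge y (π / 8) with h | h
    · exact small y (abs_lt.2 ⟨by linarith, h⟩)
    · have hz' : |y - π / 8| < π / 4 := abs_lt.2 ⟨by linarith, by linarith⟩
      have g1 := Iw_shift hz'
      have g2 := E_shift hz'
      rw [sub_add_cancel] at g1 g2
      rcases eq_or_lt_of_le h with h' | h'
      · subst h'
        rw [sub_self, zero_sub, Iw_even] at g1
        rw [sub_self, zero_sub, E_even] at g2
        linarith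
      · have : Iw (y - π / 8 - π / 8) = E (y - π / 8 - π / 8) :=
          small _ (abs_lt.2 ⟨by linarith, by linarith⟩)
        linarith
  have hz1 := (abs_lt.1 hz).1
  have hz2 := (abs_lt.1 hz).2
  rcases le_total 0 z with h | h
  · exact pos z h hz2
  · have := pos (-z) (by linarith) (by linarith)
    rw [Iw_even, E_even] at this
    exact this

end P2W
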