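import Pool.Agent.EXP.CutTail

/-!
EXP: renewal sequences with power bounds, part 4: exponential upper tail and mean of the number of pieces.
-/

set_option autoImplicit false

namespace HexObs

namespace CutR

open Finset

variable {u k : ℕ → ℝ}

/-- weight of the chains of at most m pieces, each piece with the additional weight 1 + z -/
def gw (k : ℕ → ℝ) (z : ℝ) (m T : ℕ) : ℝ := ∑ n ∈ range (m + 1), (1 + z) ^ n * pw k n T

lemma gw_zero (z : ℝ) (T : ℕ) : gw k z 0 T = if T = 0 then 1 else 0 := by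
  unfold gw
  rw [Finset.sum_range_one, pw_zero, pow_zero, one_mul]

lemma gw_succ (z : ℝ) (m T : ℕ) : gw k z (m + 1) T =
    (if T = 0 then 1 else 0) + (1 + z) * ∑ r ∈ Icc 1 T, k r * gw k z m (T - r) := by
  unfold gw
  rw [Finset.sum_range_succ', pw_zero, add_comm, pow_zero, one_mul]
  congr 1
  have h1 : ∀ r ∈ Icc 1 T, k r * ∑ n ∈ range (m + 1), (1 + z) ^ n * pw k n (T - r) =
      ∑ n ∈ range (m + 1), (1 + z) ^ n * (k r * pw k n (T - r)) := by
    intro r _
    rw [Finset.mul_sum]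
    apply Finset.sum_congr rfl
    intro n _
    ring
  rw [Finset.sum_congr rfl h1, Finset.sum_comm, Finset.mul_sum]
  apply Finset.sum_congr rfl
  intro n _
  rw [pw_succ, pow_succ, ← Finset.mul_sum]
  ring

lemma gw_nonneg (hk : ∀ r, 0 ≤ k r) {z : ℝ} (hz : 0 ≤ z) (m T : ℕ) : 0 ≤ gw k z m T :=
  Finset.sum_nonneg fun n _ => mul_nonneg (by positivity) (pw_nonneg hk n T)

lemma gw_mono (hk : ∀ r, 0 ≤ k r) {z : ℝ} (hz : 0 ≤ z) {m m' : ℕ} (h : m ≤ m') (T : ℕ) :
    gw k z m T ≤ gw k z m' T := by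
  apply Finset.sum_le_sum_of_subset_of_nonneg (Finset.range_mono (by omega))
  intro n _ _
  exact mul_nonneg (by positivity) (pw_nonneg hk n T)

lemma Icc_one_eq {T : ℕ} (hT : 1 ≤ T) : Icc 1 T = insert T (Ico 1 T) := by
  ext x
  simp only [Finset.mem_Icc, Finset.mem_insert, Finset.mem_Ico]
  omega

/-- renewal inequality: choose the first piece that takes the additional weight -/
lemma gw_le (h : RS u k) {z : ℝ} (hz : 0 ≤ z) (m T : ℕ) :
    gw k z m T ≤ u T + z * ∑ c ∈ Icc 1 T, gw k z m c * u (T - c) := by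
  induction m generalizing T with
  | zero =>
    have h1 : 0 ≤ z * ∑ c ∈ Icc 1 T, gw k z 0 c * u (T - c) :=
      mul_nonneg hz (Finset.sum_nonneg fun c _ => mul_nonneg (gw_nonneg h.kn hz 0 c) (h.pos _).le)
    rw [gw_zero]
    split_ifs with h0
    · rw [h0, h.u0]
      rw [h0] at h1
      linarith
    · linarith [(h.pos T).le]
  | succ m ih =>
    rcases Nat.eq_zero_or_pos T with h0 | hT
    · rw [h0, gw_succ, if_pos rfl, h.u0]
      simp
    · obtain ⟨S, hS⟩ : ∃ S : ℝ, S = ∑ r ∈ Icc 1 T, k r * gw k z m (T - r) := ⟨_, rfl⟩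
      have hS0 : 0 ≤ S := by
        rw [hS]
        exact Finset.sum_nonneg fun r _ => mul_nonneg (h.kn r) (gw_nonneg h.kn hz m _)
      have h1 : gw k z (m + 1) T = (1 + z) * S := by
        rw [gw_succ, if_neg (by omega), zero_add, hS]
      have h2 : S ≤ u T + z * ∑ c ∈ Ico 1 T, gw k z m c * u (T - c) := by
        have h3 : S ≤ ∑ r ∈ Icc 1 T, k r * (u (T - r) + z * ∑ c ∈ Icc 1 (T - r), gw k z m c * u (T - r - c)) := by
          rw [hS]
          apply Finset.sum_le_sum
          intro r _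
          exact mul_le_mul_of_nonneg_left (ih (T - r)) (h.kn r)
        refine h3.trans (le_of_eq ?_)
        have h4 : ∀ r ∈ Icc 1 T, k r * (u (T - r) + z * ∑ c ∈ Icc 1 (T - r), gw k z m c * u (T - r - c)) =
            k r * u (T - r) + z * ∑ c ∈ Icc 1 (T - r), gw k z m c * (k r * u (T - r - c)) := by
          intro r _
          rw [mul_add, Finset.mul_sum, Finset.mul_sum, Finset.mul_sum]
          congr 1
          apply Finset.sum_congr rfl
          intro c _
          ring
        rw [Finset.sum_congr rfl h4, Finset.sum_add_distrib, ← h.ren hT, ← Finset.mul_sum]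
        congr 2
        have h5 : ∑ r ∈ Icc 1 T, ∑ c ∈ Icc 1 (T - r), gw k z m c * (k r * u (T - r - c)) =
            ∑ c ∈ Icc 1 T, ∑ r ∈ Icc 1 (T - c), gw k z m c * (k r * u (T - r - c)) := by
          apply Finset.sum_comm'
          intro r c
          simp only [Finset.mem_Icc]
          omega
        rw [h5, Icc_one_eq hT, Finset.sum_insert (by simp)]
        have h6 : ∑ r ∈ Icc 1 (T - T), gw k z m T * (k r * u (T - r - T)) = 0 := by
          rw [Nat.sub_self]
          simp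
        rw [h6, zero_add]
        apply Finset.sum_congr rfl
        intro c hc
        rw [Finset.mem_Ico] at hc
        rw [← Finset.mul_sum, h.ren (by omega : 1 ≤ T - c)]
        congr 1
        apply Finset.sum_congr rfl
        intro r _
        have e : T - r - c = T - c - r := by omega
        rw [e]
      have h7 : ∑ c ∈ Ico 1 T, gw k z m c * u (T - c) ≤ ∑ c ∈ Ico 1 T, gw k z (m + 1) c * u (T - c) := by
        apply Finset.sum_le_sum
        intro c _
        exact mul_le_mul_of_nonneg_right (gw_mono h.kn hz (Nat.le_succ m) c) (h.pos _).le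
      have h8 := mul_le_mul_of_nonneg_left h7 hz
      have h9 : z * S ≤ z * gw k z (m + 1) T := by
        apply mul_le_mul_of_nonneg_left _ hz
        rw [h1]
        nlinarith
      rw [Icc_one_eq hT, Finset.sum_insert (by simp), Nat.sub_self, h.u0, mul_one, mul_add]
      rw [h1] at h9 ⊢
      linarith

lemma one_sub_exp_ge {ν : ℝ} (h0 : 0 ≤ ν) (h1 : ν ≤ 1) : ν / 2 ≤ 1 - Real.exp (-ν) := by
  have h2 : 1 + ν ≤ Real.exp ν := by
    have := Real.add_one_le_exp ν
    linarith
  have h3 : Real.exp ν * Real.exp (-ν) = 1 := by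
    rw [← Real.exp_add]
    simp
  have h4 := Real.exp_pos (-ν)
  nlinarith [mul_le_mul_of_nonneg_right h2 h4.le]

/-- sums of u with exponential damping -/
lemma damp (h : RS u k) {g C : ℝ} (hg0 : 0 < g) (hg1 : g < 1) (hC : 1 ≤ C) (hb : PB u g C) {ν : ℝ}
    (h0 : 0 < ν) (h1 : ν ≤ 1) (n : ℕ) :
    ∑ d ∈ range (n + 1), Real.exp (-(ν * d)) * u d ≤ (2 * (1 + C / g) + 2 * C) * ν ^ (-g) := by
  obtain ⟨M, hM⟩ : ∃ M, M = ⌈1 / ν⌉₊ := ⟨_, rfl⟩
  have hν1 : 1 ≤ 1 / ν := by
    rw [le_div_iff₀ h0]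
    linarith
  have hM1 : (1 : ℝ) / ν ≤ M := by
    rw [hM]
    exact Nat.le_ceil _
  have hM2 : (M : ℝ) ≤ 2 * (1 / ν) := by
    have := Nat.ceil_lt_add_one (show 0 ≤ 1 / ν by positivity)
    rw [← hM] at this
    linarith
  have hM0 : 1 ≤ M := by
    have : (1 : ℝ) ≤ M := hν1.trans hM1
    exact_mod_cast this
  have hM' : (0 : ℝ) < M := by exact_mod_cast hM0
  -- split of the sum
  have h2 : ∀ d ∈ range (n + 1), Real.exp (-(ν * d)) * u d ≤
      (if d ≤ M then u d else 0) + u M * Real.exp (-ν) ^ d := by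
    intro d _
    have h3 : Real.exp (-(ν * d)) = Real.exp (-ν) ^ d := by
      rw [← Real.exp_nat_mul]
      congr 1
      ring
    split_ifs with h4
    · have h5 : Real.exp (-(ν * d)) ≤ 1 := by
        rw [Real.exp_le_one_iff]
        have : 0 ≤ ν * d := by positivity
        linarith
      have h6 := mul_le_mul_of_nonneg_right h5 (h.pos d).le
      have h7 : 0 ≤ u M * Real.exp (-ν) ^ d := mul_nonneg (h.pos M).le (by positivity)
      linarith
    · rw [zero_add, h3, mul_comm]
      exact mul_le_mul_of_nonneg_right (h.anti (by omega)) (by positivity)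
  have h3 := Finset.sum_le_sum h2
  rw [Finset.sum_add_distrib] at h3
  have h4 : ∑ d ∈ range (n + 1), (if d ≤ M then u d else 0) ≤ US u M := by
    rw [← Finset.sum_filter]
    unfold US
    apply Finset.sum_le_sum_of_subset_of_nonneg
    · intro d hd
      rw [Finset.mem_filter] at hd
      rw [Finset.mem_range]
      omega
    · intro d _ _
      exact (h.pos d).le
  have h5 : ∑ d ∈ range (n + 1), Real.exp (-ν) ^ d ≤ 2 * (1 / ν) := by
    have hx0 : 0 ≤ Real.exp (-ν) := (Real.exp_pos _).le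
    have hx1 : Real.exp (-ν) < 1 := by
      rw [Real.exp_lt_one_iff]
      linarith
    have h6 : ∑ d ∈ range (n + 1), Real.exp (-ν) ^ d ≤ (1 - Real.exp (-ν))⁻¹ := by
      rw [← tsum_geometric_of_lt_one hx0 hx1]
      exact (summable_geometric_of_lt_one hx0 hx1).sum_le_tsum _ (fun i _ => by positivity)
    refine h6.trans ?_
    have h7 := one_sub_exp_ge h0.le h1
    have h8 : 0 < 1 - Real.exp (-ν) := by linarith
    rw [inv_le_iff_one_le_mul₀ h8]
    have h9 : 2 * (1 / ν) * (1 - Real.exp (-ν)) ≥ 2 * (1 / ν) * (ν / 2) :=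
      mul_le_mul_of_nonneg_left h7 (by positivity)
    have h10 : 2 * (1 / ν) * (ν / 2) = 1 := by
      field_simp
    linarith
  have h6 : US u M ≤ 2 * (1 + C / g) * ν ^ (-g) := by
    have h7 := US_upper h hg0 hg1.le hC hb hM0
    have h8 : (M : ℝ) ^ g ≤ 2 * ν ^ (-g) := by
      calc (M : ℝ) ^ g ≤ (2 * (1 / ν)) ^ g := Real.rpow_le_rpow hM'.le hM2 hg0.le
        _ = (2 : ℝ) ^ g * ν ^ (-g) := by
            rw [Real.mul_rpow (by norm_num) (by positivity), one_div, Real.inv_rpow h0.le, Real.rpow_neg h0.le]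
        _ ≤ 2 * ν ^ (-g) := by
            apply mul_le_mul_of_nonneg_right _ (by positivity)
            calc (2 : ℝ) ^ g ≤ (2 : ℝ) ^ (1 : ℝ) := Real.rpow_le_rpow_of_exponent_le (by norm_num) hg1.le
              _ = 2 := Real.rpow_one 2
    calc US u M ≤ (1 + C / g) * (M : ℝ) ^ g := h7
      _ ≤ (1 + C / g) * (2 * ν ^ (-g)) := mul_le_mul_of_nonneg_left h8 (by positivity)
      _ = _ := by ring
  have h7 : u M * (2 * (1 / ν)) ≤ 2 * C * ν ^ (-g) := by
    have h8 := (hb M hM0).2
    have h9 : (M : ℝ) ^ (g - 1) ≤ (1 / ν) ^ (g - 1) :=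
      Real.rpow_le_rpow_of_nonpos (by positivity) hM1 (by linarith)
    have h10 : (1 / ν) ^ (g - 1) * (1 / ν) = ν ^ (-g) := by
      rw [mul_comm, rpow_pred (by positivity), one_div, Real.inv_rpow h0.le, Real.rpow_neg h0.le]
    calc u M * (2 * (1 / ν)) ≤ (C * (1 / ν) ^ (g - 1)) * (2 * (1 / ν)) := by
          apply mul_le_mul_of_nonneg_right _ (by positivity)
          exact h8.trans (mul_le_mul_of_nonneg_left h9 (by linarith))
      _ = 2 * C * ((1 / ν) ^ (g - 1) * (1 / ν)) := by ring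
      _ = _ := by rw [h10]
  have h8 : ∑ d ∈ range (n + 1), u M * Real.exp (-ν) ^ d ≤ u M * (2 * (1 / ν)) := by
    rw [← Finset.mul_sum]
    exact mul_le_mul_of_nonneg_left h5 (h.pos M).le
  calc ∑ d ∈ range (n + 1), Real.exp (-(ν * d)) * u d ≤ US u M + u M * (2 * (1 / ν)) := by linarith
    _ ≤ 2 * (1 + C / g) * ν ^ (-g) + 2 * C * ν ^ (-g) := add_le_add h6 h7
    _ = _ := by ring

/-- half -/
lemma u_half (h : RS u k) {g C : ℝ} (hg0 : 0 < g) (hg1 : g < 1) (hC : 1 ≤ C) (hb : PB u g C) {a T : ℕ}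
    (hT : 1 ≤ T) (ha : T ≤ 2 * a) : u a ≤ 2 * C ^ 2 * u T := by
  have ha1 : 1 ≤ a := by omega
  have hT' : (0 : ℝ) < T := by exact_mod_cast hT
  have hC0 : 0 < C := by linarith
  have h1 := (hb a ha1).2
  have h2 := (hb T hT).1
  rw [div_le_iff₀ hC0] at h2
  have h3 : (T : ℝ) / 2 ≤ a := by
    have : (T : ℝ) ≤ 2 * a := by exact_mod_cast ha
    linarith
  have h4 : (a : ℝ) ^ (g - 1) ≤ ((T : ℝ) / 2) ^ (g - 1) :=
    Real.rpow_le_rpow_of_nonpos (by positivity) h3 (by linarith)
  have h5 : ((T : ℝ) / 2) ^ (g - 1) = (2 : ℝ) ^ (1 - g) * (T : ℝ) ^ (g - 1) := by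
    rw [div_eq_mul_inv, Real.mul_rpow hT'.le (by norm_num), Real.inv_rpow (by norm_num),
      ← Real.rpow_neg (by norm_num), mul_comm]
    congr 2
    ring
  have h6 : (2 : ℝ) ^ (1 - g) ≤ 2 := by
    calc (2 : ℝ) ^ (1 - g) ≤ (2 : ℝ) ^ (1 : ℝ) :=
          Real.rpow_le_rpow_of_exponent_le (by norm_num) (by linarith)
      _ = 2 := Real.rpow_one 2
  rw [h5] at h4
  have h7 : (a : ℝ) ^ (g - 1) ≤ 2 * (u T * C) :=
    h4.trans (mul_le_mul h6 h2 (by positivity) (by norm_num))
  calc u a ≤ C * (a : ℝ) ^ (g - 1) := h1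
    _ ≤ C * (2 * (u T * C)) := mul_le_mul_of_nonneg_left h7 hC0.le
    _ = _ := by ring

/-- convolution with exponential damping -/
lemma damp_conv (h : RS u k) {g C : ℝ} (hg0 : 0 < g) (hg1 : g < 1) (hC : 1 ≤ C) (hb : PB u g C) {ν : ℝ}
    (h0 : 0 < ν) (h1 : ν ≤ 1) {T : ℕ} (hT : 1 ≤ T) :
    ∑ c ∈ Ico 1 T, Real.exp (-(ν * ((T - c : ℕ) : ℝ))) * (u c * u (T - c)) ≤
      4 * C ^ 2 * (2 * (1 + C / g) + 2 * C) * ν ^ (-g) * u T := by
  obtain ⟨A, hA⟩ : ∃ A : ℝ, A = (2 * (1 + C / g) + 2 * C) * ν ^ (-g) := ⟨_, rfl⟩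
  have hdamp : ∀ n, ∑ d ∈ range (n + 1), Real.exp (-(ν * d)) * u d ≤ A := by
    intro n
    rw [hA]
    exact damp h hg0 hg1 hC hb h0 h1 n
  obtain ⟨a, ha⟩ : ∃ a, a = (T + 1) / 2 := ⟨_, rfl⟩
  have hua := u_half h hg0 hg1 hC hb hT (show T ≤ 2 * a by omega)
  have hua0 := (h.pos a).le
  have h2 : ∀ c ∈ Ico 1 T, Real.exp (-(ν * ((T - c : ℕ) : ℝ))) * (u c * u (T - c)) ≤
      u a * (Real.exp (-(ν * c)) * u c) + u a * (Real.exp (-(ν * ((T - c : ℕ) : ℝ))) * u (T - c)) := by
    intro c hc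
    rw [Finset.mem_Ico] at hc
    rcases Nat.lt_or_ge c a with hca | hca
    · have h3 : u (T - c) ≤ u a := h.anti (by omega)
      have h4 : Real.exp (-(ν * ((T - c : ℕ) : ℝ))) ≤ Real.exp (-(ν * c)) := by
        apply Real.exp_le_exp.2
        have : (c : ℝ) ≤ ((T - c : ℕ) : ℝ) := by
          have : c ≤ T - c := by omega
          exact_mod_cast this
        have := mul_le_mul_of_nonneg_left this h0.le
        linarith
      have h5 : Real.exp (-(ν * ((T - c : ℕ) : ℝ))) * (u c * u (T - c)) ≤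
          u a * (Real.exp (-(ν * c)) * u c) := by
        calc Real.exp (-(ν * ((T - c : ℕ) : ℝ))) * (u c * u (T - c)) ≤
            Real.exp (-(ν * c)) * (u c * u a) :=
              mul_le_mul h4 (mul_le_mul_of_nonneg_left h3 (h.pos c).le)
                (mul_nonneg (h.pos c).le (h.pos _).le) (Real.exp_pos _).le
          _ = _ := by ring
      have h6 : 0 ≤ u a * (Real.exp (-(ν * ((T - c : ℕ) : ℝ))) * u (T - c)) :=
        mul_nonneg hua0 (mul_nonneg (Real.exp_pos _).le (h.pos _).le)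
      linarith
    · have h3 : u c ≤ u a := h.anti hca
      have h5 : Real.exp (-(ν * ((T - c : ℕ) : ℝ))) * (u c * u (T - c)) ≤
          u a * (Real.exp (-(ν * ((T - c : ℕ) : ℝ))) * u (T - c)) := by
        calc Real.exp (-(ν * ((T - c : ℕ) : ℝ))) * (u c * u (T - c)) =
            u c * (Real.exp (-(ν * ((T - c : ℕ) : ℝ))) * u (T - c)) := by ring
          _ ≤ _ := mul_le_mul_of_nonneg_right h3 (mul_nonneg (Real.exp_pos _).le (h.pos _).le)
      have h6 : 0 ≤ u a * (Real.exp (-(ν * c)) * u c) :=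
        mul_nonneg hua0 (mul_nonneg (Real.exp_pos _).le (h.pos _).le)
      linarith
  have h3 := Finset.sum_le_sum h2
  rw [Finset.sum_add_distrib, ← Finset.mul_sum, ← Finset.mul_sum] at h3
  have hnn : ∀ d : ℕ, 0 ≤ Real.exp (-(ν * d)) * u d := fun d => mul_nonneg (Real.exp_pos _).le (h.pos d).le
  have h4 : ∑ c ∈ Ico 1 T, Real.exp (-(ν * c)) * u c ≤ A := by
    refine le_trans ?_ (hdamp T)
    apply Finset.sum_le_sum_of_subset_of_nonneg
    · intro c hc
      rw [Finset.mem_Ico] at hc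
      rw [Finset.mem_range]
      omega
    · intro c _ _
      exact hnn c
  have h5 : ∑ c ∈ Ico 1 T, Real.exp (-(ν * ((T - c : ℕ) : ℝ))) * u (T - c) ≤ A := by
    have e : ∑ c ∈ Ico 1 T, Real.exp (-(ν * ((T - c : ℕ) : ℝ))) * u (T - c) =
        ∑ d ∈ Ico 1 T, Real.exp (-(ν * d)) * u d := by
      apply Finset.sum_bij' (fun c _ => T - c) (fun d _ => T - d)
      · intro c hc
        rw [Finset.mem_Ico] at hc ⊢
        omega
      · intro c hc
        rw [Finset.mem_Ico] at hc ⊢
        omega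
      · intro c hc
        rw [Finset.mem_Ico] at hc
        omega
      · intro c hc
        rw [Finset.mem_Ico] at hc
        omega
      · intro c hc
        rfl
    rw [e]
    exact h4
  have hA0 : 0 ≤ A := (Finset.sum_nonneg fun c _ => hnn c).trans h4
  calc ∑ c ∈ Ico 1 T, Real.exp (-(ν * ((T - c : ℕ) : ℝ))) * (u c * u (T - c)) ≤ u a * A + u a * A :=
        h3.trans (add_le_add (mul_le_mul_of_nonneg_left h4 hua0) (mul_le_mul_of_nonneg_left h5 hua0))
    _ = 2 * A * u a := by ring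
    _ ≤ 2 * A * (2 * C ^ 2 * u T) := mul_le_mul_of_nonneg_left hua (by positivity)
    _ = _ := by rw [hA]; ring

/-- exponential moments of the number of pieces of a chain of height T -/
theorem gw_bound (h : RS u k) {g C : ℝ} (hg0 : 0 < g) (hg1 : g < 1) (hC : 1 ≤ C) (hb : PB u g C) :
    ∃ D : ℝ, 1 ≤ D ∧ ∀ z ν : ℝ, 0 ≤ z → 0 < ν → ν ≤ 1 → z * D ≤ ν ^ g →
      ∀ m T : ℕ, gw k z m T ≤ 2 * Real.exp (ν * T) * u T := by
  have hC0 : 0 < C := by linarith
  obtain ⟨A, hA⟩ : ∃ A : ℝ, A = 4 * C ^ 2 * (2 * (1 + C / g) + 2 * C) := ⟨_, rfl⟩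
  have hA1 : 1 ≤ A := by
    rw [hA]
    have h1 : 0 ≤ C / g := by positivity
    have h2 : 1 ≤ C ^ 2 := by nlinarith
    nlinarith
  refine ⟨8 * A, by linarith, fun z ν hz hν0 hν1 hzν m T => ?_⟩
  have hνg : ν ^ g ≤ 1 := Real.rpow_le_one hν0.le hν1 hg0.le
  have hz8 : z ≤ 1 / 8 := by
    have h1 : z * (8 * 1) ≤ z * (8 * A) := mul_le_mul_of_nonneg_left (by linarith) hz
    linarith
  induction T using Nat.strong_induction_on with
  | _ T ih =>
    rcases Nat.eq_zero_or_pos T with h0 | h0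
    · have h1 := gw_le h hz m 0
      simp only [Finset.Icc_eq_empty (show ¬ (1 : ℕ) ≤ 0 by omega), Finset.sum_empty, mul_zero, add_zero] at h1
      rw [h0]
      push_cast
      rw [mul_zero, Real.exp_zero]
      linarith [h.pos 0]
    · have h1 := gw_le h hz m T
      rw [Icc_one_eq h0, Finset.sum_insert (by simp), Nat.sub_self, h.u0, mul_one, mul_add] at h1
      have hE : 1 ≤ Real.exp (ν * T) := Real.one_le_exp (by positivity)
      have h2 : ∑ c ∈ Ico 1 T, gw k z m c * u (T - c) ≤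
          2 * Real.exp (ν * T) * ∑ c ∈ Ico 1 T, Real.exp (-(ν * ((T - c : ℕ) : ℝ))) * (u c * u (T - c)) := by
        rw [Finset.mul_sum]
        apply Finset.sum_le_sum
        intro c hc
        rw [Finset.mem_Ico] at hc
        have h3 := mul_le_mul_of_nonneg_right (ih c hc.2) (h.pos (T - c)).le
        have h4 : Real.exp (ν * c) = Real.exp (ν * T) * Real.exp (-(ν * ((T - c : ℕ) : ℝ))) := by
          rw [← Real.exp_add]
          congr 1
          rw [Nat.cast_sub hc.2.le]
          ring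
        rw [h4] at h3
        calc gw k z m c * u (T - c) ≤ _ := h3
          _ = _ := by ring
      have h3 := damp_conv h hg0 hg1 hC hb hν0 hν1 h0
      rw [← hA] at h3
      have h8 : z * ∑ c ∈ Ico 1 T, gw k z m c * u (T - c) ≤ 1 / 4 * (Real.exp (ν * T) * u T) := by
        have hE0 := Real.exp_pos (ν * T)
        have hu0 := h.pos T
        calc z * ∑ c ∈ Ico 1 T, gw k z m c * u (T - c) ≤
            z * (2 * Real.exp (ν * T) * (A * ν ^ (-g) * u T)) := by
              apply mul_le_mul_of_nonneg_left _ hz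
              exact h2.trans (mul_le_mul_of_nonneg_left h3 (by positivity))
          _ = (z * (8 * A)) * (ν ^ (-g) * (1 / 4 * (Real.exp (ν * T) * u T))) := by ring
          _ ≤ ν ^ g * (ν ^ (-g) * (1 / 4 * (Real.exp (ν * T) * u T))) := by
              apply mul_le_mul_of_nonneg_right hzν
              positivity
          _ = (ν ^ g * ν ^ (-g)) * (1 / 4 * (Real.exp (ν * T) * u T)) := by ring
          _ = _ := by
              rw [← Real.rpow_add hν0]
              simp
      have h9 : z * gw k z m T ≤ 1 / 8 * gw k z m T :=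
        mul_le_mul_of_nonneg_right hz8 (gw_nonneg h.kn hz m T)
      have h10 := (h.pos T).le
      have h11 : u T ≤ Real.exp (ν * T) * u T := by nlinarith
      linarith

lemma exp_half_le {z : ℝ} (h0 : 0 ≤ z) (h1 : z ≤ 1) : Real.exp (z / 2) ≤ 1 + z := by
  have h2 : 1 - z / 2 ≤ Real.exp (-(z / 2)) := by
    have := Real.add_one_le_exp (-(z / 2))
    linarith
  have h3 : Real.exp (z / 2) * Real.exp (-(z / 2)) = 1 := by
    rw [← Real.exp_add]
    simp
  have h4 := Real.exp_pos (z / 2)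
  nlinarith [mul_le_mul_of_nonneg_left h2 h4.le]

/-- many pieces are unlikely: stretched exponential tail with the exponent 1/(1-g) -/
theorem aw_lower (h : RS u k) {g C : ℝ} (hg0 : 0 < g) (hg1 : g < 1) (hC : 1 ≤ C) (hb : PB u g C) :
    ∃ c : ℝ, 0 < c ∧ ∀ m T : ℕ, 1 ≤ T →
      u T - aw k m T ≤ 2 * Real.exp (-(c * (((m : ℝ) + 1) / (T : ℝ) ^ g)) ^ (1 / (1 - g))) * u T := by
  obtain ⟨D, hD1, hD⟩ := gw_bound h hg0 hg1 hC hb
  have hD0 : 0 < D := by linarith
  have h1g : 0 < 1 - g := by linarith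
  refine ⟨1 / (4 * D), by positivity, fun m T hT => ?_⟩
  have hT' : (1 : ℝ) ≤ T := by exact_mod_cast hT
  have hT0 : (0 : ℝ) < T := by linarith
  have hTg : 0 < (T : ℝ) ^ g := by positivity
  rcases Nat.lt_or_ge m T with hmT | hmT
  · obtain ⟨X, hX⟩ : ∃ X : ℝ, X = ((m : ℝ) + 1) / (T : ℝ) ^ g := ⟨_, rfl⟩
    have hX0 : 0 < X := by rw [hX]; positivity
    rw [← hX]
    obtain ⟨y, hy⟩ : ∃ y : ℝ, y = (1 / (4 * D) * X) ^ (1 / (1 - g)) := ⟨_, rfl⟩
    have hy0 : 0 < y := by rw [hy]; positivity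
    rw [← hy]
    have hy1g : y ^ (1 - g) = 1 / (4 * D) * X := by
      rw [hy, ← Real.rpow_mul (by positivity), one_div_mul_cancel h1g.ne', Real.rpow_one]
    have hXT : X ≤ (T : ℝ) ^ (1 - g) := by
      rw [hX, div_le_iff₀ hTg, ← Real.rpow_add hT0]
      have e : 1 - g + g = 1 := by ring
      rw [e, Real.rpow_one]
      exact_mod_cast hmT
    have hyT : y ≤ T := by
      have h1 : y ^ (1 - g) ≤ (T : ℝ) ^ (1 - g) := by
        rw [hy1g]
        refine le_trans ?_ hXT
        apply mul_le_of_le_one_left hX0.le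
        rw [div_le_one (by positivity)]
        linarith
      exact (Real.rpow_le_rpow_iff hy0.le hT0.le h1g).1 h1
    obtain ⟨ν, hν⟩ : ∃ ν : ℝ, ν = y / T := ⟨_, rfl⟩
    have hν0 : 0 < ν := by rw [hν]; positivity
    have hν1 : ν ≤ 1 := by
      rw [hν, div_le_one hT0]
      exact hyT
    have hνT : ν * T = y := by
      rw [hν]
      field_simp
    obtain ⟨z, hz⟩ : ∃ z : ℝ, z = ν ^ g / D := ⟨_, rfl⟩
    have hz0 : 0 ≤ z := by rw [hz]; positivity
    have hzD : z * D ≤ ν ^ g := by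
      rw [hz, div_mul_cancel₀ _ hD0.ne']
    have hz1 : z ≤ 1 := by
      rw [hz, div_le_one hD0]
      exact (Real.rpow_le_one hν0.le hν1 hg0.le).trans hD1
    obtain ⟨m', hm'⟩ : ∃ m', m' = max m T := ⟨_, rfl⟩
    have h1 := hD z ν hz0 hν0 hν1 hzD m' T
    rw [hνT] at h1
    have h2 : u T - aw k m T = ∑ n ∈ Ico (m + 1) (m' + 1), pw k n T := by
      rw [← aw_eq h (show T ≤ m' by rw [hm']; exact le_max_right _ _)]
      unfold aw
      have := Finset.sum_range_add_sum_Ico (fun n => pw k n T)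
        (show m + 1 ≤ m' + 1 by rw [hm']; have := le_max_left m T; omega)
      linarith
    have h3 : (1 + z) ^ (m + 1) * (u T - aw k m T) ≤ gw k z m' T := by
      rw [h2, Finset.mul_sum]
      unfold gw
      calc ∑ n ∈ Ico (m + 1) (m' + 1), (1 + z) ^ (m + 1) * pw k n T ≤
          ∑ n ∈ Ico (m + 1) (m' + 1), (1 + z) ^ n * pw k n T := by
            apply Finset.sum_le_sum
            intro n hn
            rw [Finset.mem_Ico] at hn
            exact mul_le_mul_of_nonneg_right (pow_le_pow_right₀ (by linarith) hn.1) (pw_nonneg h.kn n T)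
        _ ≤ ∑ n ∈ range (m' + 1), (1 + z) ^ n * pw k n T := by
            apply Finset.sum_le_sum_of_subset_of_nonneg
            · intro n hn
              rw [Finset.mem_Ico] at hn
              rw [Finset.mem_range]
              exact hn.2
            · intro n _ _
              exact mul_nonneg (by positivity) (pw_nonneg h.kn n T)
    have h4 : Real.exp (((m : ℝ) + 1) * (z / 2)) ≤ (1 + z) ^ (m + 1) := by
      have h5 := pow_le_pow_left₀ (Real.exp_pos _).le (exp_half_le hz0 hz1) (m + 1)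
      rw [← Real.exp_nat_mul] at h5
      push_cast at h5
      exact h5
    have h6 : 0 ≤ u T - aw k m T := by linarith [aw_le h m T]
    have h7 : Real.exp (((m : ℝ) + 1) * (z / 2)) * (u T - aw k m T) ≤ 2 * Real.exp y * u T :=
      (mul_le_mul_of_nonneg_right h4 h6).trans (h3.trans h1)
    have h8 : ((m : ℝ) + 1) * (z / 2) = 2 * y := by
      have h9 : (m : ℝ) + 1 = X * (T : ℝ) ^ g := by
        rw [hX]
        field_simp
      have h10 : ν ^ g * (T : ℝ) ^ g = y ^ g := by
        rw [← Real.mul_rpow hν0.le hT0.le, hνT]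
      have h11 : X = 4 * D * y ^ (1 - g) := by
        rw [hy1g]
        field_simp
      have h12 : y ^ (1 - g) * y ^ g = y := by
        rw [← Real.rpow_add hy0]
        have e : 1 - g + g = 1 := by ring
        rw [e, Real.rpow_one]
      calc ((m : ℝ) + 1) * (z / 2) = X * (ν ^ g * (T : ℝ) ^ g) / (2 * D) := by
            rw [h9, hz]
            field_simp
        _ = 2 * (y ^ (1 - g) * y ^ g) := by
            rw [h10, h11]
            field_simp
            ring
        _ = 2 * y := by rw [h12]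
    rw [h8] at h7
    have h9 : Real.exp (2 * y) = Real.exp y * Real.exp y := by
      rw [← Real.exp_add]
      congr 1
      ring
    rw [h9] at h7
    have h10 := Real.exp_pos y
    rw [Real.exp_neg]
    have h11 : 2 * (Real.exp y)⁻¹ * u T = (2 * u T) / Real.exp y := by
      rw [div_eq_mul_inv]
      ring
    rw [h11, le_div_iff₀ h10]
    have h12 : Real.exp y * ((u T - aw k m T) * Real.exp y) ≤ Real.exp y * (2 * u T) := by
      calc Real.exp y * ((u T - aw k m T) * Real.exp y) = Real.exp y * Real.exp y * (u T - aw k m T) := by ring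
        _ ≤ 2 * Real.exp y * u T := h7
        _ = _ := by ring
    exact le_of_mul_le_mul_left h12 h10
  · rw [aw_eq h hmT, sub_self]
    have := (h.pos T).le
    positivity

/-- mean number of pieces of a chain of height T -/
theorem mean_pieces (h : RS u k) {g C : ℝ} (hg0 : 0 < g) (hg1 : g < 1) (hC : 1 ≤ C) (hb : PB u g C) :
    ∃ D : ℝ, 1 ≤ D ∧ ∀ T : ℕ, 1 ≤ T → (T : ℝ) ^ g / D * u T ≤ ∑ c ∈ Icc 1 T, u c * u (T - c) ∧
      ∑ c ∈ Icc 1 T, u c * u (T - c) ≤ D * (T : ℝ) ^ g * u T := by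
  have hC0 : 0 < C := by linarith
  obtain ⟨B, hB⟩ : ∃ B : ℝ, B = 4 * C * (1 + C / g) := ⟨_, rfl⟩
  have hB1 : 1 ≤ B := by
    rw [hB]
    have h1 : 0 ≤ C / g := by positivity
    nlinarith
  have hBC : 1 ≤ B * C := by nlinarith
  refine ⟨B * C, hBC, fun T hT => ⟨?_, ?_⟩⟩
  · have hT' : (0 : ℝ) < T := by exact_mod_cast hT
    have h1 : (T : ℝ) * u T * u T ≤ ∑ c ∈ Icc 1 T, u c * u (T - c) := by
      calc (T : ℝ) * u T * u T = ∑ c ∈ Icc 1 T, u T * u T := by
            rw [Finset.sum_const, Nat.card_Icc]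
            simp
            ring
        _ ≤ _ := by
            apply Finset.sum_le_sum
            intro c hc
            rw [Finset.mem_Icc] at hc
            exact mul_le_mul (h.anti hc.2) (h.anti (by omega)) (h.pos T).le (h.pos c).le
    refine le_trans ?_ h1
    apply mul_le_mul_of_nonneg_right _ (h.pos T).le
    have h2 := (hb T hT).1
    calc (T : ℝ) ^ g / (B * C) ≤ (T : ℝ) ^ g / C := by
          apply div_le_div_of_nonneg_left (by positivity) hC0
          nlinarith
      _ = T * ((T : ℝ) ^ (g - 1) / C) := by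
          rw [← mul_div_assoc, rpow_pred hT']
      _ ≤ T * u T := mul_le_mul_of_nonneg_left h2 hT'.le
  · have hT' : (0 : ℝ) < T := by exact_mod_cast hT
    have h1 : ∑ c ∈ Icc 1 T, u c * u (T - c) ≤ ∑ c ∈ range (T + 1), u c * u (T - c) := by
      apply Finset.sum_le_sum_of_subset_of_nonneg
      · intro c hc
        rw [Finset.mem_Icc] at hc
        rw [Finset.mem_range]
        omega
      · intro c _ _
        exact mul_nonneg (h.pos c).le (h.pos _).le
    have h2 := conv_upper h hg0 hg1 hC hb hT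
    rw [← hB] at h2
    refine h1.trans (h2.trans ?_)
    have h5 : (T : ℝ) ^ (2 * g - 1) = (T : ℝ) ^ g * (T : ℝ) ^ (g - 1) := by
      rw [← Real.rpow_add hT']
      congr 1
      ring
    have h7 := (hb T hT).1
    rw [div_le_iff₀ hC0] at h7
    rw [h5]
    calc B * ((T : ℝ) ^ g * (T : ℝ) ^ (g - 1)) ≤ B * ((T : ℝ) ^ g * (u T * C)) := by
          apply mul_le_mul_of_nonneg_left _ (by linarith)
          exact mul_le_mul_of_nonneg_left h7 (by positivity)
      _ = _ := by ring

end CutR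

end HexObs
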