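import Pool.Agent.EXP.CutRen

/-!
EXP: renewal sequences with power bounds, part 2: the weights of the chains with n pieces, sums of n independent
pieces.
-/

set_option autoImplicit false

namespace HexObs

namespace CutR

open Finset

/-- weight of the chains of n pieces of total height T -/
def pw (k : ℕ → ℝ) : ℕ → ℕ → ℝ
  | 0, T => if T = 0 then 1 else 0
  | n + 1, T => ∑ r ∈ Icc 1 T, k r * pw k n (T - r)

/-- weight of the chains of at most m pieces -/
def aw (k : ℕ → ℝ) (m T : ℕ) : ℝ := ∑ n ∈ range (m + 1), pw k n T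

variable {u k : ℕ → ℝ}

lemma pw_zero (T : ℕ) : pw k 0 T = if T = 0 then 1 else 0 := rfl

lemma pw_succ (n T : ℕ) : pw k (n + 1) T = ∑ r ∈ Icc 1 T, k r * pw k n (T - r) := rfl

lemma pw_succ_zero (n : ℕ) : pw k (n + 1) 0 = 0 := by
  rw [pw_succ]
  simp

lemma pw_nonneg (hk : ∀ r, 0 ≤ k r) (n T : ℕ) : 0 ≤ pw k n T := by
  induction n generalizing T with
  | zero =>
    rw [pw_zero]
    split_ifs
    · exact zero_le_one
    · exact le_rfl
  | succ n ih =>
    rw [pw_succ]
    exact Finset.sum_nonneg fun r _ => mul_nonneg (hk r) (ih _)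

lemma pw_eq_zero {n T : ℕ} (h : T < n) : pw k n T = 0 := by
  induction n generalizing T with
  | zero => omega
  | succ n ih =>
    rw [pw_succ]
    apply Finset.sum_eq_zero
    intro r hr
    rw [Finset.mem_Icc] at hr
    rw [ih (by omega), mul_zero]

lemma aw_nonneg (hk : ∀ r, 0 ≤ k r) (m T : ℕ) : 0 ≤ aw k m T :=
  Finset.sum_nonneg fun n _ => pw_nonneg hk n T

lemma aw_mono (hk : ∀ r, 0 ≤ k r) {m m' : ℕ} (h : m ≤ m') (T : ℕ) : aw k m T ≤ aw k m' T := by
  apply Finset.sum_le_sum_of_subset_of_nonneg (Finset.range_mono (by omega))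
  intro n _ _
  exact pw_nonneg hk n T

lemma aw_zero (T : ℕ) : aw k 0 T = if T = 0 then 1 else 0 := by
  unfold aw
  rw [Finset.sum_range_one, pw_zero]

lemma aw_succ (m T : ℕ) : aw k (m + 1) T = (if T = 0 then 1 else 0) + ∑ r ∈ Icc 1 T, k r * aw k m (T - r) := by
  unfold aw
  rw [Finset.sum_range_succ', pw_zero, add_comm]
  congr 1
  rw [Finset.sum_congr rfl (fun n _ => pw_succ n T), Finset.sum_comm]
  apply Finset.sum_congr rfl
  intro r _
  rw [Finset.mul_sum]

/-- all chains together -/
lemma aw_eq (h : RS u k) {m T : ℕ} (hm : T ≤ m) : aw k m T = u T := by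
  induction m generalizing T with
  | zero =>
    have hT : T = 0 := by omega
    rw [aw_zero, hT, h.u0, if_pos rfl]
  | succ m ih =>
    rw [aw_succ]
    rcases Nat.eq_zero_or_pos T with hT | hT
    · rw [hT, h.u0, if_pos rfl]
      simp
    · rw [if_neg (by omega), zero_add, h.ren hT]
      apply Finset.sum_congr rfl
      intro r hr
      rw [Finset.mem_Icc] at hr
      rw [ih (by omega)]

lemma aw_le (h : RS u k) (m T : ℕ) : aw k m T ≤ u T := by
  rw [← aw_eq h (le_max_right m T)]
  exact aw_mono h.kn (le_max_left m T) T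

lemma pw_le_aw (hk : ∀ r, 0 ≤ k r) (m T : ℕ) : pw k m T ≤ aw k m T :=
  Finset.single_le_sum (f := fun n => pw k n T) (fun n _ => pw_nonneg hk n T)
    (Finset.mem_range.2 (by omega))

/-- total mass of the chains of n pieces up to height x, against a test function -/
lemma pw_test (n x : ℕ) (f : ℕ → ℝ) : ∑ j ∈ range (x + 1), pw k (n + 1) j * f j =
    ∑ j ∈ range (x + 1), pw k n j * ∑ r ∈ Icc 1 (x - j), k r * f (j + r) := by
  have h1 : ∑ j ∈ range (x + 1), pw k (n + 1) j * f j =
      ∑ j ∈ range (x + 1), ∑ r ∈ Icc 1 j, k r * pw k n (j - r) * f j := by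
    apply Finset.sum_congr rfl
    intro j _
    rw [pw_succ, Finset.sum_mul]
  have h2 : ∑ j ∈ range (x + 1), pw k n j * ∑ r ∈ Icc 1 (x - j), k r * f (j + r) =
      ∑ j ∈ range (x + 1), ∑ r ∈ Icc 1 (x - j), k r * pw k n j * f (j + r) := by
    apply Finset.sum_congr rfl
    intro j _
    rw [Finset.mul_sum]
    apply Finset.sum_congr rfl
    intro r _
    ring
  rw [h1, h2, Finset.sum_sigma', Finset.sum_sigma']
  apply Finset.sum_bij' (fun (a : Σ _ : ℕ, ℕ) _ => (⟨a.1 - a.2, a.2⟩ : Σ _ : ℕ, ℕ))
    (fun (a : Σ _ : ℕ, ℕ) _ => (⟨a.1 + a.2, a.2⟩ : Σ _ : ℕ, ℕ))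
  · rintro ⟨j, r⟩ h
    simp only [Finset.mem_sigma, Finset.mem_range, Finset.mem_Icc] at h ⊢
    omega
  · rintro ⟨j, r⟩ h
    simp only [Finset.mem_sigma, Finset.mem_range, Finset.mem_Icc] at h ⊢
    omega
  · rintro ⟨j, r⟩ h
    simp only [Finset.mem_sigma, Finset.mem_range, Finset.mem_Icc] at h
    simp only [Sigma.mk.injEq, heq_eq_eq, and_true]
    omega
  · rintro ⟨j, r⟩ h
    simp only [Finset.mem_sigma, Finset.mem_range, Finset.mem_Icc] at h
    simp only [Sigma.mk.injEq, heq_eq_eq, and_true]
    omega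
  · rintro ⟨j, r⟩ h
    simp only [Finset.mem_sigma, Finset.mem_range, Finset.mem_Icc] at h
    have : j - r + r = j := by omega
    simp only [this]

lemma sum_Icc_k (hk0 : k 0 = 0) (m : ℕ) : ∑ r ∈ Icc 1 m, k r = 1 - KS k (m + 1) := by
  unfold KS
  have e : range (m + 1) = insert 0 (Icc 1 m) := by
    ext x
    simp only [Finset.mem_range, Finset.mem_insert, Finset.mem_Icc]
    omega
  rw [e, Finset.sum_insert (by simp), hk0]
  ring

/-- mass below x of the sum of n pieces -/
def dw (k : ℕ → ℝ) (n x : ℕ) : ℝ := ∑ j ∈ range (x + 1), pw k n j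

lemma dw_nonneg (hk : ∀ r, 0 ≤ k r) (n x : ℕ) : 0 ≤ dw k n x := Finset.sum_nonneg fun j _ => pw_nonneg hk n j

lemma dw_zero (x : ℕ) : dw k 0 x = 1 := by
  unfold dw
  simp only [pw_zero]
  rw [Finset.sum_ite_eq' (range (x + 1)) 0 (fun _ => (1 : ℝ))]
  simp

lemma dw_succ (hk0 : k 0 = 0) (n x : ℕ) :
    dw k (n + 1) x = dw k n x - ∑ j ∈ range (x + 1), pw k n j * KS k (x + 1 - j) := by
  have h1 := pw_test (k := k) n x (fun _ => 1)
  simp only [mul_one] at h1
  unfold dw
  rw [h1, ← Finset.sum_sub_distrib]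
  apply Finset.sum_congr rfl
  intro j hj
  rw [Finset.mem_range] at hj
  rw [sum_Icc_k hk0]
  have e : x - j + 1 = x + 1 - j := by omega
  rw [e]
  ring

lemma dw_anti (h : RS u k) (n x : ℕ) : dw k (n + 1) x ≤ dw k n x := by
  rw [dw_succ h.k0]
  have : 0 ≤ ∑ j ∈ range (x + 1), pw k n j * KS k (x + 1 - j) :=
    Finset.sum_nonneg fun j _ => mul_nonneg (pw_nonneg h.kn n j) (h.KS_nonneg _)
  linarith

lemma dw_le_one (h : RS u k) (n x : ℕ) : dw k n x ≤ 1 := by
  induction n with
  | zero => rw [dw_zero]
  | succ n ih => exact (dw_anti h n x).trans ih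

/-- mass of the chains that pass the level x with at most m + 1 pieces -/
lemma aw_pass (h : RS u k) (m x : ℕ) :
    ∑ j ∈ range (x + 1), aw k m j * KS k (x + 1 - j) = 1 - dw k (m + 1) x := by
  have h1 : ∑ j ∈ range (x + 1), aw k m j * KS k (x + 1 - j) =
      ∑ n ∈ range (m + 1), ∑ j ∈ range (x + 1), pw k n j * KS k (x + 1 - j) := by
    unfold aw
    rw [Finset.sum_comm]
    apply Finset.sum_congr rfl
    intro j _
    rw [Finset.sum_mul]
  rw [h1]
  have h2 : ∀ m : ℕ, ∑ n ∈ range (m + 1), ∑ j ∈ range (x + 1), pw k n j * KS k (x + 1 - j) =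
      1 - dw k (m + 1) x := by
    intro m
    induction m with
    | zero =>
      rw [Finset.sum_range_one, dw_succ h.k0, dw_zero]
      ring
    | succ m ih =>
      rw [Finset.sum_range_succ, ih, dw_succ h.k0 (m + 1)]
      ring
  exact h2 m

lemma aw_mass (h : RS u k) (m x : ℕ) : ∑ j ∈ range (x + 1), aw k m j ≤ m + 1 := by
  unfold aw
  rw [Finset.sum_comm]
  calc ∑ n ∈ range (m + 1), ∑ j ∈ range (x + 1), pw k n j ≤ ∑ _n ∈ range (m + 1), (1 : ℝ) := by
        apply Finset.sum_le_sum
        intro n _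
        exact dw_le_one h n x
    _ = m + 1 := by simp

/-- Markov: with few pieces the level x is not passed -/
theorem dw_lower (h : RS u k) {x : ℕ} (hx : 1 ≤ x) (n : ℕ) : 1 - 4 * n / US u x ≤ dw k n x := by
  have hx' : (0 : ℝ) < x := by exact_mod_cast hx
  have hU := h.US_pos x
  -- test function
  obtain ⟨A, hA⟩ : ∃ A : ℕ → ℝ, ∀ n, A n = ∑ j ∈ range (x + 1), pw k n j * (1 - j / x) := ⟨_, fun _ => rfl⟩
  have hA0 : A 0 = 1 := by
    rw [hA]
    simp only [pw_zero]
    rw [Finset.sum_eq_single_of_mem 0 (Finset.mem_range.2 (by omega))]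
    · simp
    · intro j _ hj
      rw [if_neg hj, zero_mul]
  have hf : ∀ j : ℕ, j ≤ x → 0 ≤ 1 - (j : ℝ) / x := by
    intro j hj
    rw [sub_nonneg, div_le_one hx']
    exact_mod_cast hj
  have hAle : ∀ n, A n ≤ dw k n x := by
    intro n
    rw [hA]
    unfold dw
    apply Finset.sum_le_sum
    intro j _
    have h1 : 1 - (j : ℝ) / x ≤ 1 := by
      have : 0 ≤ (j : ℝ) / x := by positivity
      linarith
    exact mul_le_of_le_one_right (pw_nonneg h.kn n j) h1
  have hmean := h.sum_mul_k hx
  have hKS : KS k (x + 1) ≤ 1 / US u x := by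
    rw [le_div_iff₀ hU]
    linarith [h.US_mul_KS x]
  have step : ∀ n, A n - 4 / US u x ≤ A (n + 1) := by
    intro n
    have h1 := pw_test (k := k) n x (fun j => 1 - (j : ℝ) / x)
    rw [hA (n + 1), h1]
    have h2 : ∀ j, j ∈ range (x + 1) → pw k n j * ((1 - j / x) - 4 / US u x) ≤
        pw k n j * ∑ r ∈ Icc 1 (x - j), k r * (1 - ((j + r : ℕ) : ℝ) / x) := by
      intro j hj
      rw [Finset.mem_range] at hj
      apply mul_le_mul_of_nonneg_left _ (pw_nonneg h.kn n j)
      -- extend the sum to r ≤ x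
      have h3 : ∑ r ∈ Icc 1 x, k r * (1 - ((j + r : ℕ) : ℝ) / x) ≤
          ∑ r ∈ Icc 1 (x - j), k r * (1 - ((j + r : ℕ) : ℝ) / x) := by
        have e : Icc 1 x = Icc 1 (x - j) ∪ Ioc (x - j) x := by
          ext r
          simp only [Finset.mem_union, Finset.mem_Icc, Finset.mem_Ioc]
          omega
        have hd : Disjoint (Icc 1 (x - j)) (Ioc (x - j) x) := by
          rw [Finset.disjoint_left]
          intro r h1 h2
          rw [Finset.mem_Icc] at h1
          rw [Finset.mem_Ioc] at h2
          omega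
        rw [e, Finset.sum_union hd]
        have h4 : ∑ r ∈ Ioc (x - j) x, k r * (1 - ((j + r : ℕ) : ℝ) / x) ≤ 0 := by
          apply Finset.sum_nonpos
          intro r hr
          rw [Finset.mem_Ioc] at hr
          apply mul_nonpos_of_nonneg_of_nonpos (h.kn r)
          rw [sub_nonpos, one_le_div hx']
          have : x ≤ j + r := by omega
          exact_mod_cast this
        linarith
      refine le_trans ?_ h3
      have h5 : ∑ r ∈ Icc 1 x, k r * (1 - ((j + r : ℕ) : ℝ) / x) =
          (1 - j / x) * ∑ r ∈ Icc 1 x, k r - (∑ r ∈ Icc 1 x, r * k r) / x := by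
        rw [Finset.mul_sum, Finset.sum_div, ← Finset.sum_sub_distrib]
        apply Finset.sum_congr rfl
        intro r _
        push_cast
        field_simp
        ring
      have h6 : ∑ r ∈ Icc 1 x, (r : ℝ) * k r = ∑ r ∈ range (x + 1), (r : ℝ) * k r := by
        have e : range (x + 1) = insert 0 (Icc 1 x) := by
          ext r
          simp only [Finset.mem_range, Finset.mem_insert, Finset.mem_Icc]
          omega
        rw [e, Finset.sum_insert (by simp)]
        simp
      rw [h5, sum_Icc_k h.k0, h6]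
      have h7 : (∑ r ∈ range (x + 1), (r : ℝ) * k r) / x ≤ 3 / US u x := by
        rw [div_le_iff₀ hx']
        calc ∑ r ∈ range (x + 1), (r : ℝ) * k r ≤ 3 * (x / US u x) := hmean
          _ = 3 / US u x * x := by ring
      have h8 : (1 - (j : ℝ) / x) * KS k (x + 1) ≤ 1 / US u x := by
        have h9 : 1 - (j : ℝ) / x ≤ 1 := by
          have : 0 ≤ (j : ℝ) / x := by positivity
          linarith
        calc (1 - (j : ℝ) / x) * KS k (x + 1) ≤ 1 * KS k (x + 1) :=
              mul_le_mul_of_nonneg_right h9 (h.KS_nonneg _)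
          _ = KS k (x + 1) := one_mul _
          _ ≤ _ := hKS
      have h10 : (4 : ℝ) / US u x = 3 / US u x + 1 / US u x := by ring
      rw [h10]
      linarith [mul_sub (1 - (j : ℝ) / x) 1 (KS k (x + 1))]
    have h3 := Finset.sum_le_sum h2
    have h4 : ∑ j ∈ range (x + 1), pw k n j * ((1 - (j : ℝ) / x) - 4 / US u x) =
        A n - 4 / US u x * dw k n x := by
      rw [hA]
      unfold dw
      rw [Finset.mul_sum, ← Finset.sum_sub_distrib]
      apply Finset.sum_congr rfl
      intro j _
      ring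
    rw [h4] at h3
    have h5 : 4 / US u x * dw k n x ≤ 4 / US u x * 1 :=
      mul_le_mul_of_nonneg_left (dw_le_one h n x) (by positivity)
    linarith
  have hAn : ∀ n : ℕ, 1 - 4 * n / US u x ≤ A n := by
    intro n
    induction n with
    | zero =>
      rw [hA0]
      simp
    | succ n ih =>
      have h1 := step n
      push_cast
      have h2 : 4 * ((n : ℝ) + 1) / US u x = 4 * n / US u x + 4 / US u x := by ring
      rw [h2]
      linarith
  exact (hAn n).trans (hAle n)

/-- with many pieces the level x is passed -/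
theorem dw_upper (h : RS u k) (x n : ℕ) : dw k n x ≤ (1 - KS k (x + 1)) ^ n := by
  induction n with
  | zero => rw [dw_zero, pow_zero]
  | succ n ih =>
    have h1 : dw k (n + 1) x ≤ (1 - KS k (x + 1)) * dw k n x := by
      rw [dw_succ h.k0]
      unfold dw
      rw [Finset.mul_sum, ← Finset.sum_sub_distrib]
      apply Finset.sum_le_sum
      intro j _
      have h2 : KS k (x + 1) ≤ KS k (x + 1 - j) := h.KS_anti (by omega)
      have h3 := mul_le_mul_of_nonneg_left h2 (pw_nonneg h.kn n j)
      linarith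
    have h2 : 0 ≤ 1 - KS k (x + 1) := by linarith [h.KS_le_one (x + 1)]
    calc dw k (n + 1) x ≤ (1 - KS k (x + 1)) * dw k n x := h1
      _ ≤ (1 - KS k (x + 1)) * (1 - KS k (x + 1)) ^ n := mul_le_mul_of_nonneg_left ih h2
      _ = (1 - KS k (x + 1)) ^ (n + 1) := by ring

/-- decomposition at the level x -/
theorem aw_split (h : RS u k) (m : ℕ) {x T : ℕ} (hx : x < T) :
    aw k m T ≤ ∑ j ∈ range (x + 1), aw k m j * ∑ y ∈ Ioc x T, k (y - j) * aw k m (T - y) := by
  induction m generalizing x T with
  | zero =>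
    rw [aw_zero, if_neg (by omega)]
    exact Finset.sum_nonneg fun j _ => mul_nonneg (aw_nonneg h.kn 0 j)
      (Finset.sum_nonneg fun y _ => mul_nonneg (h.kn _) (aw_nonneg h.kn 0 _))
  | succ m ih =>
    -- the inner sum
    obtain ⟨H, hH⟩ : ∃ H : ℕ → ℝ, ∀ j, H j = ∑ y ∈ Ioc x T, k (y - j) * aw k m (T - y) := ⟨_, fun _ => rfl⟩
    have hH0 : ∀ j, 0 ≤ H j := by
      intro j
      rw [hH]
      exact Finset.sum_nonneg fun y _ => mul_nonneg (h.kn _) (aw_nonneg h.kn m _)
    have h1 : aw k (m + 1) T ≤ ∑ j ∈ range (x + 1), aw k (m + 1) j * H j := by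
      have h2 : ∑ j ∈ range (x + 1), aw k (m + 1) j * H j =
          H 0 + ∑ j ∈ range (x + 1), (∑ r ∈ Icc 1 j, k r * aw k m (j - r)) * H j := by
        have h3 : ∀ j, aw k (m + 1) j * H j =
            (if j = 0 then 1 else 0) * H j + (∑ r ∈ Icc 1 j, k r * aw k m (j - r)) * H j := by
          intro j
          rw [aw_succ, add_mul]
        rw [Finset.sum_congr rfl (fun j _ => h3 j), Finset.sum_add_distrib]
        congr 1
        rw [Finset.sum_eq_single_of_mem 0 (Finset.mem_range.2 (by omega))]
        · simp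
        · intro j _ hj
          rw [if_neg hj, zero_mul]
      rw [h2, aw_succ, if_neg (by omega), zero_add]
      have e : Icc 1 T = Icc 1 x ∪ Ioc x T := by
        ext r
        simp only [Finset.mem_union, Finset.mem_Icc, Finset.mem_Ioc]
        omega
      have hd : Disjoint (Icc 1 x) (Ioc x T) := by
        rw [Finset.disjoint_left]
        intro r h1 h2
        rw [Finset.mem_Icc] at h1
        rw [Finset.mem_Ioc] at h2
        omega
      rw [e, Finset.sum_union hd, add_comm]
      apply add_le_add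
      · rw [hH]
        apply le_of_eq
        apply Finset.sum_congr rfl
        intro y _
        rw [Nat.sub_zero]
      · -- first piece r ≤ x
        have h4 : ∀ r ∈ Icc 1 x, k r * aw k m (T - r) ≤
            k r * ∑ j ∈ range (x - r + 1), aw k m j * H (j + r) := by
          intro r hr
          rw [Finset.mem_Icc] at hr
          apply mul_le_mul_of_nonneg_left _ (h.kn r)
          refine (ih (x := x - r) (T := T - r) (by omega)).trans (le_of_eq ?_)
          apply Finset.sum_congr rfl
          intro j _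
          rw [hH]
          congr 1
          apply Finset.sum_bij' (fun y _ => y + r) (fun y _ => y - r)
          · intro y hy
            rw [Finset.mem_Ioc] at hy ⊢
            omega
          · intro y hy
            rw [Finset.mem_Ioc] at hy ⊢
            omega
          · intro y hy
            omega
          · intro y hy
            rw [Finset.mem_Ioc] at hy
            omega
          · intro y hy
            have e1 : y + r - (j + r) = y - j := by omega
            have e2 : T - (y + r) = T - r - y := by omega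
            rw [e1, e2]
        refine (Finset.sum_le_sum h4).trans (le_of_eq ?_)
        have h5 : ∑ r ∈ Icc 1 x, k r * ∑ j ∈ range (x - r + 1), aw k m j * H (j + r) =
            ∑ r ∈ Icc 1 x, ∑ j ∈ range (x - r + 1), k r * aw k m j * H (j + r) := by
          apply Finset.sum_congr rfl
          intro r _
          rw [Finset.mul_sum]
          apply Finset.sum_congr rfl
          intro j _
          ring
        have h6 : ∑ j ∈ range (x + 1), (∑ r ∈ Icc 1 j, k r * aw k m (j - r)) * H j =
            ∑ j ∈ range (x + 1), ∑ r ∈ Icc 1 j, k r * aw k m (j - r) * H j := by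
          apply Finset.sum_congr rfl
          intro j _
          rw [Finset.sum_mul]
        rw [h5, h6, Finset.sum_sigma', Finset.sum_sigma']
        apply Finset.sum_bij' (fun (a : Σ _ : ℕ, ℕ) _ => (⟨a.2 + a.1, a.1⟩ : Σ _ : ℕ, ℕ))
          (fun (a : Σ _ : ℕ, ℕ) _ => (⟨a.2, a.1 - a.2⟩ : Σ _ : ℕ, ℕ))
        · rintro ⟨r, j⟩ hh
          simp only [Finset.mem_sigma, Finset.mem_range, Finset.mem_Icc] at hh ⊢
          omega
        · rintro ⟨j, r⟩ hh
          simp only [Finset.mem_sigma, Finset.mem_range, Finset.mem_Icc] at hh ⊢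
          omega
        · rintro ⟨r, j⟩ hh
          simp only [Finset.mem_sigma, Finset.mem_range, Finset.mem_Icc] at hh
          simp only [Sigma.mk.injEq, heq_eq_eq, true_and]
          omega
        · rintro ⟨j, r⟩ hh
          simp only [Finset.mem_sigma, Finset.mem_range, Finset.mem_Icc] at hh
          simp only [Sigma.mk.injEq, heq_eq_eq, and_true]
          omega
        · rintro ⟨r, j⟩ hh
          simp only [Finset.mem_sigma, Finset.mem_range, Finset.mem_Icc] at hh
          have : j + r - r = j := by omega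
          simp only [this]
    refine h1.trans ?_
    apply Finset.sum_le_sum
    intro j _
    apply mul_le_mul_of_nonneg_left _ (aw_nonneg h.kn _ _)
    rw [hH]
    apply Finset.sum_le_sum
    intro y _
    exact mul_le_mul_of_nonneg_left (aw_mono h.kn (Nat.le_succ m) _) (h.kn _)

end CutR

end HexObs
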