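import Pool.Agent.PHW.Num3Gen

/-!
EXP: renewal sequences with power bounds, part 1: partial sums, tails and truncated means.
u is a decreasing renewal sequence with steps k, and u T is between T^(g-1)/C and C T^(g-1), 0 < g < 1.
-/

set_option autoImplicit false

namespace HexObs

namespace CutR

open Finset

/-- a decreasing positive renewal sequence u with steps k -/
structure RS (u k : ℕ → ℝ) : Prop where
  u0 : u 0 = 1
  pos : ∀ T, 0 < u T
  anti : ∀ {T T' : ℕ}, T ≤ T' → u T' ≤ u T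
  kn : ∀ r, 0 ≤ k r
  k0 : k 0 = 0
  ren : ∀ {T : ℕ}, 1 ≤ T → u T = ∑ r ∈ Icc 1 T, k r * u (T - r)

/-- partial sums of u -/
def US (u : ℕ → ℝ) (T : ℕ) : ℝ := ∑ t ∈ range (T + 1), u t

/-- tails of k -/
def KS (k : ℕ → ℝ) (n : ℕ) : ℝ := 1 - ∑ r ∈ range n, k r

/-- power bounds -/
def PB (u : ℕ → ℝ) (g C : ℝ) : Prop :=
  ∀ T : ℕ, 1 ≤ T → (T : ℝ) ^ (g - 1) / C ≤ u T ∧ u T ≤ C * (T : ℝ) ^ (g - 1)

variable {u k : ℕ → ℝ}

namespace RS

lemma sum_k_le (h : RS u k) (n : ℕ) : ∑ r ∈ range n, k r ≤ 1 :=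
  RenewNum.sum_k_le h.pos h.anti h.kn h.k0 h.ren n

lemma KS_nonneg (h : RS u k) (n : ℕ) : 0 ≤ KS k n := by
  unfold KS
  linarith [h.sum_k_le n]

lemma KS_anti (h : RS u k) {m n : ℕ} (hmn : m ≤ n) : KS k n ≤ KS k m := RenewNum.K_anti h.kn hmn

lemma KS_le_one (h : RS u k) (n : ℕ) : KS k n ≤ 1 := by
  have := h.KS_anti (Nat.zero_le n)
  simpa [KS] using this

lemma KS_one (h : RS u k) : KS k 1 = 1 := by
  unfold KS
  simp [h.k0]

lemma US_pos (h : RS u k) (T : ℕ) : 0 < US u T := Finset.sum_pos (fun i _ => h.pos i) ⟨0, by simp⟩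

lemma US_mono (h : RS u k) {a b : ℕ} (hab : a ≤ b) : US u a ≤ US u b := by
  unfold US
  apply Finset.sum_le_sum_of_subset_of_nonneg
  · intro x hx
    rw [Finset.mem_range] at hx ⊢
    omega
  · intro x _ _
    exact (h.pos x).le

lemma US_zero (h : RS u k) : US u 0 = 1 := by
  unfold US
  simp [h.u0]

lemma one_le_US (h : RS u k) (T : ℕ) : 1 ≤ US u T := by
  have := h.US_mono (Nat.zero_le T)
  rwa [h.US_zero] at this

lemma u_le_one (h : RS u k) (T : ℕ) : u T ≤ 1 := by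
  have := h.anti (Nat.zero_le T)
  rwa [h.u0] at this

lemma US_succ (T : ℕ) : US u (T + 1) = US u T + u (T + 1) := by
  unfold US
  rw [Finset.sum_range_succ]

lemma renewal (h : RS u k) (N : ℕ) : ∑ y ∈ range (N + 1), u y * KS k (N + 1 - y) = 1 :=
  RenewNum.K_renewal h.u0 h.k0 h.ren N

lemma US_mul_KS (h : RS u k) (n : ℕ) : US u n * KS k (n + 1) ≤ 1 :=
  RenewNum.U_mul_K h.u0 h.pos h.kn h.k0 h.ren n

lemma sum_mul_k (h : RS u k) {R : ℕ} (hR : 1 ≤ R) :
    ∑ r ∈ range (R + 1), r * k r ≤ 3 * (R / US u R) :=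
  RenewNum.sum_mul_k h.u0 h.pos h.anti h.kn h.k0 h.ren hR

lemma sum_KS (h : RS u k) {M : ℕ} (hM : 1 ≤ M) :
    ∑ n ∈ range M, KS k (n + 1) ≤ 4 * (M / US u M) := by
  have h1 : ∑ n ∈ range M, KS k (n + 1) =
      ∑ r ∈ range (M + 1), r * k r + M * KS k (M + 1) := RenewNum.sum_K M
  have h2 := h.sum_mul_k hM
  have h3 := h.US_mul_KS M
  have hU : 0 < US u M := h.US_pos M
  have h4 : KS k (M + 1) ≤ 1 / US u M := by
    rw [le_div_iff₀ hU]
    linarith
  have h5 : (M : ℝ) * KS k (M + 1) ≤ M * (1 / US u M) :=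
    mul_le_mul_of_nonneg_left h4 (Nat.cast_nonneg M)
  rw [h1]
  calc ∑ r ∈ range (M + 1), r * k r + M * KS k (M + 1) ≤
      3 * (M / US u M) + M * (1 / US u M) := add_le_add h2 h5
    _ = 4 * (M / US u M) := by ring

lemma mul_le_US (h : RS u k) (T : ℕ) : T * u T ≤ US u T := by
  unfold US
  have h1 : ∑ _t ∈ range (T + 1), u T ≤ ∑ t ∈ range (T + 1), u t := by
    apply Finset.sum_le_sum
    intro t ht
    rw [Finset.mem_range] at ht
    exact h.anti (by omega)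
  rw [Finset.sum_const, Finset.card_range, nsmul_eq_mul] at h1
  push_cast at h1
  have := (h.pos T).le
  linarith

end RS

/-- one step of the sum of the powers -/
lemma pow_step {g : ℝ} (hg0 : 0 < g) (hg1 : g ≤ 1) (n : ℕ) :
    (n : ℝ) ^ g + g * ((n : ℝ) + 1) ^ (g - 1) ≤ ((n : ℝ) + 1) ^ g := by
  have hn : (0 : ℝ) < (n : ℝ) + 1 := by positivity
  have h1 : (1 + -(1 / ((n : ℝ) + 1))) ^ g ≤ 1 + g * -(1 / ((n : ℝ) + 1)) := by
    apply rpow_one_add_le_one_add_mul_self _ hg0.le hg1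
    rw [neg_le_neg_iff, div_le_one hn]
    have : (0 : ℝ) ≤ n := Nat.cast_nonneg n
    linarith
  have h2 : 1 + -(1 / ((n : ℝ) + 1)) = (n : ℝ) / (n + 1) := by
    field_simp
    ring
  rw [h2, Real.div_rpow (Nat.cast_nonneg n) hn.le, div_le_iff₀ (Real.rpow_pos_of_pos hn g)] at h1
  have h3 : ((n : ℝ) + 1) ^ (g - 1) = ((n : ℝ) + 1) ^ g / (n + 1) := by
    rw [Real.rpow_sub hn, Real.rpow_one]
  rw [h3]
  have h4 : (1 + g * -(1 / ((n : ℝ) + 1))) * ((n : ℝ) + 1) ^ g =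
      ((n : ℝ) + 1) ^ g - g * (((n : ℝ) + 1) ^ g / (n + 1)) := by ring
  rw [h4] at h1
  linarith

lemma sum_pow_le {g : ℝ} (hg0 : 0 < g) (hg1 : g ≤ 1) (T : ℕ) :
    ∑ t ∈ range T, ((t : ℝ) + 1) ^ (g - 1) ≤ (T : ℝ) ^ g / g := by
  induction T with
  | zero =>
    simp [Real.zero_rpow hg0.ne']
  | succ T ih =>
    rw [Finset.sum_range_succ]
    have h1 := pow_step hg0 hg1 T
    push_cast
    rw [le_div_iff₀ hg0] at ih ⊢
    nlinarith

lemma US_upper (h : RS u k) {g C : ℝ} (hg0 : 0 < g) (hg1 : g ≤ 1) (hC : 1 ≤ C) (hb : PB u g C) {T : ℕ}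
    (hT : 1 ≤ T) : US u T ≤ (1 + C / g) * (T : ℝ) ^ g := by
  have h1 : US u T = ∑ t ∈ range T, u (t + 1) + 1 := by
    unfold US
    rw [Finset.sum_range_succ', h.u0]
  have h2 : ∑ t ∈ range T, u (t + 1) ≤ C * ((T : ℝ) ^ g / g) := by
    calc ∑ t ∈ range T, u (t + 1) ≤ ∑ t ∈ range T, C * ((t : ℝ) + 1) ^ (g - 1) := by
          apply Finset.sum_le_sum
          intro t _
          have := (hb (t + 1) (by omega)).2
          push_cast at this
          exact this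
      _ = C * ∑ t ∈ range T, ((t : ℝ) + 1) ^ (g - 1) := by rw [Finset.mul_sum]
      _ ≤ C * ((T : ℝ) ^ g / g) := mul_le_mul_of_nonneg_left (sum_pow_le hg0 hg1 T) (by linarith)
  have hT' : (1 : ℝ) ≤ T := by exact_mod_cast hT
  have h3 : (1 : ℝ) ≤ (T : ℝ) ^ g := Real.one_le_rpow hT' hg0.le
  rw [h1]
  calc ∑ t ∈ range T, u (t + 1) + 1 ≤ C * ((T : ℝ) ^ g / g) + (T : ℝ) ^ g := add_le_add h2 h3
    _ = (1 + C / g) * (T : ℝ) ^ g := by ring

lemma rpow_pred {x g : ℝ} (hx : 0 < x) : x * x ^ (g - 1) = x ^ g := by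
  rw [Real.rpow_sub hx, Real.rpow_one]
  field_simp

lemma US_lower (h : RS u k) {g C : ℝ} (_hC : 1 ≤ C) (hb : PB u g C) {T : ℕ}
    (hT : 1 ≤ T) : (T : ℝ) ^ g / C ≤ US u T := by
  have h1 := h.mul_le_US T
  have h2 := (hb T hT).1
  have hT' : (0 : ℝ) < T := by exact_mod_cast hT
  refine le_trans ?_ h1
  calc (T : ℝ) ^ g / C = T * ((T : ℝ) ^ (g - 1) / C) := by
        rw [← mul_div_assoc, rpow_pred hT']
    _ ≤ T * u T := mul_le_mul_of_nonneg_left h2 hT'.le

/-- upper bound of the tail -/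
lemma KS_upper (h : RS u k) {g C : ℝ} (hC : 1 ≤ C) (hb : PB u g C) {n : ℕ} (hn : 1 ≤ n) :
    KS k n ≤ 2 * C * (n : ℝ) ^ (-g) := by
  obtain ⟨m, rfl⟩ : ∃ m, n = m + 1 := ⟨n - 1, by omega⟩
  have h1 := h.US_mul_KS m
  have h2 : US u (m + 1) ≤ 2 * US u m := by
    rw [RS.US_succ]
    linarith [h.u_le_one (m + 1), h.one_le_US m]
  have h3 := US_lower h hC hb hn
  have hn' : (0 : ℝ) < ((m + 1 : ℕ) : ℝ) := by exact_mod_cast hn
  have hp : 0 < ((m + 1 : ℕ) : ℝ) ^ g := Real.rpow_pos_of_pos hn' g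
  rw [Real.rpow_neg hn'.le, ← div_eq_mul_inv, le_div_iff₀ hp]
  have hC0 : 0 < C := by linarith
  rw [div_le_iff₀ hC0] at h3
  have hK := h.KS_nonneg (m + 1)
  have h4 : ((m + 1 : ℕ) : ℝ) ^ g ≤ 2 * US u m * C := h3.trans (mul_le_mul_of_nonneg_right h2 hC0.le)
  calc KS k (m + 1) * ((m + 1 : ℕ) : ℝ) ^ g ≤ KS k (m + 1) * (2 * US u m * C) :=
        mul_le_mul_of_nonneg_left h4 hK
    _ = 2 * C * (US u m * KS k (m + 1)) := by ring
    _ ≤ 2 * C * 1 := mul_le_mul_of_nonneg_left h1 (by positivity)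
    _ = 2 * C := mul_one _

lemma sum_KS_upper (h : RS u k) {g C : ℝ} (hC : 1 ≤ C) (hb : PB u g C) {M : ℕ} (hM : 1 ≤ M) :
    ∑ n ∈ range M, KS k (n + 1) ≤ 4 * C * (M : ℝ) ^ (1 - g) := by
  have h1 := h.sum_KS hM
  have h2 := US_lower h hC hb hM
  have hM' : (0 : ℝ) < M := by exact_mod_cast hM
  have hp : 0 < (M : ℝ) ^ g := Real.rpow_pos_of_pos hM' g
  have hC0 : 0 < C := by linarith
  refine h1.trans ?_
  have h3 : (M : ℝ) / US u M ≤ M / ((M : ℝ) ^ g / C) :=
    div_le_div_of_nonneg_left hM'.le (by positivity) h2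
  have h4 : (M : ℝ) / ((M : ℝ) ^ g / C) = C * (M : ℝ) ^ (1 - g) := by
    rw [Real.rpow_sub hM', Real.rpow_one]
    field_simp
  rw [h4] at h3
  linarith

/-- existence of a large number with a small power -/
lemma exists_pow_le {e : ℝ} (he : 0 < e) {x : ℝ} (hx : 0 < x) : ∃ L : ℕ, 1 ≤ L ∧ (L : ℝ) ^ (-e) ≤ x := by
  have h1 : Filter.Tendsto (fun L : ℕ => (L : ℝ) ^ (-e)) Filter.atTop (nhds 0) :=
    (tendsto_rpow_neg_atTop he).comp tendsto_natCast_atTop_atTop
  obtain ⟨L, hL1, hL2⟩ := ((Filter.eventually_ge_atTop 1).and (h1.eventually_le_const hx)).exists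
  exact ⟨L, hL1, hL2⟩

/-- lower bound of the tail -/
theorem KS_lower (h : RS u k) {g C : ℝ} (hg0 : 0 < g) (hg1 : g < 1) (hC : 1 ≤ C) (hb : PB u g C) :
    ∃ c : ℝ, 0 < c ∧ ∀ n : ℕ, 1 ≤ n → c * (n : ℝ) ^ (-g) ≤ KS k n := by
  have hC0 : 0 < C := by linarith
  obtain ⟨L, hL1, hL⟩ := exists_pow_le (e := 1 - g) (by linarith) (x := 1 / (8 * C ^ 2)) (by positivity)
  have hL' : (0 : ℝ) < L := by exact_mod_cast hL1
  have hLg : 0 < (L : ℝ) ^ g := Real.rpow_pos_of_pos hL' g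
  obtain ⟨D, hD⟩ : ∃ D : ℝ, D = 2 * ((1 + C / g) * (L : ℝ) ^ g) := ⟨_, rfl⟩
  have hD0 : 0 < D := by rw [hD]; positivity
  have key : ∀ M : ℕ, 1 ≤ M → (M : ℝ) ^ (-g) / D ≤ KS k (M + 1) := by
    intro M hM
    have hM' : (0 : ℝ) < M := by exact_mod_cast hM
    obtain ⟨N, hN⟩ : ∃ N, N + 1 = L * M + M := ⟨L * M + M - 1, by omega⟩
    have h1 := h.renewal N
    rw [hN, Finset.sum_range_add] at h1
    -- the first part
    have h2 : ∑ y ∈ range (L * M), u y * KS k (L * M + M - y) ≤ KS k (M + 1) * US u (L * M) := by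
      unfold US
      rw [Finset.mul_sum, Finset.sum_range_succ]
      have h3 : ∑ y ∈ range (L * M), u y * KS k (L * M + M - y) ≤
          ∑ y ∈ range (L * M), KS k (M + 1) * u y := by
        apply Finset.sum_le_sum
        intro y hy
        rw [Finset.mem_range] at hy
        rw [mul_comm]
        exact mul_le_mul_of_nonneg_right (h.KS_anti (by omega)) (h.pos y).le
      have h4 : 0 ≤ KS k (M + 1) * u (L * M) := mul_nonneg (h.KS_nonneg _) (h.pos _).le
      linarith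
    -- the second part
    have h5 : ∑ y ∈ range M, u (L * M + y) * KS k (L * M + M - (L * M + y)) ≤ 1 / 2 := by
      have h6 : ∑ y ∈ range M, u (L * M + y) * KS k (L * M + M - (L * M + y)) ≤
          u (L * M) * ∑ y ∈ range M, KS k (y + 1) := by
        rw [Finset.mul_sum, ← Finset.sum_range_reflect]
        apply Finset.sum_le_sum
        intro y hy
        rw [Finset.mem_range] at hy
        have e : L * M + M - (L * M + (M - 1 - y)) = y + 1 := by omega
        rw [e]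
        exact mul_le_mul_of_nonneg_right (h.anti (by omega)) (h.KS_nonneg _)
      have h7 := sum_KS_upper h hC hb hM
      have hLM : 1 ≤ L * M := Nat.one_le_iff_ne_zero.2 (Nat.mul_ne_zero (by omega) (by omega))
      have h8 := (hb (L * M) hLM).2
      refine h6.trans ?_
      have h9 : 0 ≤ ∑ y ∈ range M, KS k (y + 1) := Finset.sum_nonneg fun y _ => h.KS_nonneg _
      calc u (L * M) * ∑ y ∈ range M, KS k (y + 1)
          ≤ (C * ((L * M : ℕ) : ℝ) ^ (g - 1)) * (4 * C * (M : ℝ) ^ (1 - g)) :=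
            mul_le_mul h8 h7 h9 (by positivity)
        _ = 4 * C ^ 2 * (L : ℝ) ^ (g - 1) := by
            push_cast
            rw [Real.mul_rpow hL'.le hM'.le]
            have h10 : (M : ℝ) ^ (g - 1) * (M : ℝ) ^ (1 - g) = 1 := by
              rw [← Real.rpow_add hM']
              have : g - 1 + (1 - g) = 0 := by ring
              rw [this, Real.rpow_zero]
            calc C * ((L : ℝ) ^ (g - 1) * (M : ℝ) ^ (g - 1)) * (4 * C * (M : ℝ) ^ (1 - g)) =
                4 * C ^ 2 * (L : ℝ) ^ (g - 1) * ((M : ℝ) ^ (g - 1) * (M : ℝ) ^ (1 - g)) := by ring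
              _ = _ := by rw [h10, mul_one]
        _ ≤ 4 * C ^ 2 * (1 / (8 * C ^ 2)) := by
            apply mul_le_mul_of_nonneg_left _ (by positivity)
            have : g - 1 = -(1 - g) := by ring
            rw [this]
            exact hL
        _ = 1 / 2 := by
            field_simp
            norm_num
    have h11 : 1 / 2 ≤ KS k (M + 1) * US u (L * M) := by linarith
    have h12 : US u (L * M) ≤ (1 + C / g) * ((L * M : ℕ) : ℝ) ^ g :=
      US_upper h hg0 hg1.le hC hb (Nat.one_le_iff_ne_zero.2 (Nat.mul_ne_zero (by omega) (by omega)))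
    have h13 : 1 / 2 ≤ KS k (M + 1) * ((1 + C / g) * ((L * M : ℕ) : ℝ) ^ g) :=
      h11.trans (mul_le_mul_of_nonneg_left h12 (h.KS_nonneg _))
    push_cast at h13
    rw [Real.mul_rpow hL'.le hM'.le] at h13
    have hMg : 0 < (M : ℝ) ^ g := Real.rpow_pos_of_pos hM' g
    rw [Real.rpow_neg hM'.le, div_le_iff₀ hD0, inv_le_iff_one_le_mul₀ hMg, hD]
    calc (1 : ℝ) = 2 * (1 / 2) := by norm_num
      _ ≤ 2 * (KS k (M + 1) * ((1 + C / g) * ((L : ℝ) ^ g * (M : ℝ) ^ g))) :=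
          mul_le_mul_of_nonneg_left h13 (by norm_num)
      _ = _ := by ring
  refine ⟨min 1 (1 / D), by positivity, fun n hn => ?_⟩
  rcases Nat.eq_or_lt_of_le hn with h1 | h1
  · rw [← h1, h.KS_one]
    push_cast
    rw [Real.one_rpow, mul_one]
    exact min_le_left _ _
  · obtain ⟨M, rfl⟩ : ∃ M, n = M + 1 := ⟨n - 1, by omega⟩
    have hM : 1 ≤ M := by omega
    have hM' : (0 : ℝ) < M := by exact_mod_cast hM
    refine le_trans ?_ (key M hM)
    have h2 : ((M + 1 : ℕ) : ℝ) ^ (-g) ≤ (M : ℝ) ^ (-g) := by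
      apply Real.rpow_le_rpow_of_nonpos hM'
      · push_cast
        linarith
      · linarith
    calc min 1 (1 / D) * ((M + 1 : ℕ) : ℝ) ^ (-g) ≤ 1 / D * (M : ℝ) ^ (-g) := by
          apply mul_le_mul (min_le_right _ _) h2 (by positivity) (by positivity)
      _ = (M : ℝ) ^ (-g) / D := by ring

/-- a positive part of the tail sits in the window [n, L n) -/
theorem KS_window (h : RS u k) {g C : ℝ} (hg0 : 0 < g) (hg1 : g < 1) (hC : 1 ≤ C) (hb : PB u g C) :
    ∃ (L : ℕ) (c : ℝ), 1 ≤ L ∧ 0 < c ∧ ∀ n : ℕ, 1 ≤ n → c * (n : ℝ) ^ (-g) ≤ KS k n - KS k (L * n) := by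
  obtain ⟨c, hc, hlow⟩ := KS_lower h hg0 hg1 hC hb
  have hC0 : 0 < C := by linarith
  obtain ⟨L, hL1, hL⟩ := exists_pow_le (e := g) hg0 (x := c / (4 * C)) (by positivity)
  have hL' : (0 : ℝ) < L := by exact_mod_cast hL1
  refine ⟨L, c / 2, hL1, by positivity, fun n hn => ?_⟩
  have hn' : (0 : ℝ) < n := by exact_mod_cast hn
  have h1 := hlow n hn
  have h2 := KS_upper h hC hb (n := L * n) (Nat.one_le_iff_ne_zero.2 (Nat.mul_ne_zero (by omega) (by omega)))
  push_cast at h2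
  rw [Real.mul_rpow hL'.le hn'.le] at h2
  have hp : 0 < (n : ℝ) ^ (-g) := Real.rpow_pos_of_pos hn' _
  have h3 : 2 * C * ((L : ℝ) ^ (-g) * (n : ℝ) ^ (-g)) ≤ c / 2 * (n : ℝ) ^ (-g) := by
    calc 2 * C * ((L : ℝ) ^ (-g) * (n : ℝ) ^ (-g)) = (2 * C * (n : ℝ) ^ (-g)) * (L : ℝ) ^ (-g) := by ring
      _ ≤ (2 * C * (n : ℝ) ^ (-g)) * (c / (4 * C)) := mul_le_mul_of_nonneg_left hL (by positivity)
      _ = c / 2 * (n : ℝ) ^ (-g) := by
          field_simp
          ring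
  have h4 : c / 2 * (n : ℝ) ^ (-g) = c * (n : ℝ) ^ (-g) - c / 2 * (n : ℝ) ^ (-g) := by ring
  linarith

lemma KS_sub (a b : ℕ) (hab : a ≤ b) : KS k a - KS k b = ∑ r ∈ Ico a b, k r := by
  unfold KS
  have := Finset.sum_range_add_sum_Ico k hab
  linarith

/-- truncated means of k: lower bound -/
theorem mean_lower (h : RS u k) {g C : ℝ} (hg0 : 0 < g) (hg1 : g < 1) (hC : 1 ≤ C) (hb : PB u g C) :
    ∃ c : ℝ, 0 < c ∧ ∀ R : ℕ, 1 ≤ R → c * (R : ℝ) ^ (1 - g) ≤ ∑ r ∈ range (R + 1), r * k r := by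
  obtain ⟨L, c, hL1, hc, hw⟩ := KS_window h hg0 hg1 hC hb
  have hk1 : 0 < k 1 := by
    have h1 := h.ren (T := 1) le_rfl
    simp only [Finset.Icc_self, Finset.sum_singleton, Nat.sub_self, h.u0, mul_one] at h1
    rw [← h1]
    exact h.pos 1
  have hL' : (0 : ℝ) < L := by exact_mod_cast hL1
  have hLg : 0 < (2 * (L : ℝ)) ^ (1 - g) := by positivity
  have hmono : ∀ {a b : ℕ}, a ≤ b → ∑ r ∈ range a, (r : ℝ) * k r ≤ ∑ r ∈ range b, (r : ℝ) * k r := by
    intro a b hab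
    apply Finset.sum_le_sum_of_subset_of_nonneg (Finset.range_mono hab)
    intro i _ _
    exact mul_nonneg (Nat.cast_nonneg i) (h.kn i)
  refine ⟨min c (k 1) / (2 * (L : ℝ)) ^ (1 - g), by positivity, fun R hR => ?_⟩
  have hR' : (1 : ℝ) ≤ R := by exact_mod_cast hR
  rcases Nat.lt_or_ge R L with hRL | hRL
  · have h1 : k 1 ≤ ∑ r ∈ range (R + 1), (r : ℝ) * k r := by
      have h2 := hmono (show 2 ≤ R + 1 by omega)
      have h3 : ∑ r ∈ range 2, (r : ℝ) * k r = k 1 := by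
        simp [Finset.sum_range_succ]
      linarith
    refine le_trans ?_ h1
    have h4 : (R : ℝ) ^ (1 - g) ≤ (2 * (L : ℝ)) ^ (1 - g) := by
      apply Real.rpow_le_rpow (by linarith) _ (by linarith)
      have : (R : ℝ) ≤ L := by exact_mod_cast hRL.le
      linarith
    rw [div_mul_eq_mul_div, div_le_iff₀ hLg]
    exact mul_le_mul (min_le_right _ _) h4 (by positivity) hk1.le
  · -- n = R / L
    obtain ⟨n, hn⟩ : ∃ n, n = R / L := ⟨_, rfl⟩
    have hn1 : 1 ≤ n := by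
      rw [hn]
      exact Nat.div_pos hRL (by omega)
    have hn2 : L * n ≤ R := by
      rw [hn]
      exact Nat.mul_div_le R L
    have hn3 : R < L * (n + 1) := by
      rw [hn]
      exact Nat.lt_mul_div_succ R (by omega)
    have hn' : (1 : ℝ) ≤ n := by exact_mod_cast hn1
    have h1 : (n : ℝ) * (KS k n - KS k (L * n)) ≤ ∑ r ∈ range (R + 1), (r : ℝ) * k r := by
      have hab : n ≤ L * n := Nat.le_mul_of_pos_left n (by omega)
      rw [KS_sub n (L * n) hab, Finset.mul_sum]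
      calc ∑ r ∈ Ico n (L * n), (n : ℝ) * k r ≤ ∑ r ∈ Ico n (L * n), (r : ℝ) * k r := by
            apply Finset.sum_le_sum
            intro r hr
            rw [Finset.mem_Ico] at hr
            have : (n : ℝ) ≤ r := by exact_mod_cast hr.1
            exact mul_le_mul_of_nonneg_right this (h.kn r)
        _ ≤ ∑ r ∈ range (R + 1), (r : ℝ) * k r := by
            apply Finset.sum_le_sum_of_subset_of_nonneg
            · intro r hr
              rw [Finset.mem_Ico] at hr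
              rw [Finset.mem_range]
              omega
            · intro i _ _
              exact mul_nonneg (Nat.cast_nonneg i) (h.kn i)
    have h2 := hw n hn1
    have hn0 : (0 : ℝ) < n := by linarith
    have h3 : c * (n : ℝ) ^ (1 - g) ≤ ∑ r ∈ range (R + 1), (r : ℝ) * k r := by
      refine le_trans ?_ h1
      have h4 : (n : ℝ) ^ (1 - g) = n * (n : ℝ) ^ (-g) := by
        rw [show (1 : ℝ) - g = 1 + -g by ring, Real.rpow_add hn0, Real.rpow_one]
      rw [h4]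
      calc c * ((n : ℝ) * (n : ℝ) ^ (-g)) = n * (c * (n : ℝ) ^ (-g)) := by ring
        _ ≤ _ := mul_le_mul_of_nonneg_left h2 hn0.le
    refine le_trans ?_ h3
    have h5 : (R : ℝ) ≤ 2 * L * n := by
      have h6 : (R : ℝ) < L * (n + 1) := by exact_mod_cast hn3
      have h7 : (L : ℝ) * 1 ≤ L * n := mul_le_mul_of_nonneg_left hn' hL'.le
      linarith
    have h8 : (R : ℝ) ^ (1 - g) ≤ (2 * (L : ℝ)) ^ (1 - g) * (n : ℝ) ^ (1 - g) := by
      rw [← Real.mul_rpow (by positivity) hn0.le]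
      exact Real.rpow_le_rpow (by linarith) h5 (by linarith)
    rw [div_mul_eq_mul_div, div_le_iff₀ hLg]
    calc min c (k 1) * (R : ℝ) ^ (1 - g) ≤ c * ((2 * (L : ℝ)) ^ (1 - g) * (n : ℝ) ^ (1 - g)) :=
          mul_le_mul (min_le_left _ _) h8 (by positivity) hc.le
      _ = _ := by ring

/-- truncated means of k: upper bound -/
theorem mean_upper (h : RS u k) {g C : ℝ} (hC : 1 ≤ C) (hb : PB u g C) {R : ℕ} (hR : 1 ≤ R) :
    ∑ r ∈ range (R + 1), r * k r ≤ 3 * C * (R : ℝ) ^ (1 - g) := by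
  have h1 := h.sum_mul_k hR
  have h2 := US_lower h hC hb hR
  have hR' : (0 : ℝ) < R := by exact_mod_cast hR
  have hp : 0 < (R : ℝ) ^ g := Real.rpow_pos_of_pos hR' g
  have hC0 : 0 < C := by linarith
  refine h1.trans ?_
  have h3 : (R : ℝ) / US u R ≤ R / ((R : ℝ) ^ g / C) :=
    div_le_div_of_nonneg_left hR'.le (by positivity) h2
  have h4 : (R : ℝ) / ((R : ℝ) ^ g / C) = C * (R : ℝ) ^ (1 - g) := by
    rw [Real.rpow_sub hR', Real.rpow_one]
    field_simp
  rw [h4] at h3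
  linarith

end CutR

end HexObs
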