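import Pool.Agent.EXP.CutPow

/-!
EXP: renewal sequences with power bounds, part 3: the number of pieces of a chain of total height T.
-/

set_option autoImplicit false

namespace HexObs

namespace CutR

open Finset

variable {u k : ℕ → ℝ}

/-- two-fold convolution -/
lemma conv_upper (h : RS u k) {g C : ℝ} (hg0 : 0 < g) (hg1 : g < 1) (hC : 1 ≤ C) (hb : PB u g C) {t : ℕ}
    (ht : 1 ≤ t) : ∑ j ∈ range (t + 1), u j * u (t - j) ≤ 4 * C * (1 + C / g) * (t : ℝ) ^ (2 * g - 1) := by
  have ht' : (0 : ℝ) < t := by exact_mod_cast ht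
  obtain ⟨a, ha⟩ : ∃ a, a = (t + 1) / 2 := ⟨_, rfl⟩
  have ha1 : 1 ≤ a := by omega
  have h1 : ∀ j ∈ range (t + 1), u j * u (t - j) ≤ u a * u j + u a * u (t - j) := by
    intro j hj
    rw [Finset.mem_range] at hj
    rcases Nat.lt_or_ge j a with hja | hja
    · have h2 : u (t - j) ≤ u a := h.anti (by omega)
      have h3 := mul_le_mul_of_nonneg_right h2 (h.pos j).le
      have h4 := mul_nonneg (h.pos a).le (h.pos (t - j)).le
      linarith [mul_comm (u j) (u (t - j))]
    · have h2 : u j ≤ u a := h.anti hja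
      have h3 := mul_le_mul_of_nonneg_right h2 (h.pos (t - j)).le
      have h4 := mul_nonneg (h.pos a).le (h.pos j).le
      linarith
  have h2 : ∑ j ∈ range (t + 1), u (t - j) = US u t := by
    unfold US
    rw [← Finset.sum_range_reflect]
    apply Finset.sum_congr rfl
    intro j hj
    rw [Finset.mem_range] at hj
    congr 1
    omega
  have h3 : ∑ j ∈ range (t + 1), u j * u (t - j) ≤ 2 * (u a * US u t) := by
    refine (Finset.sum_le_sum h1).trans (le_of_eq ?_)
    rw [Finset.sum_add_distrib, ← Finset.mul_sum, ← Finset.mul_sum, h2]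
    unfold US
    ring
  have h4 := US_upper h hg0 hg1.le hC hb ht
  have h5 := (hb a ha1).2
  have ha' : (0 : ℝ) < a := by exact_mod_cast ha1
  have h6 : (a : ℝ) ^ (g - 1) ≤ 2 * (t : ℝ) ^ (g - 1) := by
    have h7 : (t : ℝ) / 2 ≤ a := by
      have : t ≤ 2 * a := by omega
      have : (t : ℝ) ≤ 2 * a := by exact_mod_cast this
      linarith
    have h8 : (a : ℝ) ^ (g - 1) ≤ ((t : ℝ) / 2) ^ (g - 1) :=
      Real.rpow_le_rpow_of_nonpos (by positivity) h7 (by linarith)
    have h9 : ((t : ℝ) / 2) ^ (g - 1) = (2 : ℝ) ^ (1 - g) * (t : ℝ) ^ (g - 1) := by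
      rw [div_eq_mul_inv, Real.mul_rpow ht'.le (by norm_num), Real.inv_rpow (by norm_num),
        ← Real.rpow_neg (by norm_num), mul_comm]
      congr 2
      ring
    have h10 : (2 : ℝ) ^ (1 - g) ≤ (2 : ℝ) ^ (1 : ℝ) :=
      Real.rpow_le_rpow_of_exponent_le (by norm_num) (by linarith)
    rw [Real.rpow_one] at h10
    rw [h9] at h8
    exact h8.trans (mul_le_mul_of_nonneg_right h10 (by positivity))
  have h11 : (t : ℝ) ^ (2 * g - 1) = (t : ℝ) ^ (g - 1) * (t : ℝ) ^ g := by
    rw [← Real.rpow_add ht']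
    congr 1
    ring
  have hU := (h.US_pos t).le
  calc ∑ j ∈ range (t + 1), u j * u (t - j) ≤ 2 * (u a * US u t) := h3
    _ ≤ 2 * ((C * (2 * (t : ℝ) ^ (g - 1))) * ((1 + C / g) * (t : ℝ) ^ g)) := by
        apply mul_le_mul_of_nonneg_left _ (by norm_num)
        apply mul_le_mul _ h4 hU (by positivity)
        exact h5.trans (mul_le_mul_of_nonneg_left h6 (by linarith))
    _ = _ := by rw [h11]; ring

/-- few pieces are unlikely -/
theorem aw_upper (h : RS u k) {g C : ℝ} (hg0 : 1 / 2 < g) (hg1 : g < 1) (hC : 1 ≤ C) (hb : PB u g C) :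
    ∃ D : ℝ, 0 < D ∧ ∀ m T : ℕ, 1 ≤ T →
      aw k m T ≤ D * (((m : ℝ) + 1) / (T : ℝ) ^ g) ^ ((2 * g - 1) / g) * u T := by
  have hgp : 0 < g := by linarith
  have hC0 : 0 < C := by linarith
  obtain ⟨e, he⟩ : ∃ e : ℝ, e = (2 * g - 1) / g := ⟨_, rfl⟩
  have he0 : 0 < e := by
    rw [he]
    exact div_pos (by linarith) hgp
  have he1 : e ≤ 1 := by
    rw [he, div_le_one hgp]
    linarith
  have hge : g * e = 2 * g - 1 := by
    rw [he]
    field_simp
  rw [← he]
  obtain ⟨B, hB⟩ : ∃ B : ℝ, B = 4 * C * (1 + C / g) := ⟨_, rfl⟩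
  have hB1 : 1 ≤ B := by
    rw [hB]
    have h1 : 0 ≤ C / g := by positivity
    nlinarith
  refine ⟨8 + 200 * C ^ 3 * B, by positivity, fun m T hT => ?_⟩
  have hT' : (1 : ℝ) ≤ T := by exact_mod_cast hT
  have hT0 : (0 : ℝ) < T := by linarith
  obtain ⟨M, hM⟩ : ∃ M : ℝ, M = (m : ℝ) + 1 := ⟨_, rfl⟩
  have hM1 : 1 ≤ M := by
    rw [hM]
    have : (0 : ℝ) ≤ m := Nat.cast_nonneg m
    linarith
  have hM0 : 0 < M := by linarith
  rw [← hM]
  obtain ⟨q, hq⟩ : ∃ q, q = ⌊M ^ (1 / g)⌋₊ := ⟨_, rfl⟩
  have hMg : 1 ≤ M ^ (1 / g) := Real.one_le_rpow hM1 (by positivity)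
  have hq1 : 1 ≤ q := by
    rw [hq]
    exact Nat.one_le_floor_iff _ |>.2 hMg
  have hq0 : (0 : ℝ) < q := by exact_mod_cast hq1
  have hq2 : (q : ℝ) ≤ M ^ (1 / g) := by
    rw [hq]
    exact Nat.floor_le (by positivity)
  have hq3 : M ^ (1 / g) ≤ 2 * q := by
    have h1 : M ^ (1 / g) < q + 1 := by
      rw [hq]
      exact Nat.lt_floor_add_one _
    have h2 : (1 : ℝ) ≤ q := by exact_mod_cast hq1
    linarith
  have hMM : (M ^ (1 / g)) ^ g = M := by
    rw [← Real.rpow_mul hM0.le, one_div_mul_cancel hgp.ne', Real.rpow_one]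
  have hqg : (q : ℝ) ^ g ≤ M := by
    have h1 := Real.rpow_le_rpow hq0.le hq2 hgp.le
    rwa [hMM] at h1
  have hMq : M ≤ (2 * (q : ℝ)) ^ g := by
    have h1 := Real.rpow_le_rpow (by positivity) hq3 hgp.le
    rwa [hMM] at h1
  have hTg : 0 < (T : ℝ) ^ g := Real.rpow_pos_of_pos hT0 g
  have hx0 : 0 < M / (T : ℝ) ^ g := by positivity
  have hTe : ((T : ℝ) ^ g) ^ e = (T : ℝ) ^ (2 * g - 1) := by
    rw [← Real.rpow_mul hT0.le, hge]
  rcases Nat.lt_or_ge T (8 * q) with hqT | hqT
  · -- trivial case
    have h1 : (1 : ℝ) / 8 ≤ (M / (T : ℝ) ^ g) ^ e := by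
      have h2 : (T : ℝ) ≤ 8 * q := by exact_mod_cast hqT.le
      have h3 : (T : ℝ) ^ g ≤ (8 : ℝ) ^ g * (q : ℝ) ^ g := by
        rw [← Real.mul_rpow (by norm_num) hq0.le]
        exact Real.rpow_le_rpow hT0.le h2 hgp.le
      have h4 : ((8 : ℝ) ^ g)⁻¹ ≤ M / (T : ℝ) ^ g := by
        rw [le_div_iff₀ hTg, inv_mul_le_iff₀ (by positivity)]
        exact h3.trans (mul_le_mul_of_nonneg_left hqg (by positivity))
      have h5 : (((8 : ℝ) ^ g)⁻¹) ^ e ≤ (M / (T : ℝ) ^ g) ^ e := Real.rpow_le_rpow (by positivity) h4 he0.le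
      refine le_trans ?_ h5
      rw [Real.inv_rpow (by positivity), ← Real.rpow_mul (by norm_num), hge, one_div]
      apply inv_anti₀ (by positivity)
      calc (8 : ℝ) ^ (2 * g - 1) ≤ (8 : ℝ) ^ (1 : ℝ) :=
            Real.rpow_le_rpow_of_exponent_le (by norm_num) (by linarith)
        _ = 8 := Real.rpow_one 8
    have h2 := aw_le h m T
    have h3 := (h.pos T).le
    have h4 : 1 ≤ (8 + 200 * C ^ 3 * B) * (M / (T : ℝ) ^ g) ^ e := by
      have h5 : 0 ≤ 200 * C ^ 3 * B := by positivity
      have h6 : 0 < (M / (T : ℝ) ^ g) ^ e := Real.rpow_pos_of_pos hx0 e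
      nlinarith
    calc aw k m T ≤ u T := h2
      _ = 1 * u T := (one_mul _).symm
      _ ≤ _ := mul_le_mul_of_nonneg_right h4 h3
  · -- main case
    obtain ⟨w, hw⟩ : ∃ w, w = T / 4 := ⟨_, rfl⟩
    have hw1 : 1 ≤ w := by omega
    have hqw : q ≤ w := by omega
    have hw4 : 4 * w ≤ T := by omega
    have hw8 : T ≤ 8 * w := by omega
    have hw0 : (0 : ℝ) < w := by exact_mod_cast hw1
    have hw8' : (T : ℝ) ≤ 8 * w := by exact_mod_cast hw8
    have hwinv : (w : ℝ) ^ (-g) ≤ 8 * (T : ℝ) ^ (-g) := by
      have h1 : (T : ℝ) / 8 ≤ w := by linarith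
      have h2 : (w : ℝ) ^ (-g) ≤ ((T : ℝ) / 8) ^ (-g) :=
        Real.rpow_le_rpow_of_nonpos (by positivity) h1 (by linarith)
      have h3 : ((T : ℝ) / 8) ^ (-g) = (8 : ℝ) ^ g * (T : ℝ) ^ (-g) := by
        rw [Real.div_rpow hT0.le (by norm_num), Real.rpow_neg (by norm_num : (0 : ℝ) ≤ 8), div_inv_eq_mul, mul_comm]
      have h4 : (8 : ℝ) ^ g ≤ 8 := by
        calc (8 : ℝ) ^ g ≤ (8 : ℝ) ^ (1 : ℝ) := Real.rpow_le_rpow_of_exponent_le (by norm_num) hg1.le
          _ = 8 := Real.rpow_one 8
      rw [h3] at h2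
      exact h2.trans (mul_le_mul_of_nonneg_right h4 (by positivity))
    obtain ⟨X, hX⟩ : ∃ X : ℝ, X = (q : ℝ) ^ (2 * g - 1) * (T : ℝ) ^ (-g) := ⟨_, rfl⟩
    have hX0 : 0 < X := by rw [hX]; positivity
    have hu_q : u q ≤ C * (q : ℝ) ^ (g - 1) := (hb q hq1).2
    have hKw : KS k w ≤ 16 * C * (T : ℝ) ^ (-g) := by
      have h1 := KS_upper h hC hb hw1
      calc KS k w ≤ 2 * C * (w : ℝ) ^ (-g) := h1
        _ ≤ 2 * C * (8 * (T : ℝ) ^ (-g)) := mul_le_mul_of_nonneg_left hwinv (by positivity)
        _ = _ := by ring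
    have hqM : (q : ℝ) ^ (g - 1) * M ≤ 2 * (q : ℝ) ^ (2 * g - 1) := by
      have h1 : (2 * (q : ℝ)) ^ g ≤ 2 * (q : ℝ) ^ g := by
        rw [Real.mul_rpow (by norm_num) hq0.le]
        apply mul_le_mul_of_nonneg_right _ (by positivity)
        calc (2 : ℝ) ^ g ≤ (2 : ℝ) ^ (1 : ℝ) := Real.rpow_le_rpow_of_exponent_le (by norm_num) hg1.le
          _ = 2 := Real.rpow_one 2
      calc (q : ℝ) ^ (g - 1) * M ≤ (q : ℝ) ^ (g - 1) * (2 * (q : ℝ) ^ g) :=
            mul_le_mul_of_nonneg_left (hMq.trans h1) (by positivity)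
        _ = 2 * ((q : ℝ) ^ (g - 1) * (q : ℝ) ^ g) := by ring
        _ = 2 * (q : ℝ) ^ (2 * g - 1) := by
            rw [← Real.rpow_add hq0]
            congr 2
            ring
    -- the decomposition
    have h0 := aw_split h m (x := 2 * w) (T := T) (by omega)
    have e1 : Ioc (2 * w) T = (Ioc (2 * w) (T - w) ∪ Ioc (T - w) (T - q)) ∪ Ioc (T - q) T := by
      ext y
      simp only [Finset.mem_union, Finset.mem_Ioc]
      omega
    have d1 : Disjoint (Ioc (2 * w) (T - w) ∪ Ioc (T - w) (T - q)) (Ioc (T - q) T) := by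
      rw [Finset.disjoint_left]
      intro y hy1 hy2
      simp only [Finset.mem_union, Finset.mem_Ioc] at hy1 hy2
      omega
    have d2 : Disjoint (Ioc (2 * w) (T - w)) (Ioc (T - w) (T - q)) := by
      rw [Finset.disjoint_left]
      intro y hy1 hy2
      simp only [Finset.mem_Ioc] at hy1 hy2
      omega
    rw [e1] at h0
    have h1 : ∑ j ∈ range (2 * w + 1), aw k m j * ∑ y ∈ (Ioc (2 * w) (T - w) ∪ Ioc (T - w) (T - q)) ∪
          Ioc (T - q) T, k (y - j) * aw k m (T - y) =
        ∑ j ∈ range (2 * w + 1), aw k m j * ∑ y ∈ Ioc (2 * w) (T - w), k (y - j) * aw k m (T - y) +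
        ∑ j ∈ range (2 * w + 1), aw k m j * ∑ y ∈ Ioc (T - w) (T - q), k (y - j) * aw k m (T - y) +
        ∑ j ∈ range (2 * w + 1), aw k m j * ∑ y ∈ Ioc (T - q) T, k (y - j) * aw k m (T - y) := by
      rw [← Finset.sum_add_distrib, ← Finset.sum_add_distrib]
      apply Finset.sum_congr rfl
      intro j _
      rw [Finset.sum_union d1, Finset.sum_union d2]
      ring
    rw [h1] at h0
    -- sums of k over shifted windows
    have hwin : ∀ j a b : ℕ, j ≤ a → a ≤ b → ∑ y ∈ Ioc a b, k (y - j) ≤ KS k (a + 1 - j) := by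
      intro j a b hja hab
      have e : ∑ y ∈ Ioc a b, k (y - j) = ∑ r ∈ Ico (a + 1 - j) (b + 1 - j), k r := by
        apply Finset.sum_bij' (fun y _ => y - j) (fun r _ => r + j)
        · intro y hy
          rw [Finset.mem_Ioc] at hy
          rw [Finset.mem_Ico]
          omega
        · intro r hr
          rw [Finset.mem_Ico] at hr
          rw [Finset.mem_Ioc]
          omega
        · intro y hy
          rw [Finset.mem_Ioc] at hy
          omega
        · intro r hr
          omega
        · intro y hy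
          rfl
      rw [e, ← KS_sub _ _ (by omega)]
      linarith [h.KS_nonneg (b + 1 - j)]
    -- part 1
    have p1 : ∑ j ∈ range (2 * w + 1), aw k m j * ∑ y ∈ Ioc (2 * w) (T - w), k (y - j) * aw k m (T - y) ≤
        32 * C ^ 2 * M * (T : ℝ)⁻¹ := by
      have h2 : ∀ j ∈ range (2 * w + 1), aw k m j * ∑ y ∈ Ioc (2 * w) (T - w), k (y - j) * aw k m (T - y) ≤
          u w * (aw k m j * KS k (2 * w + 1 - j)) := by
        intro j hj
        rw [Finset.mem_range] at hj
        have h3 : ∑ y ∈ Ioc (2 * w) (T - w), k (y - j) * aw k m (T - y) ≤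
            u w * KS k (2 * w + 1 - j) := by
          calc ∑ y ∈ Ioc (2 * w) (T - w), k (y - j) * aw k m (T - y) ≤
              ∑ y ∈ Ioc (2 * w) (T - w), u w * k (y - j) := by
                apply Finset.sum_le_sum
                intro y hy
                rw [Finset.mem_Ioc] at hy
                rw [mul_comm]
                exact mul_le_mul_of_nonneg_right ((aw_le h m _).trans (h.anti (by omega))) (h.kn _)
            _ = u w * ∑ y ∈ Ioc (2 * w) (T - w), k (y - j) := by rw [Finset.mul_sum]
            _ ≤ _ := mul_le_mul_of_nonneg_left (hwin j (2 * w) (T - w) (by omega) (by omega)) (h.pos w).le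
        calc aw k m j * ∑ y ∈ Ioc (2 * w) (T - w), k (y - j) * aw k m (T - y) ≤
            aw k m j * (u w * KS k (2 * w + 1 - j)) := mul_le_mul_of_nonneg_left h3 (aw_nonneg h.kn m j)
          _ = _ := by ring
      refine (Finset.sum_le_sum h2).trans ?_
      rw [← Finset.mul_sum, aw_pass h]
      have h4 := dw_lower h (x := 2 * w) (by omega) (m + 1)
      have h5 : (w : ℝ) ^ g / C ≤ US u (2 * w) := (US_lower h hC hb hw1).trans (h.US_mono (by omega))
      have hwg : 0 < (w : ℝ) ^ g := Real.rpow_pos_of_pos hw0 g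
      have h6 : 1 - dw k (m + 1) (2 * w) ≤ 4 * M * C / (w : ℝ) ^ g := by
        have h7 : 4 * ((m + 1 : ℕ) : ℝ) / US u (2 * w) ≤ 4 * M * C / (w : ℝ) ^ g := by
          push_cast
          rw [← hM]
          calc 4 * M / US u (2 * w) ≤ 4 * M / ((w : ℝ) ^ g / C) :=
                div_le_div_of_nonneg_left (by positivity) (by positivity) h5
            _ = 4 * M * C / (w : ℝ) ^ g := by
                field_simp
        linarith
      have h8 := (hb w hw1).2
      have h9 : 0 ≤ 1 - dw k (m + 1) (2 * w) := by linarith [dw_le_one h (m + 1) (2 * w)]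
      calc u w * (1 - dw k (m + 1) (2 * w)) ≤ (C * (w : ℝ) ^ (g - 1)) * (4 * M * C / (w : ℝ) ^ g) :=
            mul_le_mul h8 h6 h9 (by positivity)
        _ = 4 * C ^ 2 * M * (w : ℝ)⁻¹ := by
            rw [Real.rpow_sub hw0, Real.rpow_one]
            field_simp
        _ ≤ 4 * C ^ 2 * M * (8 * (T : ℝ)⁻¹) := by
            apply mul_le_mul_of_nonneg_left _ (by positivity)
            rw [inv_le_iff_one_le_mul₀ hw0]
            calc (1 : ℝ) = (T : ℝ)⁻¹ * T := (inv_mul_cancel₀ hT0.ne').symm
              _ ≤ (T : ℝ)⁻¹ * (8 * w) := mul_le_mul_of_nonneg_left hw8' (by positivity)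
              _ = 8 * (T : ℝ)⁻¹ * w := by ring
        _ = _ := by ring
    -- part 2
    have p2 : ∑ j ∈ range (2 * w + 1), aw k m j * ∑ y ∈ Ioc (T - w) (T - q), k (y - j) * aw k m (T - y) ≤
        32 * C ^ 2 * X := by
      have h2 : ∀ j ∈ range (2 * w + 1), aw k m j * ∑ y ∈ Ioc (T - w) (T - q), k (y - j) * aw k m (T - y) ≤
          aw k m j * (u q * KS k w) := by
        intro j hj
        rw [Finset.mem_range] at hj
        apply mul_le_mul_of_nonneg_left _ (aw_nonneg h.kn m j)
        calc ∑ y ∈ Ioc (T - w) (T - q), k (y - j) * aw k m (T - y) ≤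
            ∑ y ∈ Ioc (T - w) (T - q), u q * k (y - j) := by
              apply Finset.sum_le_sum
              intro y hy
              rw [Finset.mem_Ioc] at hy
              rw [mul_comm]
              exact mul_le_mul_of_nonneg_right ((aw_le h m _).trans (h.anti (by omega))) (h.kn _)
          _ = u q * ∑ y ∈ Ioc (T - w) (T - q), k (y - j) := by rw [Finset.mul_sum]
          _ ≤ u q * KS k (T - w + 1 - j) :=
              mul_le_mul_of_nonneg_left (hwin j (T - w) (T - q) (by omega) (by omega)) (h.pos q).le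
          _ ≤ u q * KS k w := mul_le_mul_of_nonneg_left (h.KS_anti (by omega)) (h.pos q).le
      refine (Finset.sum_le_sum h2).trans ?_
      rw [← Finset.sum_mul]
      have h3 := aw_mass h m (2 * w)
      rw [← hM] at h3
      calc (∑ j ∈ range (2 * w + 1), aw k m j) * (u q * KS k w) ≤
          M * ((C * (q : ℝ) ^ (g - 1)) * (16 * C * (T : ℝ) ^ (-g))) :=
            mul_le_mul h3 (mul_le_mul hu_q hKw (h.KS_nonneg _) (by positivity))
              (mul_nonneg (h.pos q).le (h.KS_nonneg _)) hM0.le
        _ = 16 * C ^ 2 * (T : ℝ) ^ (-g) * ((q : ℝ) ^ (g - 1) * M) := by ring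
        _ ≤ 16 * C ^ 2 * (T : ℝ) ^ (-g) * (2 * (q : ℝ) ^ (2 * g - 1)) :=
            mul_le_mul_of_nonneg_left hqM (by positivity)
        _ = _ := by rw [hX]; ring
    -- part 3
    have p3 : ∑ j ∈ range (2 * w + 1), aw k m j * ∑ y ∈ Ioc (T - q) T, k (y - j) * aw k m (T - y) ≤
        ∑ j ∈ range (2 * w + 1), u j * ∑ s ∈ range q, k (T - s - j) * u s := by
      apply Finset.sum_le_sum
      intro j _
      have h2 : ∑ y ∈ Ioc (T - q) T, k (y - j) * aw k m (T - y) ≤ ∑ s ∈ range q, k (T - s - j) * u s := by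
        have h3 : ∑ y ∈ Ioc (T - q) T, k (y - j) * aw k m (T - y) =
            ∑ s ∈ range q, k (T - s - j) * aw k m s := by
          apply Finset.sum_bij' (fun y _ => T - y) (fun s _ => T - s)
          · intro y hy
            rw [Finset.mem_Ioc] at hy
            rw [Finset.mem_range]
            omega
          · intro s hs
            rw [Finset.mem_range] at hs
            rw [Finset.mem_Ioc]
            omega
          · intro y hy
            rw [Finset.mem_Ioc] at hy
            omega
          · intro s hs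
            rw [Finset.mem_range] at hs
            omega
          · intro y hy
            rw [Finset.mem_Ioc] at hy
            have : T - (T - y) = y := by omega
            rw [this]
        rw [h3]
        apply Finset.sum_le_sum
        intro s _
        exact mul_le_mul_of_nonneg_left (aw_le h m s) (h.kn _)
      exact mul_le_mul (aw_le h m j) h2
        (Finset.sum_nonneg fun y _ => mul_nonneg (h.kn _) (aw_nonneg h.kn m _)) (h.pos j).le
    -- part 3 split at j = q
    have e2 : range (2 * w + 1) = range q ∪ Ico q (2 * w + 1) := by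
      ext y
      simp only [Finset.mem_union, Finset.mem_range, Finset.mem_Ico]
      omega
    have d3 : Disjoint (range q) (Ico q (2 * w + 1)) := by
      rw [Finset.disjoint_left]
      intro y hy1 hy2
      rw [Finset.mem_range] at hy1
      rw [Finset.mem_Ico] at hy2
      omega
    have p3b : ∑ j ∈ Ico q (2 * w + 1), u j * ∑ s ∈ range q, k (T - s - j) * u s ≤ 8 * C * B * X := by
      have h2 : ∑ j ∈ Ico q (2 * w + 1), u j * ∑ s ∈ range q, k (T - s - j) * u s ≤
          u q * ∑ s ∈ range q, u s * ∑ j ∈ Ico q (2 * w + 1), k (T - s - j) := by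
        calc ∑ j ∈ Ico q (2 * w + 1), u j * ∑ s ∈ range q, k (T - s - j) * u s ≤
            ∑ j ∈ Ico q (2 * w + 1), u q * ∑ s ∈ range q, k (T - s - j) * u s := by
              apply Finset.sum_le_sum
              intro j hj
              rw [Finset.mem_Ico] at hj
              exact mul_le_mul_of_nonneg_right (h.anti hj.1)
                (Finset.sum_nonneg fun s _ => mul_nonneg (h.kn _) (h.pos s).le)
          _ = u q * ∑ s ∈ range q, u s * ∑ j ∈ Ico q (2 * w + 1), k (T - s - j) := by
              rw [← Finset.mul_sum, Finset.sum_comm]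
              congr 1
              apply Finset.sum_congr rfl
              intro s _
              rw [Finset.mul_sum]
              apply Finset.sum_congr rfl
              intro j _
              ring
      have h3 : ∀ s ∈ range q, u s * ∑ j ∈ Ico q (2 * w + 1), k (T - s - j) ≤ u s * KS k w := by
        intro s hs
        rw [Finset.mem_range] at hs
        apply mul_le_mul_of_nonneg_left _ (h.pos s).le
        have e : ∑ j ∈ Ico q (2 * w + 1), k (T - s - j) = ∑ r ∈ Ico (T - s - 2 * w) (T - s - q + 1), k r := by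
          apply Finset.sum_bij' (fun j _ => T - s - j) (fun r _ => T - s - r)
          · intro j hj
            rw [Finset.mem_Ico] at hj ⊢
            omega
          · intro r hr
            rw [Finset.mem_Ico] at hr ⊢
            omega
          · intro j hj
            rw [Finset.mem_Ico] at hj
            omega
          · intro r hr
            rw [Finset.mem_Ico] at hr
            omega
          · intro j hj
            rfl
        rw [e, ← KS_sub _ _ (by omega)]
        have h4 := h.KS_nonneg (T - s - q + 1)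
        have h5 : KS k (T - s - 2 * w) ≤ KS k w := h.KS_anti (by omega)
        linarith
      have h4 : ∑ s ∈ range q, u s ≤ US u q := by
        unfold US
        rw [Finset.sum_range_succ]
        linarith [(h.pos q).le]
      have h5 := US_upper h hgp hg1.le hC hb hq1
      calc ∑ j ∈ Ico q (2 * w + 1), u j * ∑ s ∈ range q, k (T - s - j) * u s ≤
          u q * ∑ s ∈ range q, u s * ∑ j ∈ Ico q (2 * w + 1), k (T - s - j) := h2
        _ ≤ u q * ∑ s ∈ range q, u s * KS k w :=
            mul_le_mul_of_nonneg_left (Finset.sum_le_sum h3) (h.pos q).le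
        _ = u q * ((∑ s ∈ range q, u s) * KS k w) := by rw [Finset.sum_mul]
        _ ≤ (C * (q : ℝ) ^ (g - 1)) * (((1 + C / g) * (q : ℝ) ^ g) * (16 * C * (T : ℝ) ^ (-g))) := by
            apply mul_le_mul hu_q _ _ (by positivity)
            · exact mul_le_mul (h4.trans h5) hKw (h.KS_nonneg _) (by positivity)
            · exact mul_nonneg (Finset.sum_nonneg fun s _ => (h.pos s).le) (h.KS_nonneg _)
        _ = 4 * C * B * (((q : ℝ) ^ (g - 1) * (q : ℝ) ^ g) * (T : ℝ) ^ (-g)) := by rw [hB]; ring
        _ = 4 * C * B * X := by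
            rw [hX, ← Real.rpow_add hq0, show g - 1 + g = 2 * g - 1 by ring]
        _ ≤ 8 * C * B * X := by
            have : 0 ≤ C * B * X := by positivity
            linarith
    have p3a : ∑ j ∈ range q, u j * ∑ s ∈ range q, k (T - s - j) * u s ≤ 64 * C * B * X := by
      have h2 : ∑ j ∈ range q, u j * ∑ s ∈ range q, k (T - s - j) * u s =
          ∑ j ∈ range q, ∑ t ∈ Ico j (j + q), k (T - t) * (u j * u (t - j)) := by
        apply Finset.sum_congr rfl
        intro j _
        rw [Finset.mul_sum]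
        apply Finset.sum_bij' (fun s _ => s + j) (fun t _ => t - j)
        · intro s hs
          rw [Finset.mem_range] at hs
          rw [Finset.mem_Ico]
          omega
        · intro t ht
          rw [Finset.mem_Ico] at ht
          rw [Finset.mem_range]
          omega
        · intro s hs
          omega
        · intro t ht
          rw [Finset.mem_Ico] at ht
          omega
        · intro s hs
          have e3 : T - (s + j) = T - s - j := by omega
          have e4 : s + j - j = s := by omega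
          rw [e3, e4]
          ring
      have h3 : ∑ j ∈ range q, ∑ t ∈ Ico j (j + q), k (T - t) * (u j * u (t - j)) ≤
          ∑ t ∈ range (2 * q), ∑ j ∈ range (t + 1), k (T - t) * (u j * u (t - j)) := by
        rw [Finset.sum_sigma', Finset.sum_sigma']
        have h4 : ∑ a ∈ (range q).sigma (fun j => Ico j (j + q)), k (T - a.2) * (u a.1 * u (a.2 - a.1)) =
            ∑ b ∈ ((range q).sigma (fun j => Ico j (j + q))).image
              (fun a : (Σ _ : ℕ, ℕ) => (⟨a.2, a.1⟩ : Σ _ : ℕ, ℕ)), k (T - b.1) * (u b.2 * u (b.1 - b.2)) := by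
          rw [Finset.sum_image]
          intro a _ b _ hab
          simp only [Sigma.mk.injEq, heq_eq_eq] at hab
          obtain ⟨h5, h6⟩ := hab
          cases a
          cases b
          simp only at h5 h6
          rw [h5, h6]
        rw [h4]
        apply Finset.sum_le_sum_of_subset_of_nonneg
        · intro b hb'
          rw [Finset.mem_image] at hb'
          obtain ⟨a, ha, rfl⟩ := hb'
          rw [Finset.mem_sigma, Finset.mem_range, Finset.mem_Ico] at ha
          rw [Finset.mem_sigma, Finset.mem_range, Finset.mem_range]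
          constructor
          · show a.2 < 2 * q
            omega
          · show a.1 < a.2 + 1
            omega
        · intro b _ _
          exact mul_nonneg (h.kn _) (mul_nonneg (h.pos _).le (h.pos _).le)
      have h5 : ∀ t ∈ range (2 * q), ∑ j ∈ range (t + 1), k (T - t) * (u j * u (t - j)) ≤
          k (T - t) * (2 * B * (q : ℝ) ^ (2 * g - 1)) := by
        intro t ht
        rw [Finset.mem_range] at ht
        rw [← Finset.mul_sum]
        apply mul_le_mul_of_nonneg_left _ (h.kn _)
        have h6 : (1 : ℝ) ≤ (q : ℝ) ^ (2 * g - 1) := Real.one_le_rpow (by exact_mod_cast hq1) (by linarith)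
        rcases Nat.eq_zero_or_pos t with h0t | h0t
        · rw [h0t]
          simp only [zero_add, Finset.sum_range_one, Nat.sub_self, h.u0, mul_one]
          nlinarith
        · have h7 := conv_upper h hgp hg1 hC hb h0t
          rw [← hB] at h7
          refine h7.trans ?_
          have h8 : (t : ℝ) ^ (2 * g - 1) ≤ (2 * (q : ℝ)) ^ (2 * g - 1) := by
            apply Real.rpow_le_rpow (Nat.cast_nonneg t) _ (by linarith)
            exact_mod_cast ht.le
          have h9 : (2 * (q : ℝ)) ^ (2 * g - 1) ≤ 2 * (q : ℝ) ^ (2 * g - 1) := by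
            rw [Real.mul_rpow (by norm_num) hq0.le]
            apply mul_le_mul_of_nonneg_right _ (by positivity)
            calc (2 : ℝ) ^ (2 * g - 1) ≤ (2 : ℝ) ^ (1 : ℝ) :=
                  Real.rpow_le_rpow_of_exponent_le (by norm_num) (by linarith)
              _ = 2 := Real.rpow_one 2
          calc B * (t : ℝ) ^ (2 * g - 1) ≤ B * (2 * (q : ℝ) ^ (2 * g - 1)) :=
                mul_le_mul_of_nonneg_left (h8.trans h9) (by linarith)
            _ = _ := by ring
      have h6 : ∑ t ∈ range (2 * q), k (T - t) ≤ KS k w := by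
        have e : ∑ t ∈ range (2 * q), k (T - t) = ∑ r ∈ Ico (T + 1 - 2 * q) (T + 1), k r := by
          apply Finset.sum_bij' (fun t _ => T - t) (fun r _ => T - r)
          · intro t ht
            rw [Finset.mem_range] at ht
            rw [Finset.mem_Ico]
            omega
          · intro r hr
            rw [Finset.mem_Ico] at hr
            rw [Finset.mem_range]
            omega
          · intro t ht
            rw [Finset.mem_range] at ht
            omega
          · intro r hr
            rw [Finset.mem_Ico] at hr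
            omega
          · intro t ht
            rfl
        rw [e, ← KS_sub _ _ (by omega)]
        have h7 := h.KS_nonneg (T + 1)
        have h8 : KS k (T + 1 - 2 * q) ≤ KS k w := h.KS_anti (by omega)
        linarith
      calc ∑ j ∈ range q, u j * ∑ s ∈ range q, k (T - s - j) * u s
          ≤ ∑ t ∈ range (2 * q), ∑ j ∈ range (t + 1), k (T - t) * (u j * u (t - j)) := by
            rw [h2]
            exact h3
        _ ≤ ∑ t ∈ range (2 * q), k (T - t) * (2 * B * (q : ℝ) ^ (2 * g - 1)) := Finset.sum_le_sum h5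
        _ = (∑ t ∈ range (2 * q), k (T - t)) * (2 * B * (q : ℝ) ^ (2 * g - 1)) := by rw [Finset.sum_mul]
        _ ≤ (16 * C * (T : ℝ) ^ (-g)) * (2 * B * (q : ℝ) ^ (2 * g - 1)) :=
            mul_le_mul_of_nonneg_right (h6.trans hKw) (by positivity)
        _ = 32 * C * B * X := by rw [hX]; ring
        _ ≤ 64 * C * B * X := by
            have : 0 ≤ C * B * X := by positivity
            linarith
    have p3' : ∑ j ∈ range (2 * w + 1), u j * ∑ s ∈ range q, k (T - s - j) * u s ≤ 72 * C * B * X := by
      rw [e2, Finset.sum_union d3]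
      linarith
    -- everything together
    have htot : aw k m T ≤ 32 * C ^ 2 * M * (T : ℝ)⁻¹ + (32 * C ^ 2 * X + 72 * C * B * X) := by linarith
    obtain ⟨Y, hY⟩ : ∃ Y : ℝ, Y = (M / (T : ℝ) ^ g) ^ e * (T : ℝ) ^ (g - 1) := ⟨_, rfl⟩
    have hY0 : 0 < Y := by rw [hY]; positivity
    have hXY : X ≤ Y := by
      have h2 : (q : ℝ) ^ (2 * g - 1) ≤ M ^ e := by
        calc (q : ℝ) ^ (2 * g - 1) = ((q : ℝ) ^ g) ^ e := by rw [← Real.rpow_mul hq0.le, hge]
          _ ≤ M ^ e := Real.rpow_le_rpow (by positivity) hqg he0.le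
      have h3 : Y = M ^ e * (T : ℝ) ^ (-g) := by
        rw [hY, Real.div_rpow hM0.le hTg.le, hTe, div_mul_eq_mul_div, mul_div_assoc, ← Real.rpow_sub hT0]
        congr 2
        ring
      rw [hX, h3]
      exact mul_le_mul_of_nonneg_right h2 (by positivity)
    have hMY : M * (T : ℝ)⁻¹ ≤ Y := by
      have h2 : M / (T : ℝ) ^ g ≤ 1 := by
        rw [div_le_one hTg]
        refine hMq.trans (Real.rpow_le_rpow (by positivity) ?_ hgp.le)
        have : 2 * q ≤ T := by omega
        exact_mod_cast this
      have h3 : M / (T : ℝ) ^ g ≤ (M / (T : ℝ) ^ g) ^ e := by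
        calc M / (T : ℝ) ^ g = (M / (T : ℝ) ^ g) ^ (1 : ℝ) := (Real.rpow_one _).symm
          _ ≤ _ := Real.rpow_le_rpow_of_exponent_ge hx0 h2 he1
      have h4 : M * (T : ℝ)⁻¹ = M / (T : ℝ) ^ g * (T : ℝ) ^ (g - 1) := by
        rw [Real.rpow_sub hT0, Real.rpow_one]
        field_simp
      rw [h4, hY]
      exact mul_le_mul_of_nonneg_right h3 (by positivity)
    have hYu : Y ≤ C * ((M / (T : ℝ) ^ g) ^ e * u T) := by
      have h2 := (hb T hT).1
      rw [div_le_iff₀ hC0] at h2
      rw [hY]
      calc (M / (T : ℝ) ^ g) ^ e * (T : ℝ) ^ (g - 1) ≤ (M / (T : ℝ) ^ g) ^ e * (u T * C) :=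
            mul_le_mul_of_nonneg_left h2 (by positivity)
        _ = _ := by ring
    have hCC : C ≤ C ^ 2 := by nlinarith
    calc aw k m T ≤ 32 * C ^ 2 * M * (T : ℝ)⁻¹ + (32 * C ^ 2 * X + 72 * C * B * X) := htot
      _ = 32 * C ^ 2 * (M * (T : ℝ)⁻¹) + (32 * C ^ 2 + 72 * C * B) * X := by ring
      _ ≤ 32 * C ^ 2 * Y + (32 * C ^ 2 + 72 * C * B) * Y := by
          apply add_le_add
          · exact mul_le_mul_of_nonneg_left hMY (by positivity)
          · exact mul_le_mul_of_nonneg_left hXY (by positivity)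
      _ = (64 * C ^ 2 + 72 * C * B) * Y := by ring
      _ ≤ (200 * C ^ 2 * B) * Y := by
          apply mul_le_mul_of_nonneg_right _ hY0.le
          have h5 : 64 * C ^ 2 ≤ 64 * C ^ 2 * B := by
            have : (0 : ℝ) ≤ 64 * C ^ 2 := by positivity
            nlinarith
          have h6 : 72 * C * B ≤ 72 * C ^ 2 * B := by
            have : (0 : ℝ) ≤ 72 * B := by positivity
            nlinarith
          have h7 : (0 : ℝ) ≤ C ^ 2 * B := by positivity
          linarith
      _ ≤ (200 * C ^ 2 * B) * (C * ((M / (T : ℝ) ^ g) ^ e * u T)) := mul_le_mul_of_nonneg_left hYu (by positivity)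
      _ = 200 * C ^ 3 * B * ((M / (T : ℝ) ^ g) ^ e * u T) := by ring
      _ ≤ (8 + 200 * C ^ 3 * B) * ((M / (T : ℝ) ^ g) ^ e * u T) := by
          apply mul_le_mul_of_nonneg_right
          · linarith
          · have := (h.pos T).le
            positivity
      _ = _ := by ring

end CutR

end HexObs
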