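import Pool.Agent.PHW.Cuts
import Pool.Agent.PHW.Num3
import Pool.Agent.EXP.CutExp

/-!
EXP: the number of irreducible pieces of a bridge.
-/

set_option autoImplicit false

namespace HexObs

open Complex Finset ENNReal

open Classical in
/-- number of the cuts of t at the heights 1, ..., T; for a bridge t of height T it is the number of the irreducible
pieces of t -/
noncomputable def ncut (T : ℕ) (t : List Bool) : ℕ := ((Finset.Icc 1 T).filter (fun c => Cut t c)).card

namespace CutW

/-- cuts of a bridge that starts with an irreducible bridge -/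
lemma cut_cons {r b c : ℕ} {s u : List Bool} (hs : s ∈ Irr r) (hu : u ∈ Brd b) (hc : 1 ≤ c) :
    Cut (s ++ u) c ↔ c = r ∨ (r < c ∧ Cut u (c - r)) := by
  constructor
  · rintro ⟨s', u', b', hs', hu', h⟩
    rcases Nat.lt_or_ge c r with h1 | h1
    · exfalso
      obtain ⟨v, hv, h2, h3⟩ := cut_nested hs' hs.1 hu' hu h1.le h.symm
      rcases hs.2.2 c (r - c) s' v hs' hv h2 with h4 | h4
      · rw [h4] at hs'
        have := Brd_height hs' nil_mem_Brd
        omega
      · rw [h4] at hv
        have := Brd_height hv nil_mem_Brd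
        omega
    · rcases Nat.eq_or_lt_of_le h1 with h2 | h2
      · exact Or.inl h2.symm
      · right
        refine ⟨h2, ?_⟩
        obtain ⟨v, hv, h3, h4⟩ := cut_nested hs.1 hs' hu hu' h1 h
        exact ⟨v, u', b', hv, hu', h4⟩
  · rintro (h | ⟨h1, u1, u2, b', h2, h3, h4⟩)
    · rw [h]
      exact ⟨s, u, b, hs.1, hu, rfl⟩
    · refine ⟨s ++ u1, u2, b', ?_, h3, by rw [h4, List.append_assoc]⟩
      have h5 := Brd_append hs.1 h2
      rwa [Nat.add_sub_cancel' h1.le] at h5

lemma ncut_cons {T r : ℕ} {s u : List Bool} (hr : 1 ≤ r) (hrT : r ≤ T) (hs : s ∈ Irr r) (hu : u ∈ Brd (T - r)) :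
    ncut T (s ++ u) = ncut (T - r) u + 1 := by
  classical
  unfold ncut
  have h1 : (Finset.Icc 1 T).filter (fun c => Cut (s ++ u) c) =
      insert r (((Finset.Icc 1 (T - r)).filter (fun c => Cut u c)).image (fun c => c + r)) := by
    ext c
    simp only [Finset.mem_filter, Finset.mem_Icc, Finset.mem_insert, Finset.mem_image]
    constructor
    · rintro ⟨⟨h1, h2⟩, h3⟩
      rcases (cut_cons hs hu h1).1 h3 with h4 | ⟨h4, h5⟩
      · exact Or.inl h4
      · exact Or.inr ⟨c - r, ⟨⟨by omega, by omega⟩, h5⟩, by omega⟩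
    · rintro (h | ⟨c', ⟨⟨h1, h2⟩, h3⟩, h4⟩)
      · rw [h]
        exact ⟨⟨hr, hrT⟩, (cut_cons hs hu hr).2 (Or.inl rfl)⟩
      · refine ⟨⟨by omega, by omega⟩, (cut_cons hs hu (by omega)).2 (Or.inr ⟨by omega, ?_⟩)⟩
        have : c - r = c' := by omega
        rw [this]
        exact h3
  rw [h1, Finset.card_insert_of_notMem, Finset.card_image_of_injective _ (add_left_injective r)]
  intro h2
  rw [Finset.mem_image] at h2
  obtain ⟨c', h3, h4⟩ := h2
  rw [Finset.mem_filter, Finset.mem_Icc] at h3
  omega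

/-- bridges of height T with n irreducible pieces -/
def PN (n T : ℕ) : Set (List Bool) := {t | t ∈ Brd T ∧ ncut T t = n}

lemma ncut_zero (t : List Bool) : ncut 0 t = 0 := by
  unfold ncut
  simp

lemma ncut_pos {T : ℕ} (hT : 1 ≤ T) {t : List Bool} (ht : t ∈ Brd T) : 1 ≤ ncut T t := by
  classical
  unfold ncut
  rw [Nat.one_le_iff_ne_zero, Ne, Finset.card_eq_zero, Finset.eq_empty_iff_forall_notMem]
  intro h
  apply h T
  rw [Finset.mem_filter, Finset.mem_Icc]
  exact ⟨⟨hT, le_rfl⟩, t, [], 0, ht, nil_mem_Brd, (List.append_nil t).symm⟩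

lemma gf_empty' : gf (∅ : Set (List Bool)) = 0 := by
  unfold gf
  simp

lemma kap_ofReal (r : ℕ) : kap' r = ENNReal.ofReal (kk r) := by
  unfold kk
  rw [ENNReal.ofReal_toReal]
  have h1 : kap' r ≤ BT r := by
    rw [← gf_Brd]
    exact gf_mono (fun t ht => ht.1)
  apply ne_top_of_le_ne_top _ h1
  rcases Nat.eq_zero_or_pos r with h0 | h0
  · rw [h0, ← gf_Brd, Brd_zero]
    simp [gf, wE]
  · exact ne_top_of_le_ne_top ENNReal.one_ne_top (BT_le_one h0)

lemma BT_ofReal (T : ℕ) : BT T = ENNReal.ofReal (uu T) := by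
  unfold uu
  rw [ENNReal.ofReal_toReal]
  rcases Nat.eq_zero_or_pos T with h0 | h0
  · rw [h0, ← gf_Brd, Brd_zero]
    simp [gf, wE]
  · exact ne_top_of_le_ne_top ENNReal.one_ne_top (BT_le_one h0)

/-- the weight of the bridges of height T with n irreducible pieces -/
theorem gf_PN (n T : ℕ) : gf (PN n T) = ENNReal.ofReal (CutR.pw kk n T) := by
  induction n generalizing T with
  | zero =>
    rw [CutR.pw_zero]
    rcases Nat.eq_zero_or_pos T with h0 | h0
    · rw [if_pos h0, h0]
      have : PN 0 0 = {[]} := by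
        ext t
        constructor
        · rintro ⟨h1, _⟩
          rw [Brd_zero] at h1
          exact h1
        · intro h1
          have h2 : t = [] := h1
          rw [h2]
          exact ⟨nil_mem_Brd, ncut_zero _⟩
      rw [this]
      unfold gf
      rw [tsum_singleton (f := wE)]
      unfold wE
      simp
    · rw [if_neg (by omega)]
      have : PN 0 T = ∅ := by
        ext t
        simp only [Set.mem_empty_iff_false, iff_false]
        rintro ⟨h1, h2⟩
        have := ncut_pos h0 h1
        omega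
      rw [this, gf_empty', ENNReal.ofReal_zero]
  | succ n ih =>
    rcases Nat.eq_zero_or_pos T with h0 | h0
    · rw [h0, CutR.pw_succ_zero]
      have : PN (n + 1) 0 = ∅ := by
        ext t
        simp only [Set.mem_empty_iff_false, iff_false]
        rintro ⟨_, h2⟩
        rw [ncut_zero] at h2
        omega
      rw [this, gf_empty', ENNReal.ofReal_zero]
    · have h1 : PN (n + 1) T = ⋃ r ∈ Finset.Icc 1 T, {t | ∃ s u, s ∈ Irr r ∧ u ∈ PN n (T - r) ∧ t = s ++ u} := by
        ext t
        simp only [Set.mem_iUnion, Finset.mem_Icc]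
        constructor
        · rintro ⟨ht, hn⟩
          obtain ⟨r, s, u, h1, h2, h3, h4, h5⟩ := Brd_first ht h0
          refine ⟨r, ⟨h1, h2⟩, s, u, h3, ⟨h4, ?_⟩, h5⟩
          rw [h5, ncut_cons h1 h2 h3 h4] at hn
          omega
        · rintro ⟨r, ⟨h1, h2⟩, s, u, h3, ⟨h4, h4'⟩, h5⟩
          have h6 := Brd_append h3.1 h4
          rw [← h5, Nat.add_sub_cancel' h2] at h6
          refine ⟨h6, ?_⟩
          rw [h5, ncut_cons h1 h2 h3 h4, h4']
      rw [h1, gf_biUnion, CutR.pw_succ, ENNReal.ofReal_sum_of_nonneg]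
      · apply Finset.sum_congr rfl
        intro r _
        rw [ENNReal.ofReal_mul (kk_nonneg r), ← kap_ofReal, ← ih (T - r)]
        unfold kap'
        apply le_antisymm
        · apply gf_le_mul
          rintro t ⟨s, u, h3, h4, h5⟩
          exact ⟨s, h3, u, h4, h5⟩
        · apply mul_le_gf
          · intro a ha b hb
            exact ⟨a, b, ha, hb, rfl⟩
          · intro a ha b hb a' ha' b' hb' h
            exact (Irr_unique ha ha' hb.1 hb'.1 h).1
      · intro r _
        exact mul_nonneg (kk_nonneg r) (CutR.pw_nonneg kk_nonneg n _)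
      · intro i _ j _ hij
        rw [Set.disjoint_left]
        rintro t ⟨s, u, h3, h4, h5⟩ ⟨s', u', h3', h4', h5'⟩
        have h6 := (Irr_unique h3 h3' h4.1 h4'.1 (h5.symm.trans h5')).1
        apply hij
        rw [h6] at h3
        exact Brd_height h3.1 h3'.1

/-- the weight of the bridges of height T with at most m irreducible pieces -/
theorem gf_few (m T : ℕ) : gf {t | t ∈ Brd T ∧ ncut T t ≤ m} = ENNReal.ofReal (CutR.aw kk m T) := by
  have h1 : {t | t ∈ Brd T ∧ ncut T t ≤ m} = ⋃ n ∈ Finset.range (m + 1), PN n T := by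
    ext t
    simp only [Set.mem_iUnion, Finset.mem_range]
    constructor
    · rintro ⟨h1, h2⟩
      exact ⟨ncut T t, by omega, h1, rfl⟩
    · rintro ⟨n, h1, h2, h3⟩
      exact ⟨h2, by omega⟩
  rw [h1, gf_biUnion]
  · unfold CutR.aw
    rw [ENNReal.ofReal_sum_of_nonneg]
    · exact Finset.sum_congr rfl fun n _ => gf_PN n T
    · intro n _
      exact CutR.pw_nonneg kk_nonneg n T
  · intro i _ j _ hij
    rw [Set.disjoint_left]
    rintro t ⟨_, h1⟩ ⟨_, h2⟩
    exact hij (h1.symm.trans h2)

/-- the weight of the bridges of height T with more than m irreducible pieces -/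
theorem gf_many (m T : ℕ) : gf {t | t ∈ Brd T ∧ m < ncut T t} = ENNReal.ofReal (uu T - CutR.aw kk m T) := by
  have h1 : gf {t | t ∈ Brd T ∧ ncut T t ≤ m} + gf {t | t ∈ Brd T ∧ m < ncut T t} = BT T := by
    rw [← gf_Brd, ← gf_union]
    · congr 1
      ext t
      constructor
      · rintro (h | h)
        · exact h.1
        · exact h.1
      · intro h
        rcases Nat.lt_or_ge m (ncut T t) with h2 | h2
        · exact Or.inr ⟨h, h2⟩
        · exact Or.inl ⟨h, h2⟩
    · rw [Set.disjoint_left]
      rintro t ⟨_, h1⟩ ⟨_, h2⟩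
      omega
  rw [gf_few, BT_ofReal] at h1
  rw [ENNReal.ofReal_sub _ (CutR.aw_nonneg kk_nonneg m T), ← h1, ENNReal.add_sub_cancel_left ENNReal.ofReal_ne_top]

/-- the weight of the bridges of height T with the cut c -/
theorem gf_cut {c T : ℕ} (hc : c ≤ T) : gf {t | t ∈ Brd T ∧ Cut t c} = BT c * BT (T - c) := by
  rw [← gf_Brd, ← gf_Brd]
  apply le_antisymm
  · apply gf_le_mul
    rintro t ⟨ht, s, u, b, hs, hu, h⟩
    refine ⟨s, hs, u, ?_, h⟩
    rw [h] at ht
    have h1 := Brd_height ht (Brd_append hs hu)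
    have h2 : T - c = b := by omega
    rw [h2]
    exact hu
  · apply mul_le_gf
    · intro a ha b hb
      refine ⟨?_, a, b, T - c, ha, hb, rfl⟩
      have := Brd_append ha hb
      rwa [Nat.add_sub_cancel' hc] at this
    · intro a ha b hb a' ha' b' hb' h
      exact (cut_unique ha ha' hb hb' h).1

end CutW

end HexObs
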