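import Pool.Agent.W47.Numbers

/-!
EXP/TwoLeg (helper15): the critical weight of the pairs of disjoint bridges that start from neighbouring
edges of the bottom line of the strip of height `T`, when the bridge weights are of order `T ^ (- 1 / 4)`.
-/

set_option autoImplicit false

namespace HexObs.TwoLeg

open Finset Filter Topology HexObs

/-- the weight of the pairs as a real number -/
noncomputable def dT (T : ℕ) : ℝ := (Pi2 T 1).toReal

lemma dT_nonneg (T : ℕ) : 0 ≤ dT T := ENNReal.toReal_nonneg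

/-- upper bound -/
theorem dT_le {T : ℕ} (hT : 1 ≤ T) : dT T * T ≤ 29 * bT T := by
  have h := pairs_real hT
  have h1 : 2 * (Real.sqrt 2 + 1) ^ 3 * bT T ^ 2 ≤ 29 * bT T ^ 2 :=
    mul_le_mul_of_nonneg_right const1 (by positivity)
  have h2 : dT T * (T * bT T) ≤ dT T * uT T := mul_le_mul_of_nonneg_left mul_le_uT (dT_nonneg T)
  have h3 : 0 < bT T := bT_pos hT
  have h4 : dT T * (T * bT T) ≤ 29 * bT T ^ 2 := h2.trans (h.trans h1)
  have h5 : (dT T * T) * bT T ≤ (29 * bT T) * bT T := by nlinarith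
  exact le_of_mul_le_mul_right h5 h3

/-- the telescoped loss -/
theorem loss_sum {S T : ℕ} (hS : 1 ≤ S) (hST : S ≤ T) :
    bT S - bT T ≤ Real.sqrt 2 * ∑ k ∈ Ioc S T, dT k := by
  induction T, hST using Nat.le_induction with
  | base => simp
  | succ T hT ih =>
    have h := loss (T := T) (by omega)
    have e : ∑ k ∈ Ioc S (T + 1), dT k = ∑ k ∈ Ioc S T, dT k + dT (T + 1) := by
      have : Ioc S (T + 1) = insert (T + 1) (Ioc S T) := by
        ext k
        simp only [mem_Ioc, mem_insert]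
        omega
      rw [this, sum_insert (by simp), add_comm]
    rw [e]
    unfold dT at ih ⊢
    nlinarith

/-- counting: in a window on which the bridges lose `l` in total, many heights carry a large weight. -/
theorem count {S T : ℕ} (hS : 1 ≤ S) (hST : S ≤ T) {a M : ℝ} (ha : 0 ≤ a)
    (hM : ∀ k, S < k → k ≤ T → dT k ≤ M) :
    bT S - bT T ≤ Real.sqrt 2 * (((Ioc S T).filter fun k => a ≤ dT k).card * M + (T - S : ℕ) * a) := by
  classical
  refine (loss_sum hS hST).trans ?_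
  apply mul_le_mul_of_nonneg_left _ (Real.sqrt_nonneg 2)
  rw [← sum_filter_add_sum_filter_not (Ioc S T) (fun k => a ≤ dT k)]
  apply add_le_add
  · calc ∑ k ∈ (Ioc S T).filter (fun k => a ≤ dT k), dT k ≤
        ∑ _k ∈ (Ioc S T).filter (fun k => a ≤ dT k), M := by
          apply sum_le_sum
          intro k hk
          rw [mem_filter, mem_Ioc] at hk
          exact hM k hk.1.1 hk.1.2
      _ = _ := by rw [sum_const, nsmul_eq_mul]
  · calc ∑ k ∈ (Ioc S T).filter (fun k => ¬ a ≤ dT k), dT k ≤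
        ∑ _k ∈ (Ioc S T).filter (fun k => ¬ a ≤ dT k), a := by
          apply sum_le_sum
          intro k hk
          rw [mem_filter] at hk
          exact (not_le.1 hk.2).le
      _ = ((Ioc S T).filter (fun k => ¬ a ≤ dT k)).card * a := by rw [sum_const, nsmul_eq_mul]
      _ ≤ (T - S : ℕ) * a := by
          apply mul_le_mul_of_nonneg_right _ ha
          have h1 := card_filter_le (Ioc S T) (fun k => ¬ a ≤ dT k)
          rw [Nat.card_Ioc] at h1
          exact_mod_cast h1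

/-- the two bounds for the pairs: an upper bound at every height and a lower bound at a positive
proportion of the heights of every window `(T, (1 + e) T]`. -/
theorem main {b : ℝ} (hb : 0 < b) (hB : Tendsto (fun T : ℕ => bT T * (T : ℝ) ^ (1 / 4 : ℝ)) atTop (𝓝 b)) :
    (∃ C : ℝ, 0 < C ∧ ∀ T : ℕ, 1 ≤ T → dT T ≤ C / (T : ℝ) ^ (5 / 4 : ℝ)) ∧
    ∀ e : ℝ, 0 < e → ∃ c : ℝ, 0 < c ∧ ∀ᶠ T : ℕ in atTop,
      c * T ≤ (((Ioc T ⌊(1 + e) * T⌋₊).filter fun k : ℕ => c / (k : ℝ) ^ (5 / 4 : ℝ) ≤ dT k).card : ℝ) := by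
  classical
  have pw : ∀ T : ℕ, 1 ≤ T → (T : ℝ) ^ (5 / 4 : ℝ) = T * (T : ℝ) ^ (1 / 4 : ℝ) := by
    intro T hT
    have h0 : (0 : ℝ) < T := by exact_mod_cast hT
    rw [show (5 / 4 : ℝ) = 1 + 1 / 4 by norm_num, Real.rpow_add h0, Real.rpow_one]
  have pp : ∀ T : ℕ, 1 ≤ T → 0 < (T : ℝ) ^ (1 / 4 : ℝ) := fun T hT =>
    Real.rpow_pos_of_pos (by exact_mod_cast hT) _
  obtain ⟨C0, hC0⟩ : ∃ C0 : ℝ, ∀ T : ℕ, bT T * (T : ℝ) ^ (1 / 4 : ℝ) ≤ C0 := by
    obtain ⟨C, hC⟩ := hB.bddAbove_range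
    exact ⟨C, fun T => hC ⟨T, rfl⟩⟩
  have hC0' : 0 ≤ C0 := le_trans (mul_nonneg (bT_nonneg 0) (by positivity)) (hC0 0)
  have up : ∀ T : ℕ, 1 ≤ T → dT T ≤ 29 * (C0 + 1) / (T : ℝ) ^ (5 / 4 : ℝ) := by
    intro T hT
    have h0 : (0 : ℝ) < T := by exact_mod_cast hT
    rw [pw T hT, le_div_iff₀ (mul_pos h0 (pp T hT))]
    have h1 := dT_le hT
    have h2 := hC0 T
    have h3 := pp T hT
    calc dT T * (T * (T : ℝ) ^ (1 / 4 : ℝ)) = (dT T * T) * (T : ℝ) ^ (1 / 4 : ℝ) := by ring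
      _ ≤ (29 * bT T) * (T : ℝ) ^ (1 / 4 : ℝ) := mul_le_mul_of_nonneg_right h1 h3.le
      _ = 29 * (bT T * (T : ℝ) ^ (1 / 4 : ℝ)) := by ring
      _ ≤ 29 * (C0 + 1) := by linarith
  refine ⟨⟨29 * (C0 + 1), by positivity, up⟩, ?_⟩
  intro e he
  -- the loss over the window
  set q : ℝ := (1 + e) ^ (-(1 / 4) : ℝ) with hq
  have hq1 : q < 1 := Real.rpow_lt_one_of_one_lt_of_neg (by linarith) (by norm_num)
  have hq0 : 0 < q := Real.rpow_pos_of_pos (by linarith) _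
  have hfl : Tendsto (fun T : ℕ => ⌊(1 + e) * (T : ℝ)⌋₊) atTop atTop := by
    apply tendsto_nat_floor_atTop.comp
    exact Tendsto.const_mul_atTop (by linarith) tendsto_natCast_atTop_atTop
  have hratio : Tendsto (fun T : ℕ => ((⌊(1 + e) * (T : ℝ)⌋₊ : ℝ) / (T : ℝ))) atTop (𝓝 (1 + e)) :=
    (tendsto_nat_floor_mul_div_atTop (by linarith : (0 : ℝ) ≤ 1 + e)).comp tendsto_natCast_atTop_atTop
  have hpow : Tendsto (fun T : ℕ => ((⌊(1 + e) * (T : ℝ)⌋₊ : ℝ) / (T : ℝ)) ^ (-(1 / 4) : ℝ)) atTop (𝓝 q) :=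
    hratio.rpow_const (Or.inl (by linarith))
  have h1 : Tendsto (fun T : ℕ => bT ⌊(1 + e) * (T : ℝ)⌋₊ * (T : ℝ) ^ (1 / 4 : ℝ)) atTop (𝓝 (b * q)) := by
    have h2 := (hB.comp hfl).mul hpow
    refine h2.congr' ?_
    filter_upwards [eventually_ge_atTop 1] with T hT
    have h0 : (0 : ℝ) < T := by exact_mod_cast hT
    have hge : T ≤ ⌊(1 + e) * (T : ℝ)⌋₊ := Nat.le_floor (by nlinarith)
    have h3 : (0 : ℝ) < (⌊(1 + e) * (T : ℝ)⌋₊ : ℝ) := by
      have : 1 ≤ ⌊(1 + e) * (T : ℝ)⌋₊ := hT.trans hge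
      exact_mod_cast this
    simp only [Function.comp]
    rw [Real.div_rpow h3.le h0.le, Real.rpow_neg h3.le, Real.rpow_neg h0.le]
    have h4 : (0 : ℝ) < (⌊(1 + e) * (T : ℝ)⌋₊ : ℝ) ^ (1 / 4 : ℝ) := Real.rpow_pos_of_pos h3 _
    have h5 := pp T hT
    field_simp
  have h2 : Tendsto (fun T : ℕ => (bT T - bT ⌊(1 + e) * (T : ℝ)⌋₊) * (T : ℝ) ^ (1 / 4 : ℝ)) atTop (𝓝 (b - b * q)) := by
    refine (hB.sub h1).congr fun T => ?_
    ring
  have hl : 0 < b - b * q := by nlinarith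
  have h3 : ∀ᶠ T : ℕ in atTop, (b - b * q) / 2 < (bT T - bT ⌊(1 + e) * (T : ℝ)⌋₊) * (T : ℝ) ^ (1 / 4 : ℝ) :=
    h2.eventually (lt_mem_nhds (by linarith))
  set g := (b - b * q) / 2 with hg
  have hg0 : 0 < g := by rw [hg]; linarith
  -- choice of the constant
  have hs2 : Real.sqrt 2 ≤ 2 := by
    rw [Real.sqrt_le_left (by norm_num)]; norm_num
  set c : ℝ := min (g / (4 * (e + 1))) (g / (4 * (29 * (C0 + 1)))) with hc
  have hc0 : 0 < c := by
    rw [hc]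
    exact lt_min (by positivity) (by positivity)
  have hc1 : c * (4 * (e + 1)) ≤ g := by
    have := min_le_left (g / (4 * (e + 1))) (g / (4 * (29 * (C0 + 1))))
    rw [← hc, le_div_iff₀ (by positivity)] at this
    exact this
  have hc2 : c * (4 * (29 * (C0 + 1))) ≤ g := by
    have := min_le_right (g / (4 * (e + 1))) (g / (4 * (29 * (C0 + 1))))
    rw [← hc, le_div_iff₀ (by positivity)] at this
    exact this
  refine ⟨c, hc0, ?_⟩
  filter_upwards [h3, eventually_ge_atTop 1] with T hT3 hT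
  have h0 : (0 : ℝ) < T := by exact_mod_cast hT
  have hge : T ≤ ⌊(1 + e) * (T : ℝ)⌋₊ := Nat.le_floor (by nlinarith)
  have hle : (⌊(1 + e) * (T : ℝ)⌋₊ : ℝ) ≤ (1 + e) * T := Nat.floor_le (by positivity)
  set R := ⌊(1 + e) * (T : ℝ)⌋₊ with hR
  have hP := pp T hT
  have h54 : 0 < (T : ℝ) ^ (5 / 4 : ℝ) := Real.rpow_pos_of_pos h0 _
  have hcount := count (S := T) (T := R) hT hge (a := c / (T : ℝ) ^ (5 / 4 : ℝ))
    (M := 29 * (C0 + 1) / (T : ℝ) ^ (5 / 4 : ℝ)) (by positivity) (by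
      intro k hk1 hk2
      refine (up k (by omega)).trans ?_
      apply div_le_div_of_nonneg_left (by positivity) h54
      apply Real.rpow_le_rpow h0.le _ (by norm_num)
      exact_mod_cast hk1.le)
  have hsub : (((Ioc T R).filter fun k : ℕ => c / (T : ℝ) ^ (5 / 4 : ℝ) ≤ dT k).card : ℝ) ≤
      (((Ioc T R).filter fun k : ℕ => c / (k : ℝ) ^ (5 / 4 : ℝ) ≤ dT k).card : ℝ) := by
    have : ((Ioc T R).filter fun k : ℕ => c / (T : ℝ) ^ (5 / 4 : ℝ) ≤ dT k) ⊆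
        ((Ioc T R).filter fun k : ℕ => c / (k : ℝ) ^ (5 / 4 : ℝ) ≤ dT k) := by
      intro k hk
      rw [mem_filter, mem_Ioc] at hk ⊢
      refine ⟨hk.1, le_trans ?_ hk.2⟩
      apply div_le_div_of_nonneg_left hc0.le h54
      apply Real.rpow_le_rpow h0.le _ (by norm_num)
      exact_mod_cast hk.1.1.le
    exact_mod_cast card_le_card this
  refine le_trans ?_ hsub
  set N : ℝ := (((Ioc T R).filter fun k : ℕ => c / (T : ℝ) ^ (5 / 4 : ℝ) ≤ dT k).card : ℝ) with hN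
  have hN0 : 0 ≤ N := Nat.cast_nonneg _
  have hRT : ((R - T : ℕ) : ℝ) ≤ e * T := by
    rw [Nat.cast_sub hge]
    linarith
  -- g < (loss) T^(1/4) ≤ 2 (N M + e T a) T^(1/4) = 2 (N 29 (C0+1) + e T c) / T
  have hin : 0 ≤ N * (29 * (C0 + 1) / (T : ℝ) ^ (5 / 4 : ℝ)) + ((R - T : ℕ) : ℝ) * (c / (T : ℝ) ^ (5 / 4 : ℝ)) := by
    positivity
  have h4 : bT T - bT R ≤ 2 * (N * (29 * (C0 + 1) / (T : ℝ) ^ (5 / 4 : ℝ)) + (e * T) * (c / (T : ℝ) ^ (5 / 4 : ℝ))) := by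
    refine hcount.trans ?_
    refine (mul_le_mul_of_nonneg_right hs2 hin).trans ?_
    have : ((R - T : ℕ) : ℝ) * (c / (T : ℝ) ^ (5 / 4 : ℝ)) ≤ (e * T) * (c / (T : ℝ) ^ (5 / 4 : ℝ)) :=
      mul_le_mul_of_nonneg_right hRT (by positivity)
    linarith
  have h5 : g < 2 * (N * (29 * (C0 + 1)) + (e * T) * c) / T := by
    refine hT3.trans_le ?_
    refine (mul_le_mul_of_nonneg_right h4 hP.le).trans (le_of_eq ?_)
    rw [pw T hT]
    field_simp
  rw [lt_div_iff₀ h0] at h5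
  -- conclude
  by_contra hcon
  push Not at hcon
  have h6 : N * (29 * (C0 + 1)) ≤ (c * T) * (29 * (C0 + 1)) :=
    mul_le_mul_of_nonneg_right hcon.le (by positivity)
  have h7 : c * (29 * (C0 + 1)) ≤ g / 4 := by linarith
  have h8 : e * c ≤ g / 4 := by nlinarith
  nlinarith

end HexObs.TwoLeg
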