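import Mathlib

/-!
Absolutely summable power series on `[-1, 1)`: the class is closed under sums and products, and the
series `1 - p` with `p ≥ 0`, `∑ p ≤ 1` are closed under the square root and under Möbius maps.
-/

set_option autoImplicit false

open Finset

namespace EXPW

/-- `u` has a power series with nonnegative coefficients of sum at most one, and `u 0 = 0`. -/
def IsK (u : ℝ → ℝ) : Prop :=
  ∃ p : ℕ → ℝ, p 0 = 0 ∧ (∀ n, 0 ≤ p n) ∧ Summable p ∧ ∑' n, p n ≤ 1 ∧
    ∀ t : ℝ, -1 ≤ t → t < 1 → HasSum (fun n => p n * t ^ n) (u t)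

/-- `f` has an absolutely summable power series on `[-1, 1)`. -/
def IsW (f : ℝ → ℝ) : Prop :=
  ∃ a : ℕ → ℝ, Summable (fun n => |a n|) ∧
    ∀ t : ℝ, -1 ≤ t → t < 1 → HasSum (fun n => a n * t ^ n) (f t)

theorem mem_anti {n : ℕ} {x : ℕ × ℕ} : x ∈ antidiagonal n ↔ x.1 + x.2 = n :=
  Finset.HasAntidiagonal.mem_antidiagonal

/-- The solution of `r = α p + β p r + γ r ^ 2` by recursion on the coefficients. -/
noncomputable def recc (α β γ : ℝ) (p : ℕ → ℝ) : ℕ → ℝ
  | 0 => 0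
  | n + 1 => α * p (n + 1) + β * ∑ i : Fin (n + 1), p (n + 1 - i) * recc α β γ p i +
      γ * ∑ i : Fin (n + 1), if _h : 0 < (i : ℕ) then
        recc α β γ p i * recc α β γ p (n + 1 - i) else 0
  decreasing_by all_goals omega

theorem recc_zero (α β γ : ℝ) (p : ℕ → ℝ) : recc α β γ p 0 = 0 := by
  rw [recc]

theorem recc_nonneg {α β γ : ℝ} (hα : 0 ≤ α) (hβ : 0 ≤ β) (hγ : 0 ≤ γ) {p : ℕ → ℝ}
    (hp : ∀ n, 0 ≤ p n) (n : ℕ) : 0 ≤ recc α β γ p n := by
  induction n using Nat.strong_induction_on with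
  | _ n ih =>
    cases n with
    | zero => rw [recc_zero]
    | succ n =>
      rw [recc]
      refine add_nonneg (add_nonneg (mul_nonneg hα (hp _)) (mul_nonneg hβ ?_)) (mul_nonneg hγ ?_)
      · refine Finset.sum_nonneg fun i _ => mul_nonneg (hp _) (ih _ i.2)
      · refine Finset.sum_nonneg fun i _ => ?_
        split_ifs with h
        · exact mul_nonneg (ih _ i.2) (ih _ (by omega))
        · exact le_rfl

theorem recc_eq (α β γ : ℝ) {p : ℕ → ℝ} (hp0 : p 0 = 0) (n : ℕ) :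
    recc α β γ p n = α * p n + β * ∑ ij ∈ antidiagonal n, p ij.1 * recc α β γ p ij.2 +
      γ * ∑ ij ∈ antidiagonal n, recc α β γ p ij.1 * recc α β γ p ij.2 := by
  cases n with
  | zero => simp [recc_zero, hp0]
  | succ n =>
    rw [recc]
    congr 1
    · congr 2
      rw [← Finset.Nat.sum_antidiagonal_swap, Finset.Nat.sum_antidiagonal_eq_sum_range_succ_mk,
        Finset.sum_range_succ]
      simp only [Prod.swap_prod_mk, Nat.sub_self, hp0, zero_mul, add_zero]
      rw [Finset.sum_range]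
    · congr 1
      rw [Finset.Nat.sum_antidiagonal_eq_sum_range_succ_mk, Finset.sum_range_succ]
      simp only [Nat.sub_self, recc_zero, mul_zero, add_zero]
      rw [Finset.sum_range]
      refine Finset.sum_congr rfl fun i _ => ?_
      split_ifs with h
      · rfl
      · have : (i : ℕ) = 0 := by omega
        rw [this, recc_zero, zero_mul]

/-- Sums over antidiagonals are bounded by products of initial sums. -/
theorem sum_anti_le {a b : ℕ → ℝ} (ha : ∀ n, 0 ≤ a n) (hb : ∀ n, 0 ≤ b n) (ha0 : a 0 = 0)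
    (N : ℕ) : ∑ n ∈ range (N + 1), ∑ ij ∈ antidiagonal n, a ij.1 * b ij.2 ≤
      (∑ n ∈ range (N + 1), a n) * ∑ n ∈ range N, b n := by
  rw [Finset.sum_mul_sum, ← Finset.sum_product', Finset.sum_sigma']
  refine le_trans ?_ (Finset.sum_le_sum_of_subset_of_nonneg
    (s := (range (N + 1) ×ˢ range (N + 1)).filter fun q => q.1 + q.2 ≤ N ∧ q.1 ≠ 0)
    ?_ fun q _ _ => mul_nonneg (ha _) (hb _))
  · refine le_of_eq ?_
    rw [← Finset.sum_filter_of_ne (p := fun x : (_ : ℕ) × (ℕ × ℕ) => x.2.1 ≠ 0)]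
    · refine Finset.sum_bij' (fun x _ => x.2) (fun q _ => ⟨q.1 + q.2, q⟩) ?_ ?_ ?_ ?_ ?_
      · rintro ⟨n, i, j⟩ hx
        simp only [mem_filter, mem_sigma, mem_range, mem_anti, mem_product] at hx ⊢
        omega
      · rintro ⟨i, j⟩ hx
        simp only [mem_filter, mem_sigma, mem_range, mem_anti, mem_product] at hx ⊢
        exact ⟨⟨by omega, trivial⟩, hx.2.2⟩
      · rintro ⟨n, i, j⟩ hx
        simp only [mem_filter, mem_sigma, mem_range, mem_anti] at hx
        obtain ⟨⟨_, h⟩, _⟩ := hx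
        simp only [h]
      · rintro ⟨i, j⟩ hx
        rfl
      · rintro ⟨n, i, j⟩ hx
        rfl
    · rintro ⟨n, i, j⟩ _ h
      rintro (rfl : i = 0)
      exact h (by simp only [ha0, zero_mul])
  · rintro ⟨i, j⟩ hx
    simp only [mem_filter, mem_range, mem_product] at hx ⊢
    omega

theorem recc_sums_le {α β γ : ℝ} (hα : 0 ≤ α) (hβ : 0 ≤ β) (hγ : 0 ≤ γ) (h1 : α + β + γ ≤ 1)
    {p : ℕ → ℝ} (hp0 : p 0 = 0) (hp : ∀ n, 0 ≤ p n) (hP : ∀ N, ∑ n ∈ range N, p n ≤ 1) (N : ℕ) :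
    ∑ n ∈ range N, recc α β γ p n ≤ 1 := by
  induction N with
  | zero => simp
  | succ N ih =>
    have hr := recc_nonneg hα hβ hγ hp
    have hr0 := recc_zero α β γ p
    have e : ∑ n ∈ range (N + 1), recc α β γ p n = α * ∑ n ∈ range (N + 1), p n +
        β * ∑ n ∈ range (N + 1), ∑ ij ∈ antidiagonal n, p ij.1 * recc α β γ p ij.2 +
        γ * ∑ n ∈ range (N + 1), ∑ ij ∈ antidiagonal n, recc α β γ p ij.1 * recc α β γ p ij.2 := by
      rw [Finset.mul_sum, Finset.mul_sum, Finset.mul_sum, ← Finset.sum_add_distrib,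
        ← Finset.sum_add_distrib]
      exact Finset.sum_congr rfl fun n _ => recc_eq α β γ hp0 n
    have e1 := sum_anti_le hp hr hp0 N
    have e3 : ∑ n ∈ range (N + 1), ∑ ij ∈ antidiagonal n, recc α β γ p ij.1 * recc α β γ p ij.2 ≤
        (∑ n ∈ range N, recc α β γ p n) * ∑ n ∈ range N, recc α β γ p n := by
      rw [Finset.sum_mul_sum, ← Finset.sum_product', Finset.sum_sigma']
      refine le_trans ?_ (Finset.sum_le_sum_of_subset_of_nonneg
        (s := (range (N + 1) ×ˢ range (N + 1)).filter fun q => q.1 + q.2 ≤ N ∧ q.1 ≠ 0 ∧ q.2 ≠ 0)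
        ?_ fun q _ _ => mul_nonneg (hr _) (hr _))
      · refine le_of_eq ?_
        rw [← Finset.sum_filter_of_ne (p := fun x : (_ : ℕ) × (ℕ × ℕ) => x.2.1 ≠ 0 ∧ x.2.2 ≠ 0)]
        · refine Finset.sum_bij' (fun x _ => x.2) (fun q _ => ⟨q.1 + q.2, q⟩) ?_ ?_ ?_ ?_ ?_
          · rintro ⟨n, i, j⟩ hx
            simp only [mem_filter, mem_sigma, mem_range, mem_anti, mem_product] at hx ⊢
            omega
          · rintro ⟨i, j⟩ hx
            simp only [mem_filter, mem_sigma, mem_range, mem_anti, mem_product] at hx ⊢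
            exact ⟨⟨by omega, trivial⟩, hx.2.2⟩
          · rintro ⟨n, i, j⟩ hx
            simp only [mem_filter, mem_sigma, mem_range, mem_anti] at hx
            obtain ⟨⟨_, h⟩, _⟩ := hx
            simp only [h]
          · rintro ⟨i, j⟩ hx
            rfl
          · rintro ⟨n, i, j⟩ hx
            rfl
        · rintro ⟨n, i, j⟩ _ h
          constructor
          · rintro (rfl : i = 0)
            exact h (by simp only [hr0, zero_mul])
          · rintro (rfl : j = 0)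
            exact h (by simp only [hr0, mul_zero])
      · rintro ⟨i, j⟩ hx
        simp only [mem_filter, mem_range, mem_product] at hx ⊢
        omega
    have hR : 0 ≤ ∑ n ∈ range N, recc α β γ p n := Finset.sum_nonneg fun n _ => hr n
    have hP0 : 0 ≤ ∑ n ∈ range (N + 1), p n := Finset.sum_nonneg fun n _ => hp n
    have hP1 := hP (N + 1)
    rw [e]
    have f1 : α * ∑ n ∈ range (N + 1), p n ≤ α * 1 := mul_le_mul_of_nonneg_left hP1 hα
    have f2 : (∑ n ∈ range (N + 1), p n) * ∑ n ∈ range N, recc α β γ p n ≤ 1 := by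
      calc _ ≤ 1 * (1 : ℝ) := mul_le_mul hP1 ih hR (by norm_num)
        _ = 1 := by norm_num
    have f3 : (∑ n ∈ range N, recc α β γ p n) * ∑ n ∈ range N, recc α β γ p n ≤ 1 := by
      calc _ ≤ 1 * (1 : ℝ) := mul_le_mul ih ih hR (by norm_num)
        _ = 1 := by norm_num
    have g2 := mul_le_mul_of_nonneg_left (e1.trans f2) hβ
    have g3 := mul_le_mul_of_nonneg_left (e3.trans f3) hγ
    linarith

/-- Cauchy product of two absolutely summable power series at `|t| ≤ 1`. -/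
theorem hasSum_mul {a b : ℕ → ℝ} (ha : Summable fun n => |a n|) (hb : Summable fun n => |b n|)
    {t x y : ℝ} (ht : |t| ≤ 1) (hx : HasSum (fun n => a n * t ^ n) x)
    (hy : HasSum (fun n => b n * t ^ n) y) :
    HasSum (fun n => (∑ ij ∈ antidiagonal n, a ij.1 * b ij.2) * t ^ n) (x * y) := by
  have key : ∀ c : ℕ → ℝ, Summable (fun n => |c n|) → Summable fun n => ‖c n * t ^ n‖ := by
    intro c hc
    refine Summable.of_nonneg_of_le (fun n => norm_nonneg _) (fun n => ?_) hc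
    rw [norm_mul, norm_pow, Real.norm_eq_abs, Real.norm_eq_abs]
    exact mul_le_of_le_one_right (abs_nonneg _) (pow_le_one₀ (abs_nonneg _) ht)
  have hs := summable_norm_sum_mul_antidiagonal_of_summable_norm (key a ha) (key b hb)
  have h := tsum_mul_tsum_eq_tsum_sum_antidiagonal_of_summable_norm (key a ha) (key b hb)
  rw [hx.tsum_eq, hy.tsum_eq] at h
  rw [h]
  have e : (fun n => (∑ ij ∈ antidiagonal n, a ij.1 * b ij.2) * t ^ n) =
      fun n => ∑ kl ∈ antidiagonal n, a kl.1 * t ^ kl.1 * (b kl.2 * t ^ kl.2) := by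
    funext n
    rw [Finset.sum_mul]
    refine Finset.sum_congr rfl fun ij hij => ?_
    rw [mem_anti] at hij
    rw [← hij, pow_add]
    ring
  rw [e]
  exact hs.of_norm.hasSum

theorem summable_mul {a b : ℕ → ℝ} (ha : Summable fun n => |a n|) (hb : Summable fun n => |b n|) :
    Summable fun n => |∑ ij ∈ antidiagonal n, a ij.1 * b ij.2| := by
  have := summable_norm_sum_mul_antidiagonal_of_summable_norm (f := a) (g := b) ha hb
  exact this

theorem abs_le_one_of {t : ℝ} (h1 : -1 ≤ t) (h2 : t < 1) : |t| ≤ 1 := abs_le.2 ⟨h1, h2.le⟩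

theorem summable_pow {a : ℕ → ℝ} (ha : Summable fun n => |a n|) {t : ℝ} (ht : |t| ≤ 1) :
    Summable fun n => a n * t ^ n := by
  refine Summable.of_norm (Summable.of_nonneg_of_le (fun n => norm_nonneg _) (fun n => ?_) ha)
  rw [norm_mul, norm_pow, Real.norm_eq_abs, Real.norm_eq_abs]
  exact mul_le_of_le_one_right (abs_nonneg _) (pow_le_one₀ (abs_nonneg _) ht)

/-- The functional equation of the recursion. -/
theorem IsK.rec {u : ℝ → ℝ} (hu : IsK u) {α β γ : ℝ} (hα : 0 ≤ α) (hβ : 0 ≤ β) (hγ : 0 ≤ γ)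
    (h1 : α + β + γ ≤ 1) :
    ∃ v : ℝ → ℝ, IsK v ∧ ∀ t : ℝ, -1 ≤ t → t < 1 → v t = α * u t + β * (u t * v t) + γ * (v t * v t) := by
  obtain ⟨p, hp0, hp, hs, hsum, hu⟩ := hu
  have hP : ∀ N, ∑ n ∈ range N, p n ≤ 1 := fun N =>
    (hs.sum_le_tsum _ fun n _ => hp n).trans hsum
  have hr := recc_nonneg hα hβ hγ hp
  have hrs : Summable (recc α β γ p) :=
    summable_of_sum_range_le hr (recc_sums_le hα hβ hγ h1 hp0 hp hP)
  have habs : ∀ c : ℕ → ℝ, (∀ n, 0 ≤ c n) → Summable c → Summable fun n => |c n| := by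
    intro c hc h
    simpa only [abs_of_nonneg (hc _)] using h
  have hra := habs _ hr hrs
  have hpa := habs _ hp hs
  refine ⟨fun t => ∑' n, recc α β γ p n * t ^ n, ⟨recc α β γ p, recc_zero _ _ _ _, hr, hrs, ?_, ?_⟩, ?_⟩
  · exact Real.tsum_le_of_sum_range_le hr (recc_sums_le hα hβ hγ h1 hp0 hp hP)
  · intro t ht1 ht2
    exact (summable_pow hra (abs_le_one_of ht1 ht2)).hasSum
  · intro t ht1 ht2
    have ht := abs_le_one_of ht1 ht2
    have hv := (summable_pow hra ht).hasSum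
    have e1 := (hu t ht1 ht2).mul_left α
    have e2 := (hasSum_mul hpa hra ht (hu t ht1 ht2) hv).mul_left β
    have e3 := (hasSum_mul hra hra ht hv hv).mul_left γ
    have e := (e1.add e2).add e3
    refine hv.unique ?_
    have e4 : (fun n => α * (p n * t ^ n) + β * ((∑ ij ∈ antidiagonal n, p ij.1 * recc α β γ p ij.2) * t ^ n) +
        γ * ((∑ ij ∈ antidiagonal n, recc α β γ p ij.1 * recc α β γ p ij.2) * t ^ n)) =
        fun n => recc α β γ p n * t ^ n := by
      funext n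
      rw [recc_eq α β γ hp0 n]
      ring
    rw [← e4]
    exact e

theorem IsK.congr {u v : ℝ → ℝ} (hu : IsK u) (h : ∀ t : ℝ, -1 ≤ t → t < 1 → u t = v t) : IsK v := by
  obtain ⟨p, hp0, hp, hs, hsum, hu⟩ := hu
  refine ⟨p, hp0, hp, hs, hsum, fun t h1 h2 => ?_⟩
  rw [← h t h1 h2]
  exact hu t h1 h2

theorem IsK.abs_le {u : ℝ → ℝ} (hu : IsK u) {t : ℝ} (h1 : -1 ≤ t) (h2 : t < 1) : |u t| ≤ 1 := by
  obtain ⟨p, hp0, hp, hs, hsum, hu⟩ := hu
  have ht := abs_le_one_of h1 h2
  have hb : ∀ n, ‖p n * t ^ n‖ ≤ p n := fun n => by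
    rw [norm_mul, norm_pow, Real.norm_eq_abs, Real.norm_eq_abs, abs_of_nonneg (hp n)]
    exact mul_le_of_le_one_right (hp n) (pow_le_one₀ (abs_nonneg _) ht)
  have := tsum_of_norm_bounded hs.hasSum hb
  rw [(hu t h1 h2).tsum_eq] at this
  exact this.trans hsum

theorem IsK.sqrt {u : ℝ → ℝ} (hu : IsK u) : IsK fun t => 1 - √(1 - u t) := by
  obtain ⟨v, hv, h⟩ := hu.rec (α := 1 / 2) (β := 0) (γ := 1 / 2) (by norm_num) (by norm_num)
    (by norm_num) (by norm_num)
  refine hv.congr fun t h1 h2 => ?_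
  have e := h t h1 h2
  have hb := _root_.abs_le.1 (hv.abs_le h1 h2)
  have e2 : 1 - u t = (1 - v t) ^ 2 := by
    nlinarith
  rw [e2, Real.sqrt_sq (by linarith)]
  ring

theorem IsK.mob {u : ℝ → ℝ} (hu : IsK u) {θ : ℝ} (h0 : 0 ≤ θ) (hθ : θ < 1) :
    IsK fun t => 1 - (1 - u t) / (1 - θ * u t) := by
  obtain ⟨v, hv, h⟩ := hu.rec (α := 1 - θ) (β := θ) (γ := 0) (by linarith) h0 le_rfl (by linarith)
  refine hv.congr fun t h1 h2 => ?_
  have e := h t h1 h2
  have hb := _root_.abs_le.1 (hu.abs_le h1 h2)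
  have hpos : 0 < 1 - θ * u t := by nlinarith
  rw [eq_sub_iff_add_eq, ← eq_sub_iff_add_eq', div_eq_iff hpos.ne']
  linear_combination e

theorem IsK.lin {θ : ℝ} (h0 : 0 ≤ θ) (h1 : θ ≤ 1) : IsK fun t => θ * t := by
  have hs : HasSum (fun n : ℕ => if n = 1 then θ else 0) θ := by
    have := hasSum_ite_eq (1 : ℕ) θ
    exact this
  refine ⟨fun n => if n = 1 then θ else 0, by simp, fun n => ?_, hs.summable, ?_, fun t _ _ => ?_⟩
  · dsimp only
    split_ifs
    · exact h0
    · exact le_rfl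
  · rw [hs.tsum_eq]
    exact h1
  · have := hasSum_single (f := fun n : ℕ => (if n = 1 then θ else 0) * t ^ n) 1 (by
      intro n hn
      simp [hn])
    simpa using this

/-- Functions of the form `s (1 - u)`. -/
def IsF (f : ℝ → ℝ) : Prop :=
  ∃ s : ℝ, 0 < s ∧ ∃ u : ℝ → ℝ, IsK u ∧ ∀ t : ℝ, -1 ≤ t → t < 1 → f t = s * (1 - u t)

theorem IsF.congr {f g : ℝ → ℝ} (hf : IsF f) (h : ∀ t : ℝ, -1 ≤ t → t < 1 → f t = g t) : IsF g := by
  obtain ⟨s, hs, u, hu, hf⟩ := hf
  exact ⟨s, hs, u, hu, fun t h1 h2 => by rw [← h t h1 h2, hf t h1 h2]⟩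

theorem IsF.smul {f : ℝ → ℝ} (hf : IsF f) {c : ℝ} (hc : 0 < c) : IsF fun t => c * f t := by
  obtain ⟨s, hs, u, hu, hf⟩ := hf
  exact ⟨c * s, mul_pos hc hs, u, hu, fun t h1 h2 => by simp only [hf t h1 h2]; ring⟩

theorem IsF.sqrt {f : ℝ → ℝ} (hf : IsF f) : IsF fun t => √(f t) := by
  obtain ⟨s, hs, u, hu, hf⟩ := hf
  refine ⟨√s, Real.sqrt_pos.2 hs, _, hu.sqrt, fun t h1 h2 => ?_⟩
  simp only
  rw [hf t h1 h2, Real.sqrt_mul hs.le]
  ring

theorem IsF.mob {f : ℝ → ℝ} (hf : IsF f) {a : ℝ} (ha : 0 ≤ a) : IsF fun t => f t / (1 + a * f t) := by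
  obtain ⟨s, hs, u, hu, hf⟩ := hf
  have hpos : 0 < 1 + a * s := by positivity
  refine ⟨s / (1 + a * s), div_pos hs hpos, _, hu.mob (θ := a * s / (1 + a * s)) (by positivity)
    (by rw [div_lt_one hpos]; linarith), fun t h1 h2 => ?_⟩
  have hb := _root_.abs_le.1 (hu.abs_le h1 h2)
  have h3 : 0 < 1 + a * (s * (1 - u t)) := by
    have : 0 ≤ a * (s * (1 - u t)) := mul_nonneg ha (mul_nonneg hs.le (by linarith))
    linarith
  have h4 : 1 - a * s / (1 + a * s) * u t = (1 + a * (s * (1 - u t))) / (1 + a * s) := by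
    field_simp
    ring
  simp only
  rw [hf t h1 h2, h4]
  field_simp
  ring

theorem IsW.congr {f g : ℝ → ℝ} (hf : IsW f) (h : ∀ t : ℝ, -1 ≤ t → t < 1 → f t = g t) : IsW g := by
  obtain ⟨a, ha, hf⟩ := hf
  exact ⟨a, ha, fun t h1 h2 => by rw [← h t h1 h2]; exact hf t h1 h2⟩

theorem IsW.const (c : ℝ) : IsW fun _ => c := by
  refine ⟨fun n => if n = 0 then c else 0, ?_, fun t _ _ => ?_⟩
  · refine summable_of_ne_finset_zero (s := {0}) fun n hn => ?_
    rw [Finset.mem_singleton] at hn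
    simp [hn]
  · have := hasSum_single (f := fun n : ℕ => (if n = 0 then c else 0) * t ^ n) 0 (by
      intro n hn
      simp [hn])
    simpa using this

theorem IsW.id : IsW fun t => t := by
  refine ⟨fun n => if n = 1 then 1 else 0, ?_, fun t _ _ => ?_⟩
  · refine summable_of_ne_finset_zero (s := {1}) fun n hn => ?_
    rw [Finset.mem_singleton] at hn
    simp [hn]
  · have := hasSum_single (f := fun n : ℕ => (if n = 1 then (1 : ℝ) else 0) * t ^ n) 1 (by
      intro n hn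
      simp [hn])
    simpa using this

theorem IsW.add {f g : ℝ → ℝ} (hf : IsW f) (hg : IsW g) : IsW fun t => f t + g t := by
  obtain ⟨a, ha, hf⟩ := hf
  obtain ⟨b, hb, hg⟩ := hg
  refine ⟨fun n => a n + b n, Summable.of_nonneg_of_le (fun n => abs_nonneg _)
    (fun n => abs_add_le _ _) (ha.add hb), fun t h1 h2 => ?_⟩
  have := (hf t h1 h2).add (hg t h1 h2)
  simpa only [add_mul] using this

theorem IsW.mul {f g : ℝ → ℝ} (hf : IsW f) (hg : IsW g) : IsW fun t => f t * g t := by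
  obtain ⟨a, ha, hf⟩ := hf
  obtain ⟨b, hb, hg⟩ := hg
  exact ⟨_, summable_mul ha hb, fun t h1 h2 =>
    hasSum_mul ha hb (abs_le_one_of h1 h2) (hf t h1 h2) (hg t h1 h2)⟩

theorem IsW.smul {f : ℝ → ℝ} (c : ℝ) (hf : IsW f) : IsW fun t => c * f t :=
  (IsW.const c).mul hf

theorem IsW.sub {f g : ℝ → ℝ} (hf : IsW f) (hg : IsW g) : IsW fun t => f t - g t := by
  refine (hf.add (hg.smul (-1))).congr fun t _ _ => by ring

theorem IsK.isW {u : ℝ → ℝ} (hu : IsK u) : IsW u := by
  obtain ⟨p, hp0, hp, hs, hsum, hu⟩ := hu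
  exact ⟨p, by simpa only [abs_of_nonneg (hp _)] using hs, hu⟩

theorem IsF.isW {f : ℝ → ℝ} (hf : IsF f) : IsW f := by
  obtain ⟨s, hs, u, hu, hf⟩ := hf
  exact (((IsW.const 1).sub hu.isW).smul s).congr fun t h1 h2 => (hf t h1 h2).symm

theorem _root_.HasSum.congr_fun_eq {f g : ℕ → ℝ} {a : ℝ} (h : HasSum f a) (e : ∀ n, g n = f n) :
    HasSum g a := by
  have : g = f := funext e
  rw [this]
  exact h

/-- Division by `1 + t`: the coefficients are asymptotically alternating. -/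
theorem coef_of_W {Φ : ℝ → ℝ} (hΦ : IsW Φ) (K : ℝ) (h1 : K * Φ (-1) ≠ 0) (h0 : K * Φ 0 ≠ 0) :
    ∃ F : ℕ → ℝ, (∀ t : ℝ, |t| < 1 → HasSum (fun n => F n * t ^ n) (K * Φ t / (1 + t))) ∧
      ∃ c C : ℝ, 0 < c ∧ 0 < C ∧ ∀ n : ℕ, 1 ≤ n → c * n ≤ ∑ j ∈ range n, F j ^ 2 ∧
        ∑ j ∈ range n, F j ^ 2 ≤ C * n := by
  obtain ⟨φ, hφ, hΦ⟩ := hΦ
  set P : ℕ → ℝ := fun n => ∑ i ∈ range (n + 1), φ i * (-1) ^ i with hPdef
  have hlim : Filter.Tendsto P Filter.atTop (nhds (Φ (-1))) := by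
    have := (hΦ (-1) le_rfl (by norm_num)).tendsto_sum_nat
    exact (Filter.tendsto_add_atTop_iff_nat 1).2 this
  refine ⟨fun n => K * ((-1) ^ n * P n), ?_, ?_⟩
  · intro t ht
    have ht1 : |t| ≤ 1 := ht.le
    have ht' := abs_lt.1 ht
    have hpos : 0 < 1 + t := by linarith
    have hg : HasSum (fun n : ℕ => (-1 : ℝ) ^ n * t ^ n) (1 + t)⁻¹ := by
      have := hasSum_geometric_of_abs_lt_one (r := -t) (by rwa [abs_neg])
      rw [sub_neg_eq_add] at this
      convert this using 2 with n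
      rw [← mul_pow]
      ring
    have hn1 : Summable fun n : ℕ => ‖φ n * t ^ n‖ := by
      refine Summable.of_nonneg_of_le (fun n => norm_nonneg _) (fun n => ?_) hφ
      rw [norm_mul, norm_pow, Real.norm_eq_abs, Real.norm_eq_abs]
      exact mul_le_of_le_one_right (abs_nonneg _) (pow_le_one₀ (abs_nonneg _) ht1)
    have hn2 : Summable fun n : ℕ => ‖(-1 : ℝ) ^ n * t ^ n‖ := by
      have := summable_geometric_of_lt_one (abs_nonneg t) ht
      convert this using 2 with n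
      rw [norm_mul, norm_pow, norm_pow, norm_neg, norm_one, one_pow, one_mul, Real.norm_eq_abs]
    have hs := (summable_norm_sum_mul_antidiagonal_of_summable_norm hn1 hn2).of_norm.hasSum
    have h := tsum_mul_tsum_eq_tsum_sum_antidiagonal_of_summable_norm hn1 hn2
    rw [← h, (hΦ t ht'.1.le ht'.2).tsum_eq, hg.tsum_eq] at hs
    have h2 := hs.mul_left K
    rw [show K * Φ t / (1 + t) = K * (Φ t * (1 + t)⁻¹) by rw [div_eq_mul_inv]; ring]
    refine h2.congr_fun_eq ?_
    intro n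
    rw [Finset.Nat.sum_antidiagonal_eq_sum_range_succ_mk, hPdef, mul_assoc]
    congr 1
    simp only
    rw [Finset.mul_sum, Finset.sum_mul]
    refine Finset.sum_congr rfl fun i hi => ?_
    have hi' : i ≤ n := Nat.lt_succ_iff.1 (mem_range.1 hi)
    obtain ⟨m, rfl⟩ := Nat.exists_eq_add_of_le hi'
    rw [Nat.add_sub_cancel_left, pow_add, pow_add]
    have : ((-1 : ℝ) ^ i) * (-1) ^ i = 1 := by
      rw [← mul_pow]
      norm_num
    linear_combination (φ i * (-1) ^ m * t ^ i * t ^ m) * this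
  · have hsq : ∀ n, (K * ((-1) ^ n * P n)) ^ 2 = K ^ 2 * P n ^ 2 := by
      intro n
      rw [mul_pow, mul_pow, ← pow_mul, mul_comm n 2, pow_mul]
      norm_num
    simp only [hsq]
    set L := K ^ 2 * Φ (-1) ^ 2 with hL
    have hLpos : 0 < L := by
      rw [hL, ← mul_pow]
      positivity
    have hlim2 : Filter.Tendsto (fun n => K ^ 2 * P n ^ 2) Filter.atTop (nhds L) :=
      (hlim.pow 2).const_mul _
    obtain ⟨C, hC⟩ : ∃ C : ℝ, ∀ n, K ^ 2 * P n ^ 2 ≤ C := by
      obtain ⟨C, hC⟩ := hlim2.bddAbove_range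
      exact ⟨C, fun n => hC ⟨n, rfl⟩⟩
    have hev := hlim2.eventually (eventually_ge_nhds (show L / 2 < L by linarith))
    obtain ⟨n0, hn0⟩ := Filter.eventually_atTop.1 hev
    have hP0 : 0 < K ^ 2 * P 0 ^ 2 := by
      have e : P 0 = Φ 0 := by
        have h2 := hΦ 0 (by norm_num) (by norm_num)
        have h3 := hasSum_single (f := fun n : ℕ => φ n * (0 : ℝ) ^ n) 0 (by
          intro n hn
          simp [hn])
        rw [h2.unique h3, hPdef]
        simp
      rw [e, ← mul_pow]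
      positivity
    set c := min (K ^ 2 * P 0 ^ 2 / (n0 + 1)) (L / 2) with hc
    have hcpos : 0 < c := lt_min (by positivity) (by positivity)
    have hCpos : 0 < C := hP0.trans_le (hC 0)
    refine ⟨c, C, hcpos, hCpos, fun n hn => ⟨?_, ?_⟩⟩
    · rcases le_total n (n0 + 1) with hnn | hnn
      · have h2 : K ^ 2 * P 0 ^ 2 ≤ ∑ j ∈ range n, K ^ 2 * P j ^ 2 :=
          Finset.single_le_sum (f := fun j => K ^ 2 * P j ^ 2) (fun i _ => by positivity)
            (mem_range.2 hn)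
        have h3 : c * n ≤ K ^ 2 * P 0 ^ 2 / (n0 + 1) * (n0 + 1) := by
          refine mul_le_mul (min_le_left _ _) ?_ (by positivity) (by positivity)
          exact_mod_cast hnn
        rw [div_mul_cancel₀ _ (by positivity)] at h3
        exact h3.trans h2
      · obtain ⟨m, rfl⟩ := Nat.exists_eq_add_of_le hnn
        rw [Finset.sum_range_add]
        have h2 : K ^ 2 * P 0 ^ 2 ≤ ∑ j ∈ range (n0 + 1), K ^ 2 * P j ^ 2 :=
          Finset.single_le_sum (f := fun j => K ^ 2 * P j ^ 2) (fun i _ => by positivity)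
            (mem_range.2 (Nat.succ_pos _))
        have h3 : c * (n0 + 1 : ℝ) ≤ K ^ 2 * P 0 ^ 2 := by
          have : c * (n0 + 1 : ℝ) ≤ K ^ 2 * P 0 ^ 2 / (n0 + 1) * (n0 + 1) :=
            mul_le_mul_of_nonneg_right (min_le_left _ _) (by positivity)
          rwa [div_mul_cancel₀ _ (by positivity)] at this
        have h4 : c * m ≤ ∑ j ∈ range m, K ^ 2 * P (n0 + 1 + j) ^ 2 := by
          have : ∑ j ∈ range m, c ≤ ∑ j ∈ range m, K ^ 2 * P (n0 + 1 + j) ^ 2 :=
            Finset.sum_le_sum fun j _ => (min_le_right _ _).trans (hn0 _ (by omega))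
          rw [Finset.sum_const, card_range, nsmul_eq_mul] at this
          linarith
        push_cast
        linarith
    · calc ∑ j ∈ range n, K ^ 2 * P j ^ 2 ≤ ∑ j ∈ range n, C := Finset.sum_le_sum fun j _ => hC j
        _ = C * n := by rw [Finset.sum_const, card_range, nsmul_eq_mul, mul_comm]

end EXPW
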